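import Mathlib

/-!
# Symbolic description of self-affine carpets

Common framework for Lalley-Gatzouras and Baranski carpets.  Letters `i : I` carry a column label
`col i` and a row label `row i`, horizontal ratio and translation `a i`, `t i` (depending only on
the column label) and vertical ratio and translation `b i`, `u i` (depending only on the row
label).  In the Lalley-Gatzouras case the column label is the letter itself.
-/

set_option autoImplicit false

open MeasureTheory Set

namespace Pool.Agent.CarpetMeasures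

/-- The intervals `[t, t + a]` and `[t', t' + a']` do not overlap. -/
def Apart (t a t' a' : ℝ) : Prop := t + a ≤ t' ∨ t' + a' ≤ t

/-- A labelled diagonal self-affine system. -/
structure Sys (I J K : Type*) where
  col : I → J
  row : I → K
  a : I → ℝ
  t : I → ℝ
  b : I → ℝ
  u : I → ℝ
  inj : ∀ i i', col i = col i' → row i = row i' → i = i'
  col_a : ∀ i i', col i = col i' → a i = a i'
  col_t : ∀ i i', col i = col i' → t i = t i'
  row_b : ∀ i i', row i = row i' → b i = b i'
  row_u : ∀ i i', row i = row i' → u i = u i'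
  a_pos : ∀ i, 0 < a i
  a_lt : ∀ i, a i < 1
  b_pos : ∀ i, 0 < b i
  b_lt : ∀ i, b i < 1
  t_nonneg : ∀ i, 0 ≤ t i
  t_add : ∀ i, t i + a i ≤ 1
  u_nonneg : ∀ i, 0 ≤ u i
  u_add : ∀ i, u i + b i ≤ 1
  alt : ((∀ i i', col i ≠ col i' → Apart (t i) (a i) (t i') (a i')) ∧
          (∀ i i', row i ≠ row i' → Apart (u i) (b i) (u i') (b i'))) ∨
        ((∀ i, a i ≤ b i) ∧ (∀ i i', row i ≠ row i' → Apart (u i) (b i) (u i') (b i')) ∧
          (∀ i i', row i = row i' → i ≠ i' → Apart (t i) (a i) (t i') (a i'))) ∨
        ((∀ i, b i ≤ a i) ∧ (∀ i i', col i ≠ col i' → Apart (t i) (a i) (t i') (a i')) ∧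
          (∀ i i', col i = col i' → i ≠ i' → Apart (u i) (b i) (u i') (b i')))

namespace Sys

variable {I J K : Type*} (S : Sys I J K)

/-- Exchange the two coordinates. -/
def swap : Sys I K J where
  col := S.row
  row := S.col
  a := S.b
  t := S.u
  b := S.a
  u := S.t
  inj := fun i i' h1 h2 => S.inj i i' h2 h1
  col_a := S.row_b
  col_t := S.row_u
  row_b := S.col_a
  row_u := S.col_t
  a_pos := S.b_pos
  a_lt := S.b_lt
  b_pos := S.a_pos
  b_lt := S.a_lt
  t_nonneg := S.u_nonneg
  t_add := S.u_add
  u_nonneg := S.t_nonneg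
  u_add := S.t_add
  alt := by
    rcases S.alt with h | h | h
    · exact Or.inl ⟨h.2, h.1⟩
    · exact Or.inr (Or.inr h)
    · exact Or.inr (Or.inl h)

end Sys

/-- First index at which the running product of `f` is at most `r`. -/
noncomputable def stop (f : ℕ → ℝ) (r : ℝ) : ℕ :=
  sInf {k : ℕ | ∏ m ∈ Finset.range k, f m ≤ r}

/-- The one-dimensional coding map: the point `∑ (∏_{n<m} f n) g m`. -/
noncomputable def pt (f g : ℕ → ℝ) : ℝ := ∑' m, (∏ n ∈ Finset.range m, f n) * g m

namespace Sys

variable {I J K : Type*} (S : Sys I J K)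

/-- number of column labels read at scale `r` -/
noncomputable def kx (i : ℕ → I) (r : ℝ) : ℕ := stop (fun m => S.a (i m)) r

/-- number of row labels read at scale `r` -/
noncomputable def ly (i : ℕ → I) (r : ℝ) : ℕ := stop (fun m => S.b (i m)) r

/-- Sequences whose column labels agree with those of `i` before `k` and whose row labels agree
with those of `i` before `l`. -/
def cls (k l : ℕ) (i : ℕ → I) : Set (ℕ → I) :=
  {z | (∀ m < k, S.col (z m) = S.col (i m)) ∧ (∀ m < l, S.row (z m) = S.row (i m))}

/-- The approximate square of side about `r` around `i` (as a set of sequences). -/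
noncomputable def Q (r : ℝ) (i : ℕ → I) : Set (ℕ → I) := S.cls (S.kx i r) (S.ly i r) i

/-- Horizontal coordinate of the point coded by `i`. -/
noncomputable def X (i : ℕ → I) : ℝ := pt (fun m => S.a (i m)) (fun m => S.t (i m))

/-- Vertical coordinate of the point coded by `i`. -/
noncomputable def Y (i : ℕ → I) : ℝ := pt (fun m => S.b (i m)) (fun m => S.u (i m))

end Sys

/-- Exponents attached to the rows: `∑_{i' in the row of i} a_{i'}^{s i} = 1`
and `∑_i b_i^β a_i^{s i} = 1`. -/
structure Expo {I J K : Type*} [Fintype I] [DecidableEq K] (S : Sys I J K) where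
  s : I → ℝ
  β : ℝ
  s_nonneg : ∀ i, 0 ≤ s i
  β_nonneg : 0 ≤ β
  s_row : ∀ i i', S.row i = S.row i' → s i = s i'
  sum_row : ∀ i, ∑ i' ∈ Finset.univ.filter (fun i' => S.row i' = S.row i), S.a i' ^ s i' = 1
  sum_all : ∑ i, S.b i ^ β * S.a i ^ s i = 1

end Pool.Agent.CarpetMeasures
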