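import Pool.Agent.CarpetMeasures.Statement
import Pool.Agent.CarpetMeasures.Defs

/-!
# Self-affine carpets are attractors of labelled systems
-/

set_option autoImplicit false

open MeasureTheory Metric Set

namespace Pool.Agent.CarpetMeasures

/-! ### The product picture -/

theorem continuous_diagMap (a b t u : ℝ) : Continuous (diagMap a b t u) := by
  unfold diagMap
  fun_prop

theorem continuous_swapPt : Continuous swapPt := by
  unfold swapPt
  fun_prop

theorem diagMap_zero (a b t u : ℝ) (p : Plane) : diagMap a b t u p 0 = a * p 0 + t := by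
  simp [diagMap]

theorem diagMap_one (a b t u : ℝ) (p : Plane) : diagMap a b t u p 1 = b * p 1 + u := by
  simp [diagMap]

theorem swapPt_swapPt (p : Plane) : swapPt (swapPt p) = p := by
  ext k
  fin_cases k <;> simp [swapPt]

theorem swapPt_diagMap (a b t u : ℝ) (p : Plane) :
    swapPt (diagMap a b t u (swapPt p)) = diagMap b a u t p := by
  ext k
  fin_cases k <;> simp [swapPt, diagMap]

/-- the product version, to be fed into `range_coding` of module Geom -/
theorem attractor_prod {I J K : Type} [Fintype I] (S : Sys I J K) {F : Set Plane}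
    (hF : IsAttractor (fun x : I => diagMap (S.a x) (S.b x) (S.t x) (S.u x)) F) :
    IsCompact ((fun p : Plane => (p 0, p 1)) '' F) ∧ ((fun p : Plane => (p 0, p 1)) '' F).Nonempty ∧
    ((fun p : Plane => (p 0, p 1)) '' F) = ⋃ x : I,
      (fun p : ℝ × ℝ => (S.a x * p.1 + S.t x, S.b x * p.2 + S.u x)) ''
        ((fun p : Plane => (p 0, p 1)) '' F) := by
  obtain ⟨hc, hne, heq⟩ := hF
  refine ⟨hc.image (by fun_prop), hne.image _, ?_⟩
  conv_lhs => rw [heq]
  rw [image_iUnion]
  refine iUnion_congr fun x => ?_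
  rw [image_image, image_image]
  refine image_congr fun p _ => ?_
  simp only [diagMap_zero, diagMap_one]

/-! ### At least two points -/

theorem Sys.apart_of_ne {I J K : Type*} (S : Sys I J K) {i i' : I} (h : i ≠ i') :
    Apart (S.t i) (S.a i) (S.t i') (S.a i') ∨ Apart (S.u i) (S.b i) (S.u i') (S.b i') := by
  rcases S.alt with ⟨h1, h2⟩ | ⟨-, h2, h3⟩ | ⟨-, h2, h3⟩
  · by_cases hc : S.col i = S.col i'
    · by_cases hr : S.row i = S.row i'
      · exact absurd (S.inj i i' hc hr) h
      · exact Or.inr (h2 i i' hr)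
    · exact Or.inl (h1 i i' hc)
  · by_cases hr : S.row i = S.row i'
    · exact Or.inl (h3 i i' hr h)
    · exact Or.inr (h2 i i' hr)
  · by_cases hc : S.col i = S.col i'
    · exact Or.inr (h3 i i' hc h)
    · exact Or.inl (h2 i i' hc)

/-- Two maps of the line with apart images have no common fixed point. -/
theorem no_common_fixed {t a t' a' p : ℝ} (ha : 0 < a) (ha1 : a < 1) (ha' : 0 < a')
    (_ : a' < 1) (ht : 0 ≤ t) (hta : t + a ≤ 1) (ht' : 0 ≤ t') (hta' : t' + a' ≤ 1)
    (h : Apart t a t' a') (hp : a * p + t = p) (hp' : a' * p + t' = p) : False := by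
  have h0 : 0 ≤ p := by
    by_contra hneg
    push Not at hneg
    nlinarith
  have h1 : p ≤ 1 := by
    by_contra hneg
    push Not at hneg
    nlinarith
  rcases h with h | h <;> nlinarith

/-- With at least two letters the attractor is not a point. -/
theorem diam_pos {I J K : Type} [Fintype I] [Nontrivial I] (S : Sys I J K) {F : Set Plane}
    (hF : IsAttractor (fun x : I => diagMap (S.a x) (S.b x) (S.t x) (S.u x)) F) :
    0 < Metric.diam F := by
  obtain ⟨hc, ⟨p, hp⟩, heq⟩ := hF
  have hmem : ∀ x : I, ∀ q ∈ F, diagMap (S.a x) (S.b x) (S.t x) (S.u x) q ∈ F := by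
    intro x q hq
    rw [heq]
    exact mem_iUnion.2 ⟨x, mem_image_of_mem _ hq⟩
  have hex : ∃ q ∈ F, q ≠ p := by
    by_contra hno
    push Not at hno
    obtain ⟨x, y, hxy⟩ := exists_pair_ne I
    have hx := hno _ (hmem x p hp)
    have hy := hno _ (hmem y p hp)
    have hx0 : S.a x * p 0 + S.t x = p 0 := by rw [← diagMap_zero _ (S.b x) _ (S.u x), hx]
    have hx1 : S.b x * p 1 + S.u x = p 1 := by rw [← diagMap_one (S.a x) _ (S.t x), hx]
    have hy0 : S.a y * p 0 + S.t y = p 0 := by rw [← diagMap_zero _ (S.b y) _ (S.u y), hy]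
    have hy1 : S.b y * p 1 + S.u y = p 1 := by rw [← diagMap_one (S.a y) _ (S.t y), hy]
    rcases S.apart_of_ne hxy with h | h
    · exact no_common_fixed (S.a_pos x) (S.a_lt x) (S.a_pos y) (S.a_lt y) (S.t_nonneg x)
        (S.t_add x) (S.t_nonneg y) (S.t_add y) h hx0 hy0
    · exact no_common_fixed (S.b_pos x) (S.b_lt x) (S.b_pos y) (S.b_lt y) (S.u_nonneg x)
        (S.u_add x) (S.u_nonneg y) (S.u_add y) h hx1 hy1
  obtain ⟨q, hq, hqp⟩ := hex
  exact lt_of_lt_of_le (dist_pos.2 hqp) (Metric.dist_le_diam_of_mem hc.isBounded hq hp)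

/-! ### The three classes -/

/-- Bounds for the translation parts from `F ⊆ [0,1]^2`. -/
theorem transl_bounds {ι : Type} {a b t u : ι → ℝ} {F : Set Plane} (hsq : F ⊆ unitSquare)
    (hF : IsAttractor (fun i => diagMap (a i) (b i) (t i) (u i)) F) (ha : ∀ i, 0 < a i ∧ a i < 1)
    (hb : ∀ i, 0 < b i ∧ b i < 1) (i : ι) :
    0 ≤ t i ∧ t i + a i ≤ 1 ∧ 0 ≤ u i ∧ u i + b i ≤ 1 := by
  obtain ⟨hc, hne, heq⟩ := hF
  have hmem : ∀ q ∈ F, diagMap (a i) (b i) (t i) (u i) q ∈ F := by
    intro q hq
    rw [heq]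
    exact mem_iUnion.2 ⟨i, mem_image_of_mem _ hq⟩
  have key : ∀ k : Fin 2, ∃ p ∈ F, ∃ q ∈ F, ∀ z ∈ F, p k ≤ z k ∧ z k ≤ q k := by
    intro k
    have hcont : Continuous (fun z : Plane => z k) := by fun_prop
    obtain ⟨p, hp, hpm⟩ := hc.exists_isMinOn hne hcont.continuousOn
    obtain ⟨q, hq, hqm⟩ := hc.exists_isMaxOn hne hcont.continuousOn
    exact ⟨p, hp, q, hq, fun z hz => ⟨hpm hz, hqm hz⟩⟩
  obtain ⟨p, hp, q, hq, h0⟩ := key 0
  obtain ⟨p', hp', q', hq', h1⟩ := key 1
  have e1 := (h0 _ (hmem p hp)).1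
  have e2 := (h0 _ (hmem q hq)).2
  have e3 := (h1 _ (hmem p' hp')).1
  have e4 := (h1 _ (hmem q' hq')).2
  rw [diagMap_zero] at e1 e2
  rw [diagMap_one] at e3 e4
  have b1 := (hsq hp 0).1
  have b2 := (hsq hq 0).2
  have b3 := (hsq hp' 1).1
  have b4 := (hsq hq' 1).2
  have := ha i
  have := hb i
  refine ⟨?_, ?_, ?_, ?_⟩ <;> nlinarith

theorem projY_image {a b t u : ℝ} (hb : 0 < b) :
    projY '' (diagMap a b t u '' unitSquare) = Icc u (u + b) := by
  ext y
  constructor
  · rintro ⟨-, ⟨p, hp, rfl⟩, rfl⟩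
    have h := hp 1
    rw [projY, diagMap_one]
    constructor <;> nlinarith [h.1, h.2]
  · rintro ⟨h1, h2⟩
    refine ⟨_, ⟨!₂[0, (y - u) / b], ?_, rfl⟩, ?_⟩
    · intro k
      fin_cases k
      · simp
      · simp only [Fin.mk_one, Fin.isValue, mem_Icc]
        change 0 ≤ (y - u) / b ∧ (y - u) / b ≤ 1
        exact ⟨div_nonneg (by linarith) hb.le, (div_le_one hb).2 (by linarith)⟩
    · rw [projY, diagMap_one]
      change b * ((y - u) / b) + u = y
      field_simp
      ring

theorem rect_subset_interior {a b t u : ℝ} (ha : 0 < a) (hb : 0 < b) {x y : ℝ}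
    (hx : x ∈ Ioo t (t + a)) (hy : y ∈ Ioo u (u + b)) :
    (!₂[x, y] : Plane) ∈ interior (diagMap a b t u '' unitSquare) := by
  rw [mem_interior]
  refine ⟨{p : Plane | p 0 ∈ Ioo t (t + a) ∧ p 1 ∈ Ioo u (u + b)}, ?_, ?_, ?_⟩
  · rintro p ⟨⟨h1, h2⟩, h3, h4⟩
    refine ⟨!₂[(p 0 - t) / a, (p 1 - u) / b], ?_, ?_⟩
    · intro k
      fin_cases k
      · change 0 ≤ (p 0 - t) / a ∧ (p 0 - t) / a ≤ 1
        exact ⟨div_nonneg (by linarith) ha.le, (div_le_one ha).2 (by linarith)⟩
      · change 0 ≤ (p 1 - u) / b ∧ (p 1 - u) / b ≤ 1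
        exact ⟨div_nonneg (by linarith) hb.le, (div_le_one hb).2 (by linarith)⟩
    · ext k
      fin_cases k
      · change diagMap a b t u _ 0 = p 0
        rw [diagMap_zero]
        change a * ((p 0 - t) / a) + t = p 0
        field_simp
        ring
      · change diagMap a b t u _ 1 = p 1
        rw [diagMap_one]
        change b * ((p 1 - u) / b) + u = p 1
        field_simp
        ring
  · have h0 : Continuous (fun p : Plane => p 0) := by fun_prop
    have h1 : Continuous (fun p : Plane => p 1) := by fun_prop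
    exact (isOpen_Ioo.preimage h0).inter (isOpen_Ioo.preimage h1)
  · exact ⟨hx, hy⟩

/-- Disjoint open intervals are apart. -/
theorem apart_of_disjoint {t a t' a' : ℝ} (ha : 0 < a) (ha' : 0 < a')
    (h : Disjoint (Ioo t (t + a)) (Ioo t' (t' + a'))) : Apart t a t' a' := by
  rw [Ioo_disjoint_Ioo] at h
  rcases le_max_iff.1 h with h | h <;> rcases min_le_iff.1 h with h' | h'
  · linarith
  · exact Or.inr h'
  · exact Or.inl h'
  · linarith

theorem exists_sys_LG {F : Set Plane} (hF : IsLalleyGatzouras F) :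
    ∃ (I J K : Type) (_ : Fintype I) (_ : Nontrivial I) (S : Sys I J K),
      IsAttractor (fun x : I => diagMap (S.a x) (S.b x) (S.t x) (S.u x)) F := by
  obtain ⟨hsq, n, a, b, t, u, hn, hab, hint, hproj, hatt⟩ := hF
  have hb := transl_bounds hsq hatt (fun i => ⟨(hab i).1, lt_of_le_of_lt (hab i).2.1 (hab i).2.2⟩)
    (fun i => ⟨lt_of_lt_of_le (hab i).1 (hab i).2.1, (hab i).2.2⟩)
  have hbpos : ∀ i, 0 < b i := fun i => lt_of_lt_of_le (hab i).1 (hab i).2.1
  have hrow : ∀ i j, (b i, u i) ≠ (b j, u j) → Apart (u i) (b i) (u j) (b j) := by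
    intro i j hij
    have h := hproj i j
    rw [projY_image (hbpos i), projY_image (hbpos j)] at h
    rcases h with h | h
    · exfalso
      have h1 := (Icc_subset_Icc_iff (by linarith [hbpos i])).1 h.subset
      have h2 := (Icc_subset_Icc_iff (by linarith [hbpos j])).1 h.symm.subset
      apply hij
      have e1 : u i = u j := le_antisymm h2.1 h1.1
      have e2 : b i = b j := by linarith [h1.2, h2.2]
      rw [e1, e2]
    · rw [interior_Icc, interior_Icc] at h
      exact apart_of_disjoint (hbpos i) (hbpos j) h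
  have hcol : ∀ i j, (b i, u i) = (b j, u j) → i ≠ j → Apart (t i) (a i) (t j) (a j) := by
    intro i j hij hne
    have hbij : b i = b j := congrArg Prod.fst hij
    have huij : u i = u j := congrArg Prod.snd hij
    apply apart_of_disjoint (hab i).1 (hab j).1
    rw [Set.disjoint_left]
    intro x hx hx'
    have hd := Set.disjoint_left.1 (hint i j hne)
    have hy : u i + b i / 2 ∈ Ioo (u i) (u i + b i) := by
      constructor <;> linarith [hbpos i]
    have hy' : u i + b i / 2 ∈ Ioo (u j) (u j + b j) := by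
      rw [← hbij, ← huij]
      exact hy
    exact hd (rect_subset_interior (hab i).1 (hbpos i) hx hy)
      (rect_subset_interior (hab j).1 (hbpos j) hx' hy')
  let S : Sys (Fin n) (Fin n) (ℝ × ℝ) :=
    { col := id
      row := fun i => (b i, u i)
      a := a
      t := t
      b := b
      u := u
      inj := fun i i' h _ => h
      col_a := fun i i' h => by rw [show i = i' from h]
      col_t := fun i i' h => by rw [show i = i' from h]
      row_b := fun i i' h => congrArg Prod.fst h
      row_u := fun i i' h => congrArg Prod.snd h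
      a_pos := fun i => (hab i).1
      a_lt := fun i => lt_of_le_of_lt (hab i).2.1 (hab i).2.2
      b_pos := hbpos
      b_lt := fun i => (hab i).2.2
      t_nonneg := fun i => (hb i).1
      t_add := fun i => (hb i).2.1
      u_nonneg := fun i => (hb i).2.2.1
      u_add := fun i => (hb i).2.2.2
      alt := Or.inr (Or.inl ⟨fun i => (hab i).2.1, hrow, hcol⟩) }
  exact ⟨Fin n, Fin n, ℝ × ℝ, inferInstance, Fin.nontrivial_iff_two_le.2 hn, S, hatt⟩

theorem exists_sys_swap {F : Set Plane} (hF : IsLalleyGatzouras (swapPt '' F)) :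
    ∃ (I J K : Type) (_ : Fintype I) (_ : Nontrivial I) (S : Sys I J K),
      IsAttractor (fun x : I => diagMap (S.a x) (S.b x) (S.t x) (S.u x)) F := by
  obtain ⟨I, J, K, hI, hnt, S, hc, hne, heq⟩ := exists_sys_LG hF
  refine ⟨I, K, J, hI, hnt, S.swap, ?_, ?_, ?_⟩
  · have h : F = swapPt '' (swapPt '' F) := by
      rw [image_image]
      simp only [swapPt_swapPt, image_id']
    rw [h]
    exact hc.image continuous_swapPt
  · exact hne.of_image
  · have h : F = swapPt '' (swapPt '' F) := by
      rw [image_image]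
      simp only [swapPt_swapPt, image_id']
    conv_lhs => rw [h, heq]
    rw [image_iUnion]
    refine iUnion_congr fun x => ?_
    rw [image_image, image_image]
    refine image_congr fun p _ => ?_
    exact swapPt_diagMap _ _ _ _ p

theorem partial_sum_bounds {m : ℕ} (hm : 2 ≤ m) {c : Fin m → ℝ} (hc : ∀ i, 0 < c i)
    (hsum : ∑ i, c i = 1) :
    (∀ i, c i < 1) ∧ (∀ i, 0 ≤ ∑ k ∈ Finset.univ.filter (fun k => k < i), c k) ∧
    (∀ i, ∑ k ∈ Finset.univ.filter (fun k => k < i), c k + c i ≤ 1) ∧
    (∀ i j, i ≠ j → Apart (∑ k ∈ Finset.univ.filter (fun k => k < i), c k) (c i)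
      (∑ k ∈ Finset.univ.filter (fun k => k < j), c k) (c j)) := by
  have hins : ∀ i, ∑ k ∈ Finset.univ.filter (fun k => k < i), c k + c i =
      ∑ k ∈ insert i (Finset.univ.filter (fun k => k < i)), c k := by
    intro i
    rw [Finset.sum_insert (by simp), add_comm]
  have hlt : ∀ i j, i < j → ∑ k ∈ Finset.univ.filter (fun k => k < i), c k + c i ≤
      ∑ k ∈ Finset.univ.filter (fun k => k < j), c k := by
    intro i j hij
    rw [hins]
    apply Finset.sum_le_sum_of_subset_of_nonneg
    · intro k hk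
      rw [Finset.mem_insert, Finset.mem_filter] at hk
      rw [Finset.mem_filter]
      refine ⟨Finset.mem_univ _, ?_⟩
      rcases hk with rfl | ⟨-, hk⟩
      · exact hij
      · exact hk.trans hij
    · intro k _ _
      exact (hc k).le
  refine ⟨?_, ?_, ?_, ?_⟩
  · intro i
    have : Nontrivial (Fin m) := Fin.nontrivial_iff_two_le.2 hm
    obtain ⟨j, hj⟩ := exists_ne i
    have h1 : c i + c j ≤ ∑ k, c k := by
      rw [← Finset.sum_pair hj.symm]
      exact Finset.sum_le_sum_of_subset_of_nonneg (Finset.subset_univ _)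
        (fun k _ _ => (hc k).le)
    linarith [hc j]
  · intro i
    exact Finset.sum_nonneg fun k _ => (hc k).le
  · intro i
    rw [hins, ← hsum]
    exact Finset.sum_le_sum_of_subset_of_nonneg (Finset.subset_univ _) (fun k _ _ => (hc k).le)
  · intro i j hij
    rcases lt_or_gt_of_ne hij with h | h
    · exact Or.inl (hlt i j h)
    · exact Or.inr (hlt j i h)

theorem exists_sys_Baranski {F : Set Plane} (hF : IsBaranski F) :
    ∃ (I J K : Type) (_ : Fintype I) (_ : Nontrivial I) (S : Sys I J K),
      IsAttractor (fun x : I => diagMap (S.a x) (S.b x) (S.t x) (S.u x)) F := by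
  obtain ⟨m, n, c, d, A, hm, hn, hc, hd, hsc, hsd, hA, hatt⟩ := hF
  obtain ⟨c1, c2, c3, c4⟩ := partial_sum_bounds hm hc hsc
  obtain ⟨d1, d2, d3, d4⟩ := partial_sum_bounds hn hd hsd
  let S : Sys A (Fin m) (Fin n) :=
    { col := fun p => p.1.1
      row := fun p => p.1.2
      a := fun p => c p.1.1
      t := fun p => ∑ i ∈ Finset.univ.filter (fun i => i < p.1.1), c i
      b := fun p => d p.1.2
      u := fun p => ∑ j ∈ Finset.univ.filter (fun j => j < p.1.2), d j
      inj := fun i i' h h' => Subtype.ext (Prod.ext h h')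
      col_a := fun i i' h => congrArg c h
      col_t := fun i i' h => by rw [h]
      row_b := fun i i' h => congrArg d h
      row_u := fun i i' h => by rw [h]
      a_pos := fun i => hc _
      a_lt := fun i => c1 _
      b_pos := fun i => hd _
      b_lt := fun i => d1 _
      t_nonneg := fun i => c2 _
      t_add := fun i => c3 _
      u_nonneg := fun i => d2 _
      u_add := fun i => d3 _
      alt := Or.inl ⟨fun i i' h => c4 _ _ h, fun i i' h => d4 _ _ h⟩ }
  have hnt : Nontrivial A := by
    have h1 : 1 < Fintype.card A := by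
      rw [Fintype.card_coe]
      omega
    exact Fintype.one_lt_card_iff_nontrivial.1 h1
  exact ⟨A, Fin m, Fin n, inferInstance, hnt, S, hatt⟩

/-- Every self-affine carpet is the attractor of a labelled system. -/
theorem exists_sys {F : Set Plane} (hF : IsSelfAffineCarpet F) :
    ∃ (I J K : Type) (_ : Fintype I) (_ : Nontrivial I) (S : Sys I J K),
      IsAttractor (fun x : I => diagMap (S.a x) (S.b x) (S.t x) (S.u x)) F := by
  rcases hF with h | h | h
  · exact exists_sys_LG h
  · exact exists_sys_swap h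
  · exact exists_sys_Baranski h

end Pool.Agent.CarpetMeasures
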