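import Pool.Agent.CarpetMeasures.Poor

/-!
# Upper bound for the lower dimension
-/

set_option autoImplicit false

open MeasureTheory Set Metric

namespace Pool.Agent.CarpetMeasures

section CodingTwo

variable {I J K : Type} [Fintype I] [Nonempty I]

omit [Nonempty I] in
/-- The points of the attractor are exactly the coded points. -/
lemma mem_attractor_iff (S : Sys I J K) {F : Set Plane}
    (hF : IsAttractor (fun x : I => diagMap (S.a x) (S.b x) (S.t x) (S.u x)) F) (p : Plane) :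
    p ∈ F ↔ ∃ i : ℕ → I, p 0 = S.X i ∧ p 1 = S.Y i := by
  let φ : Plane → ℝ × ℝ := fun p => (p 0, p 1)
  have hφ : Continuous φ := by fun_prop
  have hinj : Function.Injective φ := by
    intro p q hpq
    simp only [φ, Prod.mk.injEq] at hpq
    ext k
    fin_cases k
    · exact hpq.1
    · exact hpq.2
  have h1 := range_coding S (φ '' F) (hF.1.image hφ) (hF.2.1.image φ) (by
    ext q
    constructor
    · rintro ⟨p, hp, rfl⟩
      rw [hF.2.2] at hp
      obtain ⟨x, z, hz, rfl⟩ := mem_iUnion.1 hp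
      refine mem_iUnion.2 ⟨x, φ z, ⟨z, hz, rfl⟩, ?_⟩
      simp [φ, diagMap]
    · intro hq
      obtain ⟨x, _, ⟨z, hz, rfl⟩, rfl⟩ := mem_iUnion.1 hq
      refine ⟨diagMap (S.a x) (S.b x) (S.t x) (S.u x) z, ?_, by simp [φ, diagMap]⟩
      rw [hF.2.2]
      exact mem_iUnion.2 ⟨x, z, hz, rfl⟩)
  constructor
  · intro hp
    have : φ p ∈ φ '' F := ⟨p, hp, rfl⟩
    rw [h1] at this
    obtain ⟨i, hi⟩ := this
    simp only [φ, Prod.mk.injEq] at hi
    exact ⟨i, hi.1.symm, hi.2.symm⟩
  · rintro ⟨i, h0, h1'⟩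
    have : φ p ∈ φ '' F := by
      rw [h1]
      exact ⟨i, by simp [φ, h0, h1']⟩
    obtain ⟨q, hq, hqp⟩ := this
    rw [← hinj hqp]
    exact hq

lemma abs_coord_le_dist (p q : Plane) (k : Fin 2) : |p k - q k| ≤ dist p q := by
  have := EuclideanSpace.dist_eq p q
  rw [this, ← Real.dist_eq]
  apply Real.le_sqrt_of_sq_le
  exact Finset.single_le_sum (f := fun k => dist (p k) (q k) ^ 2) (fun _ _ => sq_nonneg _)
    (Finset.mem_univ k)

lemma dist_le_two_mul {p q : Plane} {r : ℝ} (hr : 0 ≤ r) (h0 : |p 0 - q 0| ≤ r)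
    (h1 : |p 1 - q 1| ≤ r) : dist p q ≤ 2 * r := by
  rw [EuclideanSpace.dist_eq, Fin.sum_univ_two, Real.dist_eq, Real.dist_eq]
  apply Real.sqrt_le_iff.2 ⟨by positivity, ?_⟩
  have h2 := abs_nonneg (p 0 - q 0)
  have h3 := abs_nonneg (p 1 - q 1)
  nlinarith

variable [MeasurableSpace I] [MeasurableSingletonClass I]

omit [Nonempty I] in
lemma measurableSet_cls (S : Sys I J K) (k l : ℕ) (i : ℕ → I) : MeasurableSet (S.cls k l i) := by
  have h1 : ∀ (m : ℕ) (A : Set I), MeasurableSet {z : ℕ → I | z m ∈ A} := fun m A =>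
    (measurable_pi_apply m) (Set.toFinite A).measurableSet
  have h2 : S.cls k l i = (⋂ m, ⋂ (_ : m < k), {z : ℕ → I | z m ∈ {x | S.col x = S.col (i m)}}) ∩
      ⋂ m, ⋂ (_ : m < l), {z : ℕ → I | z m ∈ {x | S.row x = S.row (i m)}} := by
    ext z
    simp [Sys.cls]
  rw [h2]
  exact (MeasurableSet.iInter fun m => MeasurableSet.iInter fun _ => h1 m _).inter
    (MeasurableSet.iInter fun m => MeasurableSet.iInter fun _ => h1 m _)

omit [Nonempty I] in
/-- A maximal family of inequivalent sequences with a property `P`, when classes have mass at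
least `κ`. -/
lemma exists_reps (S : Sys I J K) {P : (ℕ → I) → Prop} {r κ : ℝ} (hr : 0 < r) (hκ : 0 < κ)
    (ν : Measure (ℕ → I)) (hν : ν univ ≤ 1)
    (h : ∀ z, P z → ENNReal.ofReal κ ≤ ν (S.Q r z)) :
    ∃ T : Finset (ℕ → I), (T.card : ℝ) ≤ 1 / κ ∧ ∀ z, P z → ∃ y ∈ T, z ∈ S.Q r y := by
  classical
  let G : Finset (ℕ → I) → Prop := fun T => (∀ z ∈ T, P z) ∧
    (∀ z ∈ T, ∀ z' ∈ T, z ≠ z' → z ∉ S.Q r z')
  have hcard : ∀ T, G T → (T.card : ℝ) ≤ 1 / κ := by
    intro T hT
    have h1 : ∑ z ∈ T, ν (S.Q r z) ≤ 1 := by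
      rw [← measure_biUnion_finset]
      · exact (measure_mono (subset_univ _)).trans hν
      · intro z hz z' hz' hne
        rw [Function.onFun, Set.disjoint_left]
        intro w hw hw'
        have h2 := (Q_eq S hr hw).1
        have h3 := (Q_eq S hr hw').1
        apply hT.2 z hz z' hz' hne
        rw [← h3, h2]
        exact mem_Q_self S r z
      · intro z _
        exact measurableSet_cls S _ _ _
    have h2 : ∑ _z ∈ T, ENNReal.ofReal κ ≤ 1 :=
      (Finset.sum_le_sum fun z hz => h z (hT.1 z hz)).trans h1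
    rw [Finset.sum_const, nsmul_eq_mul, ← ENNReal.ofReal_natCast,
      ← ENNReal.ofReal_mul (by positivity), ← ENNReal.ofReal_one,
      ENNReal.ofReal_le_ofReal_iff (by norm_num)] at h2
    rw [le_div_iff₀ hκ]
    exact h2
  let R : ℕ → Prop := fun n => ∃ T, G T ∧ T.card = n
  have hR : R 0 := ⟨∅, ⟨by simp, by simp⟩, rfl⟩
  have hb : ∀ n, R n → n ≤ ⌊1 / κ⌋₊ := by
    rintro n ⟨T, hT, rfl⟩
    exact Nat.le_floor (hcard T hT)
  obtain ⟨T, hT, hTc⟩ := Nat.findGreatest_spec (P := R) (Nat.zero_le ⌊1 / κ⌋₊) hR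
  refine ⟨T, hcard T hT, ?_⟩
  intro z hz
  by_contra hcon
  push Not at hcon
  have hzT : z ∉ T := fun hzT => hcon z hzT (mem_Q_self S r z)
  have hG : G (insert z T) := by
    refine ⟨?_, ?_⟩
    · intro y hy
      rw [Finset.mem_insert] at hy
      rcases hy with rfl | hy
      · exact hz
      · exact hT.1 y hy
    · intro y hy y' hy' hne
      rw [Finset.mem_insert] at hy hy'
      rcases hy with rfl | hy <;> rcases hy' with rfl | hy'
      · exact absurd rfl hne
      · exact hcon y' hy'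
      · intro hc
        exact hcon y hy (Q_symm S hr hc)
      · exact hT.2 y hy y' hy' hne
  have h1 : R (T.card + 1) := ⟨insert z T, hG, Finset.card_insert_of_notMem hzT⟩
  have h2 := Nat.le_findGreatest (hb _ h1) h1
  rw [← hTc] at h2
  omega

/-- D2 -/
theorem lowerDim_le (S : Sys I J K) {F : Set Plane}
    (hF : IsAttractor (fun x : I => diagMap (S.a x) (S.b x) (S.t x) (S.u x)) F)
    (hdiam : 0 < Metric.diam F) {D' : ℝ} (hD' : 0 ≤ D') (h : SymPoor S D') :
    lowerDim F ≤ D' := by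
  classical
  apply Real.sSup_le _ hD'
  rintro s ⟨hs0, C, hC, hs⟩
  by_contra hlt
  push Not at hlt
  obtain ⟨C1, c0, hC1, hc0, hpoor⟩ := h
  set c1 : ℝ := min (c0 / 2) (Metric.diam F) with hc1
  have hc10 : 0 < c1 := lt_min (by positivity) hdiam
  -- the main inequality
  have key : ∀ ε : ℝ, 0 < ε → ε < 1 → 2 * ε < c1 → C * (c1 / 2) ^ s ≤ C1 * ε ^ (s - D') := by
    intro ε hε0 hε1 hεc
    obtain ⟨r, i, hr0, hr1, ν, hν, hνQ⟩ := hpoor ε hε0 hε1
    have hεr : 0 < ε * r := by positivity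
    let x : Plane := !₂[S.X i, S.Y i]
    have hx0 : x 0 = S.X i := by simp [x]
    have hx1 : x 1 = S.Y i := by simp [x]
    have hx : x ∈ F := (mem_attractor_iff S hF x).2 ⟨i, hx0, hx1⟩
    have h1 := hs x hx (2 * (ε * r)) (c1 * r) (by positivity) (by nlinarith)
      (by
        have : c1 ≤ Metric.diam F := min_le_right _ _
        nlinarith)
    -- the cover
    have hεD : 0 < ε ^ D' / C1 := div_pos (Real.rpow_pos_of_pos hε0 _) hC1
    obtain ⟨T, hTcard, hT⟩ := exists_reps S (P := fun z => |S.X z - S.X i| < c0 * r ∧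
      |S.Y z - S.Y i| < c0 * r) hεr hεD ν prob_le_one
      (fun z hz => hνQ z hz.1 hz.2)
    have hcov : coverNum (2 * (ε * r)) (closedBall x (c1 * r) ∩ F) ≤ T.card := by
      apply Nat.sInf_le
      let e := T.equivFin
      refine ⟨fun n => {p : Plane | ∃ z ∈ S.Q (ε * r) (e.symm n : ℕ → I),
        p 0 = S.X z ∧ p 1 = S.Y z}, ?_, ?_⟩
      · intro n
        apply Metric.ediam_le
        rintro p ⟨z, hz, hp0, hp1⟩ q ⟨w, hw, hq0, hq1⟩
        have hzw : z ∈ S.Q (ε * r) w := by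
          rw [(Q_eq S hεr hw).1]
          exact hz
        have h2 := abs_X_sub_le S hεr hzw
        rw [edist_dist]
        apply ENNReal.ofReal_le_ofReal
        apply dist_le_two_mul hεr.le
        · rw [hp0, hq0]; exact h2.1
        · rw [hp1, hq1]; exact h2.2
      · rintro p ⟨hp, hpF⟩
        obtain ⟨z, hz0, hz1⟩ := (mem_attractor_iff S hF p).1 hpF
        rw [mem_closedBall] at hp
        have hcr : c1 * r < c0 * r := by
          have : c1 ≤ c0 / 2 := min_le_left _ _
          nlinarith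
        have h2 := (abs_coord_le_dist p x 0).trans hp
        have h3 := (abs_coord_le_dist p x 1).trans hp
        rw [hx0, hz0] at h2
        rw [hx1, hz1] at h3
        obtain ⟨y, hy, hzy⟩ := hT z ⟨h2.trans_lt hcr, h3.trans_lt hcr⟩
        rw [mem_iUnion]
        refine ⟨e ⟨y, hy⟩, z, ?_, hz0, hz1⟩
        simpa using hzy
    have h2 : (coverNum (2 * (ε * r)) (closedBall x (c1 * r) ∩ F) : ℝ) ≤ C1 / ε ^ D' := by
      refine le_trans (by exact_mod_cast hcov) (hTcard.trans (le_of_eq ?_))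
      rw [one_div_div]
    have h3 : c1 * r / (2 * (ε * r)) = (c1 / 2) / ε := by field_simp
    rw [h3, Real.div_rpow (by positivity) hε0.le] at h1
    have h4 := h1.trans h2
    have hεs : 0 < ε ^ s := Real.rpow_pos_of_pos hε0 _
    have hεD' : 0 < ε ^ D' := Real.rpow_pos_of_pos hε0 _
    rw [Real.rpow_sub hε0]
    rw [← mul_div_assoc, div_le_div_iff₀ hεs hεD'] at h4
    rw [← mul_div_assoc, le_div_iff₀ hεD']
    exact h4
  -- let `ε → 0`
  have hA : 0 < C * (c1 / 2) ^ s := mul_pos hC (Real.rpow_pos_of_pos (by positivity) _)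
  have hlim : Filter.Tendsto (fun ε : ℝ => C1 * ε ^ (s - D')) (nhdsWithin 0 (Ioi 0)) (nhds 0) := by
    have h1 : Filter.Tendsto (fun ε : ℝ => ε ^ (s - D')) (nhdsWithin 0 (Ioi 0)) (nhds 0) := by
      have h2 : Filter.Tendsto (fun ε : ℝ => ε ^ (s - D')) (nhds 0) (nhds ((0 : ℝ) ^ (s - D'))) :=
        (Real.continuousAt_rpow_const 0 (s - D') (Or.inr (by linarith))).tendsto
      rw [Real.zero_rpow (by linarith)] at h2
      exact h2.mono_left nhdsWithin_le_nhds
    simpa using h1.const_mul C1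
  have hev := (hlim.eventually (gt_mem_nhds hA)).and
    (Ioo_mem_nhdsGT (show (0 : ℝ) < min 1 (c1 / 2) by positivity))
  obtain ⟨ε, hε1, hε2, hε3⟩ := hev.exists
  have h1 := key ε hε2 (hε3.trans_le (min_le_left _ _)) (by
    have := hε3.trans_le (min_le_right _ _)
    linarith)
  exact absurd h1 (not_le.2 hε1)

end CodingTwo

end Pool.Agent.CarpetMeasures
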