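import Pool.Agent.CarpetMeasures.DimLower

/-!
# Lower bound for the Assouad dimension
-/

set_option autoImplicit false

open MeasureTheory Set Metric

namespace Pool.Agent.CarpetMeasures

section CodingThree

variable {I J K : Type} [Fintype I]

/-- A maximal family of inequivalent sequences with a property `P`, when the size of such
families is bounded. -/
lemma exists_reps_of_bound (S : Sys I J K) {P : (ℕ → I) → Prop} {r B : ℝ} (hr : 0 < r)
    (h : ∀ T : Finset (ℕ → I), (∀ z ∈ T, P z) →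
      (∀ z ∈ T, ∀ z' ∈ T, z ≠ z' → z ∉ S.Q r z') → (T.card : ℝ) ≤ B) :
    ∃ T : Finset (ℕ → I), (∀ z ∈ T, P z) ∧ (T.card : ℝ) ≤ B ∧
      ∀ z, P z → ∃ y ∈ T, z ∈ S.Q r y := by
  classical
  let G : Finset (ℕ → I) → Prop := fun T => (∀ z ∈ T, P z) ∧
    (∀ z ∈ T, ∀ z' ∈ T, z ≠ z' → z ∉ S.Q r z')
  let R : ℕ → Prop := fun n => ∃ T, G T ∧ T.card = n
  have hR : R 0 := ⟨∅, ⟨by simp, by simp⟩, rfl⟩
  have hb : ∀ n, R n → n ≤ ⌊B⌋₊ := by
    rintro n ⟨T, hT, rfl⟩
    exact Nat.le_floor (h T hT.1 hT.2)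
  obtain ⟨T, hT, hTc⟩ := Nat.findGreatest_spec (P := R) (Nat.zero_le ⌊B⌋₊) hR
  refine ⟨T, hT.1, h T hT.1 hT.2, ?_⟩
  intro z hz
  by_contra hcon
  push Not at hcon
  have hzT : z ∉ T := fun hzT => hcon z hzT (mem_Q_self S r z)
  have hG : G (insert z T) := by
    refine ⟨?_, ?_⟩
    · intro y hy
      rw [Finset.mem_insert] at hy
      rcases hy with rfl | hy
      · exact hz
      · exact hT.1 y hy
    · intro y hy y' hy' hne
      rw [Finset.mem_insert] at hy hy'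
      rcases hy with rfl | hy <;> rcases hy' with rfl | hy'
      · exact absurd rfl hne
      · exact hcon y' hy'
      · intro hc
        exact hcon y hy (Q_symm S hr hc)
      · exact hT.2 y hy y' hy' hne
  have h1 : R (T.card + 1) := ⟨insert z T, hG, Finset.card_insert_of_notMem hzT⟩
  have h2 := Nat.le_findGreatest (hb _ h1) h1
  rw [← hTc] at h2
  omega

/-- Representatives of the classes of scale `r` which meet a box of size `ρ`. -/
lemma exists_reps_box [Nonempty I] (S : Sys I J K) {κ : ℝ} (hκ0 : 0 < κ)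
    (hκ : ∀ x, κ ≤ S.a x ∧ κ ≤ S.b x) {P : (ℕ → I) → Prop} {r ρ p q : ℝ} (hr : 0 < r)
    (hr1 : r ≤ 1) (hρ : 0 ≤ ρ) (hP : ∀ z, P z → |S.X z - p| ≤ ρ ∧ |S.Y z - q| ≤ ρ) :
    ∃ T : Finset (ℕ → I), (∀ z ∈ T, P z) ∧ (T.card : ℝ) ≤ (2 * (ρ + r)) ^ 2 / (κ * r) ^ 2 ∧
      ∀ z, P z → ∃ y ∈ T, z ∈ S.Q r y := by
  apply exists_reps_of_bound S hr
  intro T hT1 hT2
  rw [le_div_iff₀ (by positivity)]
  exact card_le S κ hκ0 hκ hr hr1 hρ T hT2 (fun z hz => hP z (hT1 z hz))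

/-- A cover by classes. -/
lemma coverNum_le (S : Sys I J K) {F : Set Plane}
    (hF : IsAttractor (fun x : I => diagMap (S.a x) (S.b x) (S.t x) (S.u x)) F)
    {r δ : ℝ} (hr : 0 < r) (hδ : 2 * r ≤ δ) (E : Set Plane) (hE : E ⊆ F) (T : Finset (ℕ → I))
    (hT : ∀ p ∈ E, ∀ z : ℕ → I, p 0 = S.X z → p 1 = S.Y z → ∃ y ∈ T, z ∈ S.Q r y) :
    ∃ U : Fin T.card → Set Plane, (∀ i, Metric.ediam (U i) ≤ ENNReal.ofReal δ) ∧ E ⊆ ⋃ i, U i := by
  let e := T.equivFin
  refine ⟨fun n => {p : Plane | ∃ z ∈ S.Q r (e.symm n : ℕ → I),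
    p 0 = S.X z ∧ p 1 = S.Y z}, ?_, ?_⟩
  · intro n
    apply Metric.ediam_le
    rintro p ⟨z, hz, hp0, hp1⟩ q ⟨w, hw, hq0, hq1⟩
    have hzw : z ∈ S.Q r w := by
      rw [(Q_eq S hr hw).1]
      exact hz
    have h2 := abs_X_sub_le S hr hzw
    rw [edist_dist]
    apply ENNReal.ofReal_le_ofReal
    refine le_trans ?_ hδ
    apply dist_le_two_mul hr.le
    · rw [hp0, hq0]; exact h2.1
    · rw [hp1, hq1]; exact h2.2
  · intro p hp
    obtain ⟨z, hz0, hz1⟩ := (mem_attractor_iff S hF p).1 (hE hp)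
    obtain ⟨y, hy, hzy⟩ := hT p hp z hz0 hz1
    rw [mem_iUnion]
    refine ⟨e ⟨y, hy⟩, z, ?_, hz0, hz1⟩
    simpa using hzy

/-- Planar bound for covering numbers; it also provides the covers. -/
lemma exists_cover [Nonempty I] (S : Sys I J K) {F : Set Plane}
    (hF : IsAttractor (fun x : I => diagMap (S.a x) (S.b x) (S.t x) (S.u x)) F)
    {κ : ℝ} (hκ0 : 0 < κ) (hκ : ∀ x, κ ≤ S.a x ∧ κ ≤ S.b x) (x : Plane)
    {r R : ℝ} (hr : 0 < r) (hr2 : r ≤ 2) (hrR : r ≤ R) :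
    ∃ n : ℕ, (n : ℝ) ≤ 36 / κ ^ 2 * (R / r) ^ 2 ∧
      ∃ U : Fin n → Set Plane, (∀ i, Metric.ediam (U i) ≤ ENNReal.ofReal r) ∧
        closedBall x R ∩ F ⊆ ⋃ i, U i := by
  have hR : 0 < R := hr.trans_le hrR
  obtain ⟨T, -, hTc, hT⟩ := exists_reps_box S hκ0 hκ
    (P := fun z => |S.X z - x 0| ≤ R ∧ |S.Y z - x 1| ≤ R) (r := r / 2) (ρ := R) (p := x 0)
    (q := x 1) (by positivity) (by linarith) hR.le (fun z hz => hz)
  refine ⟨T.card, hTc.trans ?_, ?_⟩
  · have h1 : 2 * (R + r / 2) ≤ 3 * R := by linarith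
    have h2 : (2 * (R + r / 2)) ^ 2 ≤ (3 * R) ^ 2 := pow_le_pow_left₀ (by positivity) h1 2
    calc (2 * (R + r / 2)) ^ 2 / (κ * (r / 2)) ^ 2 ≤ (3 * R) ^ 2 / (κ * (r / 2)) ^ 2 :=
          div_le_div_of_nonneg_right h2 (by positivity)
      _ = 36 / κ ^ 2 * (R / r) ^ 2 := by
          field_simp
          ring
  · apply coverNum_le S hF (r := r / 2) (by positivity) (by linarith) _ inter_subset_right
    rintro p ⟨hp, -⟩ z hz0 hz1
    rw [mem_closedBall] at hp
    apply hT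
    rw [← hz0, ← hz1]
    exact ⟨(abs_coord_le_dist p x 0).trans hp, (abs_coord_le_dist p x 1).trans hp⟩

lemma ediam_attractor_le [Nonempty I] (S : Sys I J K) {F : Set Plane}
    (hF : IsAttractor (fun x : I => diagMap (S.a x) (S.b x) (S.t x) (S.u x)) F) :
    Metric.ediam F ≤ ENNReal.ofReal 2 := by
  apply Metric.ediam_le
  intro p hp q hq
  obtain ⟨i, hi0, hi1⟩ := (mem_attractor_iff S hF p).1 hp
  obtain ⟨j, hj0, hj1⟩ := (mem_attractor_iff S hF q).1 hq
  obtain ⟨h1, h2, h3, h4⟩ := X_mem S i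
  obtain ⟨h5, h6, h7, h8⟩ := X_mem S j
  have := dist_le_two_mul (p := p) (q := q) (r := 1) (by norm_num)
    (by rw [hi0, hj0, abs_le]; constructor <;> linarith)
    (by rw [hi1, hj1, abs_le]; constructor <;> linarith)
  rw [edist_dist]
  apply ENNReal.ofReal_le_ofReal
  linarith

/-- The set in the definition of the Assouad dimension is nonempty. -/
lemma assouad_set_nonempty [Nonempty I] (S : Sys I J K) {F : Set Plane}
    (hF : IsAttractor (fun x : I => diagMap (S.a x) (S.b x) (S.t x) (S.u x)) F) :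
    (2 : ℝ) ∈ {s : ℝ | 0 ≤ s ∧ ∃ C : ℝ, 0 < C ∧ ∀ x ∈ F, ∀ r R : ℝ, 0 < r → r < R →
      (coverNum r (closedBall x R ∩ F) : ℝ) ≤ C * (R / r) ^ s} := by
  obtain ⟨κ, hκ0, hκ1, hκ⟩ := exists_lower S
  refine ⟨by norm_num, 36 / κ ^ 2, by positivity, ?_⟩
  intro x _ r R hr hrR
  rw [Real.rpow_two]
  rcases le_or_gt r 2 with hr2 | hr2
  · obtain ⟨n, hn, hU⟩ := exists_cover S hF hκ0 hκ x hr hr2 hrR.le
    refine le_trans ?_ hn
    exact_mod_cast Nat.sInf_le hU
  · have h1 : coverNum r (closedBall x R ∩ F) ≤ 1 := by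
      apply Nat.sInf_le
      refine ⟨fun _ => F, fun _ => (ediam_attractor_le S hF).trans
        (ENNReal.ofReal_le_ofReal hr2.le), ?_⟩
      intro p hp
      exact mem_iUnion.2 ⟨0, hp.2⟩
    have h2 : (coverNum r (closedBall x R ∩ F) : ℝ) ≤ 1 := by exact_mod_cast h1
    refine h2.trans ?_
    have h3 : 1 ≤ R / r := by rw [le_div_iff₀ hr]; linarith
    have h4 : 1 ≤ (R / r) ^ 2 := one_le_pow₀ h3
    have h5 : 1 ≤ 36 / κ ^ 2 := by
      rw [le_div_iff₀ (by positivity)]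
      nlinarith
    nlinarith

variable [Nonempty I] [MeasurableSpace I] [MeasurableSingletonClass I]

/-- D1 -/
theorem le_assouadDim (S : Sys I J K) {F : Set Plane}
    (hF : IsAttractor (fun x : I => diagMap (S.a x) (S.b x) (S.t x) (S.u x)) F)
    {D : ℝ} (h : SymRich S D) : D ≤ assouadDim F := by
  classical
  obtain ⟨κ, hκ0, hκ1, hκ⟩ := exists_lower S
  apply le_csInf ⟨2, assouad_set_nonempty S hF⟩
  rintro s ⟨hs0, C, hC, hs⟩
  by_contra hlt
  push Not at hlt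
  obtain ⟨C1, hC1, hrich⟩ := h
  have key : ∀ ε : ℝ, 0 < ε → ε < 1 → 1 ≤ C * 2 ^ s * (16 / κ ^ 2 * C1) * ε ^ (D - s) := by
    intro ε hε0 hε1
    obtain ⟨r, i, hr0, hr1, ν, hν, hνQ, hνsub⟩ := hrich ε hε0 hε1
    have hεr : 0 < ε * r := by positivity
    have hεr1 : ε * r ≤ 1 := by nlinarith
    let x : Plane := !₂[S.X i, S.Y i]
    have hx0 : x 0 = S.X i := by simp [x]
    have hx1 : x 1 = S.Y i := by simp [x]
    have hx : x ∈ F := (mem_attractor_iff S hF x).2 ⟨i, hx0, hx1⟩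
    have h1 := hs x hx (ε * r) (2 * r) hεr (by nlinarith)
    -- an optimal cover
    obtain ⟨n0, -, hn0⟩ := exists_cover S hF hκ0 hκ x (r := ε * r) (R := 2 * r) hεr (by linarith)
      (by nlinarith)
    have hmem := Nat.sInf_mem (s := {n : ℕ | ∃ U : Fin n → Set Plane,
      (∀ i, Metric.ediam (U i) ≤ ENNReal.ofReal (ε * r)) ∧
        closedBall x (2 * r) ∩ F ⊆ ⋃ i, U i}) ⟨n0, hn0⟩
    change ∃ U : Fin (coverNum (ε * r) (closedBall x (2 * r) ∩ F)) → Set Plane, _ at hmem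
    set n := coverNum (ε * r) (closedBall x (2 * r) ∩ F) with hn
    obtain ⟨U, hUd, hUc⟩ := hmem
    -- each piece has small measure
    have hpiece : ∀ a : Fin n, ν {z | z ∈ S.Q r i ∧ !₂[S.X z, S.Y z] ∈ U a} ≤
        ENNReal.ofReal (16 / κ ^ 2 * (C1 * ε ^ D)) := by
      intro a
      rcases Set.eq_empty_or_nonempty {z | z ∈ S.Q r i ∧ !₂[S.X z, S.Y z] ∈ U a} with he | ⟨z0, hz0⟩
      · rw [he, measure_empty]
        exact zero_le
      · obtain ⟨T, hTP, hTc, hT⟩ := exists_reps_box S hκ0 hκ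
          (P := fun z => z ∈ S.Q r i ∧ !₂[S.X z, S.Y z] ∈ U a) (r := ε * r) (ρ := ε * r)
          (p := S.X z0) (q := S.Y z0) hεr hεr1 hεr.le (by
            intro z hz
            have h2 : edist (!₂[S.X z, S.Y z] : Plane) !₂[S.X z0, S.Y z0] ≤
                ENNReal.ofReal (ε * r) :=
              (Metric.edist_le_ediam_of_mem hz.2 hz0.2).trans (hUd a)
            rw [edist_dist, ENNReal.ofReal_le_ofReal_iff hεr.le] at h2
            have h3 := (abs_coord_le_dist _ _ 0).trans h2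
            have h4 := (abs_coord_le_dist _ _ 1).trans h2
            simpa using And.intro h3 h4)
        have h5 : {z | z ∈ S.Q r i ∧ !₂[S.X z, S.Y z] ∈ U a} ⊆ ⋃ y ∈ T, S.Q (ε * r) y := by
          intro z hz
          obtain ⟨y, hy, hzy⟩ := hT z hz
          exact mem_iUnion₂.2 ⟨y, hy, hzy⟩
        refine (measure_mono h5).trans ((measure_biUnion_finset_le _ _).trans ?_)
        have h6 : ∑ y ∈ T, ν (S.Q (ε * r) y) ≤ ∑ _y ∈ T, ENNReal.ofReal (C1 * ε ^ D) :=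
          Finset.sum_le_sum fun y hy => hνsub y (hTP y hy).1
        refine h6.trans ?_
        rw [Finset.sum_const, nsmul_eq_mul, ← ENNReal.ofReal_natCast,
          ← ENNReal.ofReal_mul (by positivity)]
        apply ENNReal.ofReal_le_ofReal
        have hεD : 0 < ε ^ D := Real.rpow_pos_of_pos hε0 _
        apply mul_le_mul_of_nonneg_right _ (by positivity)
        refine hTc.trans (le_of_eq ?_)
        field_simp
        norm_num
    -- total mass
    have htot : (1 : ENNReal) ≤ ∑ _a : Fin n, ENNReal.ofReal (16 / κ ^ 2 * (C1 * ε ^ D)) := by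
      refine le_trans ?_ (Finset.sum_le_sum fun a _ => hpiece a)
      rw [← hνQ]
      refine le_trans (measure_mono ?_) (measure_iUnion_fintype_le ν _)
      intro z hz
      have h2 := abs_X_sub_le S hr0 hz
      have h3 : (!₂[S.X z, S.Y z] : Plane) ∈ closedBall x (2 * r) ∩ F := by
        refine ⟨?_, (mem_attractor_iff S hF _).2 ⟨z, by simp, by simp⟩⟩
        rw [mem_closedBall]
        apply dist_le_two_mul hr0.le
        · rw [hx0]; simpa using h2.1
        · rw [hx1]; simpa using h2.2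
      obtain ⟨a, ha⟩ := mem_iUnion.1 (hUc h3)
      exact mem_iUnion.2 ⟨a, hz, ha⟩
    have hεD : 0 < ε ^ D := Real.rpow_pos_of_pos hε0 _
    rw [Finset.sum_const, Finset.card_univ, Fintype.card_fin, nsmul_eq_mul,
      ← ENNReal.ofReal_natCast, ← ENNReal.ofReal_mul (by positivity), ← ENNReal.ofReal_one,
      ENNReal.ofReal_le_ofReal_iff (by positivity)] at htot
    have h4 : (2 * r / (ε * r)) ^ s = 2 ^ s / ε ^ s := by
      rw [show 2 * r / (ε * r) = 2 / ε by field_simp, Real.div_rpow (by norm_num) hε0.le]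
    rw [h4] at h1
    have hA : 0 ≤ 16 / κ ^ 2 * (C1 * ε ^ D) := by positivity
    calc (1 : ℝ) ≤ (n : ℝ) * (16 / κ ^ 2 * (C1 * ε ^ D)) := htot
      _ ≤ (C * (2 ^ s / ε ^ s)) * (16 / κ ^ 2 * (C1 * ε ^ D)) :=
          mul_le_mul_of_nonneg_right h1 hA
      _ = C * 2 ^ s * (16 / κ ^ 2 * C1) * ε ^ (D - s) := by
          rw [Real.rpow_sub hε0]
          ring
  -- let `ε → 0`
  have hlim : Filter.Tendsto (fun ε : ℝ => C * 2 ^ s * (16 / κ ^ 2 * C1) * ε ^ (D - s))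
      (nhdsWithin 0 (Ioi 0)) (nhds 0) := by
    have h1 : Filter.Tendsto (fun ε : ℝ => ε ^ (D - s)) (nhdsWithin 0 (Ioi 0)) (nhds 0) := by
      have h2 : Filter.Tendsto (fun ε : ℝ => ε ^ (D - s)) (nhds 0) (nhds ((0 : ℝ) ^ (D - s))) :=
        (Real.continuousAt_rpow_const 0 (D - s) (Or.inr (by linarith))).tendsto
      rw [Real.zero_rpow (by linarith)] at h2
      exact h2.mono_left nhdsWithin_le_nhds
    simpa using h1.const_mul (C * 2 ^ s * (16 / κ ^ 2 * C1))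
  have hev := (hlim.eventually (gt_mem_nhds one_pos)).and
    (Ioo_mem_nhdsGT (show (0 : ℝ) < 1 by norm_num))
  obtain ⟨ε, hε1, hε2, hε3⟩ := hev.exists
  exact absurd (key ε hε2 hε3) (not_le.2 hε1)

end CodingThree

end Pool.Agent.CarpetMeasures
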