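import Pool.Agent.CarpetMeasures.DimUpper

/-!
# Local measures on the attractor with lower bounds
-/

set_option autoImplicit false

open MeasureTheory Set Metric

namespace Pool.Agent.CarpetMeasures

section CodF

variable {I J K : Type} [Fintype I] [Nonempty I] [MeasurableSpace I] [MeasurableSingletonClass I]

omit [Nonempty I] [MeasurableSpace I] [MeasurableSingletonClass I] in
lemma cod_mem (S : Sys I J K) {F : Set Plane}
    (hF : IsAttractor (fun x : I => diagMap (S.a x) (S.b x) (S.t x) (S.u x)) F) (i : ℕ → I) :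
    (!₂[S.X i, S.Y i] : Plane) ∈ F :=
  (mem_attractor_iff S hF _).2 ⟨i, by simp, by simp⟩

/-- The coding map with values in the attractor. -/
noncomputable def codF (S : Sys I J K) {F : Set Plane}
    (hF : IsAttractor (fun x : I => diagMap (S.a x) (S.b x) (S.t x) (S.u x)) F) (i : ℕ → I) : F :=
  ⟨!₂[S.X i, S.Y i], cod_mem S hF i⟩

omit [Nonempty I] in
lemma measurable_codF (S : Sys I J K) {F : Set Plane}
    (hF : IsAttractor (fun x : I => diagMap (S.a x) (S.b x) (S.t x) (S.u x)) F) :
    Measurable (codF S hF) := by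
  apply Measurable.subtype_mk
  have h1 : Continuous (fun q : ℝ × ℝ => (!₂[q.1, q.2] : Plane)) := by fun_prop
  exact h1.measurable.comp ((measurable_X S).prodMk (measurable_Y S))

omit [Nonempty I] [MeasurableSpace I] [MeasurableSingletonClass I] in
lemma exists_codF (S : Sys I J K) {F : Set Plane}
    (hF : IsAttractor (fun x : I => diagMap (S.a x) (S.b x) (S.t x) (S.u x)) F) (p : F) :
    ∃ z, codF S hF z = p := by
  obtain ⟨z, h0, h1⟩ := (mem_attractor_iff S hF p).1 p.2
  refine ⟨z, Subtype.ext ?_⟩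
  ext k
  fin_cases k
  · simp [codF, h0]
  · simp [codF, h1]

omit [Nonempty I] [MeasurableSpace I] [MeasurableSingletonClass I] in
lemma abs_le_of_dist_codF (S : Sys I J K) {F : Set Plane}
    (hF : IsAttractor (fun x : I => diagMap (S.a x) (S.b x) (S.t x) (S.u x)) F) (p : F)
    (z : ℕ → I) {R : ℝ} (h : dist (codF S hF z) p ≤ R) :
    |S.X z - (p : Plane) 0| ≤ R ∧ |S.Y z - (p : Plane) 1| ≤ R := by
  have h0 := (abs_coord_le_dist (codF S hF z : Plane) p 0).trans h
  have h1 := (abs_coord_le_dist (codF S hF z : Plane) p 1).trans h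
  simpa [codF] using And.intro h0 h1

omit [Nonempty I] [MeasurableSpace I] [MeasurableSingletonClass I] in
lemma dist_codF_le (S : Sys I J K) {F : Set Plane}
    (hF : IsAttractor (fun x : I => diagMap (S.a x) (S.b x) (S.t x) (S.u x)) F) {r : ℝ}
    (hr : 0 < r) {w z : ℕ → I} (h : w ∈ S.Q r z) :
    dist (codF S hF w) (codF S hF z) ≤ 2 * r := by
  have h1 := abs_X_sub_le S hr h
  change dist (codF S hF w : Plane) (codF S hF z : Plane) ≤ 2 * r
  apply dist_le_two_mul hr.le
  · simpa [codF] using h1.1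
  · simpa [codF] using h1.2

/-- D3 -/
theorem lowerLocal (S : Sys I J K) {F : Set Plane}
    (hF : IsAttractor (fun x : I => diagMap (S.a x) (S.b x) (S.t x) (S.u x)) F)
    {D : ℝ} (_hD : 0 ≤ D) (h : SymLower S D) : ∃ c : ℝ, 0 < c ∧ Nets.LowerLocal F D c := by
  classical
  obtain ⟨κ, hκ0, hκ1, hκ⟩ := exists_lower S
  obtain ⟨c0, hc0, hlow⟩ := h
  set M : ℝ := 100 / κ ^ 2 with hM
  have hM0 : 0 < M := by positivity
  refine ⟨c0 / M, by positivity, ?_⟩
  intro x R hR hR4
  obtain ⟨T, -, hTc, hT⟩ := exists_reps_box S hκ0 hκ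
    (P := fun z => |S.X z - (x : Plane) 0| ≤ R ∧ |S.Y z - (x : Plane) 1| ≤ R) (r := R / 4) (ρ := R)
    (p := (x : Plane) 0) (q := (x : Plane) 1) (by positivity) (by linarith) hR.le (fun z hz => hz)
  have hTM : (T.card : ℝ) ≤ M := by
    refine hTc.trans (le_of_eq ?_)
    rw [hM]
    field_simp
    ring
  have hex : ∀ y : ℕ → I, ∃ ν : Measure (ℕ → I), ν univ ≤ 1 ∧
      ∀ (r' : ℝ) (i' : ℕ → I), 0 < r' → r' ≤ R / 4 → i' ∈ S.Q (R / 4) y →
        ENNReal.ofReal (c0 * (r' / (R / 4)) ^ D) ≤ ν (S.Q r' i') := fun y =>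
    hlow (R / 4) y (by positivity) (by linarith)
  choose ν hν1 hν using hex
  refine ⟨∑ y ∈ T, ENNReal.ofReal (1 / M) • (ν y).map (codF S hF), ?_, ?_⟩
  · rw [Measure.coe_finsetSum, Finset.sum_apply]
    have h1 : ∀ y ∈ T, (ENNReal.ofReal (1 / M) • (ν y).map (codF S hF)) univ ≤
        ENNReal.ofReal (1 / M) := by
      intro y _
      rw [Measure.smul_apply, smul_eq_mul,
        Measure.map_apply (measurable_codF S hF) MeasurableSet.univ, preimage_univ]
      calc ENNReal.ofReal (1 / M) * ν y univ ≤ ENNReal.ofReal (1 / M) * 1 :=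
            mul_le_mul_right (hν1 y) _
        _ = _ := mul_one _
    refine (Finset.sum_le_sum h1).trans ?_
    rw [Finset.sum_const, nsmul_eq_mul, ← ENNReal.ofReal_natCast,
      ← ENNReal.ofReal_mul (by positivity), ← ENNReal.ofReal_one]
    apply ENNReal.ofReal_le_ofReal
    rw [mul_one_div, div_le_one hM0]
    exact hTM
  · intro y' hy' r' hr' hr'R
    obtain ⟨z, rfl⟩ := exists_codF S hF y'
    obtain ⟨y, hy, hzy⟩ := hT z (abs_le_of_dist_codF S hF x z hy')
    rw [Measure.coe_finsetSum, Finset.sum_apply]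
    refine le_trans ?_ (Finset.single_le_sum
      (f := fun y => (ENNReal.ofReal (1 / M) • (ν y).map (codF S hF))
        (closedBall (codF S hF z) r')) (fun _ _ => zero_le) hy)
    beta_reduce
    rw [Measure.smul_apply, smul_eq_mul,
      Measure.map_apply (measurable_codF S hF) isClosed_closedBall.measurableSet]
    have h1 : S.Q (r' / 4) z ⊆ codF S hF ⁻¹' closedBall (codF S hF z) r' := by
      intro w hw
      rw [mem_preimage, mem_closedBall]
      have := dist_codF_le S hF (by positivity) hw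
      linarith
    have h2 := (hν y (r' / 4) z (by positivity) (by linarith) hzy).trans (measure_mono h1)
    refine le_trans ?_ (mul_le_mul_right h2 _)
    rw [← ENNReal.ofReal_mul (by positivity)]
    apply ENNReal.ofReal_le_ofReal
    rw [div_div_div_cancel_right₀ (by norm_num : (4 : ℝ) ≠ 0)]
    apply le_of_eq
    ring

end CodF

end Pool.Agent.CarpetMeasures
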