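import Pool.Agent.CarpetMeasures.DimLower

/-!
# Local measures on the carpet with upper bounds
-/

set_option autoImplicit false

open MeasureTheory Set Metric

namespace Pool.Agent.CarpetMeasures

section DimUpper

variable {I J K : Type} [Fintype I] [Nonempty I]

omit [Nonempty I] in
/-- A maximal family of inequivalent sequences with a property `P`, when such families are
bounded. -/
lemma exists_max_reps (S : Sys I J K) {P : (ℕ → I) → Prop} {r : ℝ} (hr : 0 < r) (B : ℕ)
    (hB : ∀ T : Finset (ℕ → I), (∀ z ∈ T, P z) →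
      (∀ z ∈ T, ∀ z' ∈ T, z ≠ z' → z ∉ S.Q r z') → T.card ≤ B) :
    ∃ T : Finset (ℕ → I), T.card ≤ B ∧ (∀ z ∈ T, P z) ∧ ∀ z, P z → ∃ y ∈ T, z ∈ S.Q r y := by
  classical
  let G : Finset (ℕ → I) → Prop := fun T => (∀ z ∈ T, P z) ∧
    (∀ z ∈ T, ∀ z' ∈ T, z ≠ z' → z ∉ S.Q r z')
  let R : ℕ → Prop := fun n => ∃ T, G T ∧ T.card = n
  have hR : R 0 := ⟨∅, ⟨by simp, by simp⟩, rfl⟩
  have hb : ∀ n, R n → n ≤ B := by
    rintro n ⟨T, hT, rfl⟩
    exact hB T hT.1 hT.2
  obtain ⟨T, hT, hTc⟩ := Nat.findGreatest_spec (P := R) (Nat.zero_le B) hR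
  refine ⟨T, hB T hT.1 hT.2, hT.1, ?_⟩
  intro z hz
  by_contra hcon
  push Not at hcon
  have hzT : z ∉ T := fun hzT => hcon z hzT (mem_Q_self S r z)
  have hG : G (insert z T) := by
    refine ⟨?_, ?_⟩
    · intro y hy
      rw [Finset.mem_insert] at hy
      rcases hy with rfl | hy
      · exact hz
      · exact hT.1 y hy
    · intro y hy y' hy' hne
      rw [Finset.mem_insert] at hy hy'
      rcases hy with rfl | hy <;> rcases hy' with rfl | hy'
      · exact absurd rfl hne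
      · exact hcon y' hy'
      · intro hc
        exact hcon y hy (Q_symm S hr hc)
      · exact hT.2 y hy y' hy' hne
  have h1 : R (T.card + 1) := ⟨insert z T, hG, Finset.card_insert_of_notMem hzT⟩
  have h2 := Nat.le_findGreatest (hb _ h1) h1
  rw [← hTc] at h2
  omega

omit [Nonempty I] in
/-- At most `B` classes of scale `r` are met by the sequences coded in a box of radius `A r`,
`B` depending only on the system and on `A`. -/
lemma exists_box_reps (S : Sys I J K) (A : ℝ) (hA : 0 ≤ A) :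
    ∃ B : ℕ, ∀ r : ℝ, 0 < r → r ≤ 1 → ∀ p q : ℝ, ∀ P : (ℕ → I) → Prop,
      (∀ z, P z → |S.X z - p| ≤ A * r ∧ |S.Y z - q| ≤ A * r) →
      ∃ T : Finset (ℕ → I), T.card ≤ B ∧ (∀ z ∈ T, P z) ∧
        ∀ z, P z → ∃ y ∈ T, z ∈ S.Q r y := by
  obtain ⟨κ, hκ0, hκ1, hκ⟩ := exists_lower S
  refine ⟨⌊(2 * (A + 1) / κ) ^ 2⌋₊, fun r hr hr1 p q P hP => ?_⟩
  apply exists_max_reps S hr
  intro T hTP hT
  apply Nat.le_floor
  have h := card_le S κ hκ0 hκ hr hr1 (by positivity) T hT (fun z hz => hP z (hTP z hz))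
  have h1 : (2 * (A * r + r)) ^ 2 = (2 * (A + 1) / κ) ^ 2 * (κ * r) ^ 2 := by
    field_simp
  rw [h1] at h
  exact le_of_mul_le_mul_right h (by positivity)

omit [Nonempty I] in
/-- The coding map into the attractor. -/
lemma exists_cod (S : Sys I J K) {F : Set Plane}
    (hF : IsAttractor (fun x : I => diagMap (S.a x) (S.b x) (S.t x) (S.u x)) F)
    [MeasurableSpace I] [MeasurableSingletonClass I] :
    ∃ cod : (ℕ → I) → F, Measurable cod ∧
      ∀ z, (cod z : Plane) 0 = S.X z ∧ (cod z : Plane) 1 = S.Y z := by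
  have hmem : ∀ z : ℕ → I, (!₂[S.X z, S.Y z] : Plane) ∈ F := fun z =>
    (mem_attractor_iff S hF _).2 ⟨z, by simp, by simp⟩
  refine ⟨fun z => ⟨!₂[S.X z, S.Y z], hmem z⟩, ?_, fun z => ⟨by simp, by simp⟩⟩
  apply Measurable.subtype_mk
  have h1 : Continuous (fun v : ℝ × ℝ => (!₂[v.1, v.2] : Plane)) := by fun_prop
  exact h1.measurable.comp ((measurable_X S).prodMk (measurable_Y S))

variable [MeasurableSpace I] [MeasurableSingletonClass I]

omit [Nonempty I] in
/-- D4 -/
theorem upperLocal (S : Sys I J K) {F : Set Plane}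
    (hF : IsAttractor (fun x : I => diagMap (S.a x) (S.b x) (S.t x) (S.u x)) F)
    {D' : ℝ} (_hD' : 0 ≤ D') (h : SymUpper S D') : ∃ C : ℝ, Nets.UpperLocal F D' C := by
  classical
  obtain ⟨C, hC, h⟩ := h
  obtain ⟨B, hB⟩ := exists_box_reps S 2 (by norm_num)
  obtain ⟨cod, hcod, hcod2⟩ := exists_cod S hF
  refine ⟨B * C, ?_⟩
  intro x R hR hR1
  obtain ⟨i, hi0, hi1⟩ := (mem_attractor_iff S hF x).1 x.2
  have hR2 : 0 < R / 2 := by positivity
  obtain ⟨ν, hν, hν1, hνup⟩ := h (R / 2) i hR2 (by linarith)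
  refine ⟨ν.map cod, Measure.isProbabilityMeasure_map hcod.aemeasurable, ?_, ?_⟩
  · rw [Measure.map_apply hcod isClosed_closedBall.measurableSet, ← hν1]
    apply measure_mono
    intro z hz
    rw [mem_preimage, mem_closedBall, Subtype.dist_eq]
    have h1 := abs_X_sub_le S hR2 hz
    have h2 : dist (cod z : Plane) (x : Plane) ≤ 2 * (R / 2) := by
      apply dist_le_two_mul hR2.le
      · rw [(hcod2 z).1, hi0]; exact h1.1
      · rw [(hcod2 z).2, hi1]; exact h1.2
    linarith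
  · intro y r hr hrR
    rw [Measure.map_apply hcod isClosed_closedBall.measurableSet]
    have hr2 : 0 < r / 2 := by positivity
    obtain ⟨T, hTB, hTP, hT⟩ := hB (r / 2) hr2 (by linarith) ((y : Plane) 0) ((y : Plane) 1)
      (fun z => z ∈ S.Q (R / 2) i ∧ |S.X z - (y : Plane) 0| ≤ r ∧ |S.Y z - (y : Plane) 1| ≤ r)
      (fun z hz => ⟨by linarith [hz.2.1], by linarith [hz.2.2]⟩)
    have hQc : ν (S.Q (R / 2) i)ᶜ = 0 := by
      have hQm : MeasurableSet (S.Q (R / 2) i) := measurableSet_cls S _ _ _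
      rw [prob_compl_eq_zero_iff hQm]
      exact hν1
    have hsub : cod ⁻¹' closedBall y r ⊆ (S.Q (R / 2) i)ᶜ ∪ ⋃ w ∈ T, S.Q (r / 2) w := by
      intro z hz
      by_cases hzQ : z ∈ S.Q (R / 2) i
      · right
        rw [mem_preimage, mem_closedBall, Subtype.dist_eq] at hz
        have h1 := (abs_coord_le_dist (cod z : Plane) (y : Plane) 0).trans hz
        have h2 := (abs_coord_le_dist (cod z : Plane) (y : Plane) 1).trans hz
        rw [(hcod2 z).1] at h1
        rw [(hcod2 z).2] at h2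
        obtain ⟨w, hw, hzw⟩ := hT z ⟨hzQ, h1, h2⟩
        exact mem_biUnion hw hzw
      · left
        exact hzQ
    have hratio : r / 2 / (R / 2) = r / R := by field_simp
    calc ν (cod ⁻¹' closedBall y r)
        ≤ ν ((S.Q (R / 2) i)ᶜ ∪ ⋃ w ∈ T, S.Q (r / 2) w) := measure_mono hsub
      _ ≤ ν (S.Q (R / 2) i)ᶜ + ν (⋃ w ∈ T, S.Q (r / 2) w) := measure_union_le _ _
      _ ≤ 0 + ∑ w ∈ T, ν (S.Q (r / 2) w) := by
          rw [hQc]
          gcongr
          exact measure_biUnion_finset_le _ _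
      _ ≤ 0 + ∑ _w ∈ T, ENNReal.ofReal (C * (r / R) ^ D') := by
          gcongr with w hw
          have := hνup (r / 2) w hr2 (by linarith) (hTP w hw).1
          rwa [hratio] at this
      _ = (T.card : ENNReal) * ENNReal.ofReal (C * (r / R) ^ D') := by
          rw [zero_add, Finset.sum_const, nsmul_eq_mul]
      _ ≤ (B : ENNReal) * ENNReal.ofReal (C * (r / R) ^ D') := by
          gcongr
      _ = ENNReal.ofReal (B * C * (r / R) ^ D') := by
          rw [← ENNReal.ofReal_natCast, ← ENNReal.ofReal_mul (Nat.cast_nonneg _), mul_assoc]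

end DimUpper

end Pool.Agent.CarpetMeasures
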