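import Pool.Agent.CarpetMeasures.SymDefs

/-!
# Localisation: points around which a carpet is poor
-/

set_option autoImplicit false

open MeasureTheory Set Metric

namespace Pool.Agent.CarpetMeasures

section Poor

variable {I J K : Type*} [Finite I]

/-- Horizontal distance of a coded point to the ends of a basic interval. -/
lemma X_interior (S : Sys I J K) (w : ℕ → I) (k : ℕ) :
    (∏ n ∈ Finset.range k, S.a (w n)) * S.t (w k) ≤ S.X w - lx S w k ∧
    (∏ n ∈ Finset.range k, S.a (w n)) * (S.a (w k) * (1 - (S.t (w (k + 1)) + S.a (w (k + 1))))) ≤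
      lx S w k + (∏ n ∈ Finset.range k, S.a (w n)) - S.X w := by
  have h := X_interval S w (k + 2)
  have h1 : lx S w (k + 2) = lx S w k + (∏ n ∈ Finset.range k, S.a (w n)) * S.t (w k) +
      (∏ n ∈ Finset.range k, S.a (w n)) * S.a (w k) * S.t (w (k + 1)) := by
    unfold lx
    rw [Finset.sum_range_succ, Finset.sum_range_succ, Finset.prod_range_succ]
  have h2 : ∏ n ∈ Finset.range (k + 2), S.a (w n) =
      (∏ n ∈ Finset.range k, S.a (w n)) * S.a (w k) * S.a (w (k + 1)) := by
    rw [Finset.prod_range_succ, Finset.prod_range_succ]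
  rw [h1, h2] at h
  have hP : 0 < ∏ n ∈ Finset.range k, S.a (w n) := Finset.prod_pos fun m _ => S.a_pos _
  have h3 := S.t_nonneg (w (k + 1))
  have h4 := S.a_pos (w k)
  have h5 := S.t_add (w k)
  constructor
  · have : 0 ≤ (∏ n ∈ Finset.range k, S.a (w n)) * S.a (w k) * S.t (w (k + 1)) := by positivity
    linarith [h.1]
  · have h6 : 0 ≤ (∏ n ∈ Finset.range k, S.a (w n)) * (1 - (S.t (w k) + S.a (w k))) :=
      mul_nonneg hP.le (by linarith)
    nlinarith [h.2]

lemma Y_interior (S : Sys I J K) (w : ℕ → I) (k : ℕ) :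
    (∏ n ∈ Finset.range k, S.b (w n)) * S.u (w k) ≤ S.Y w - uy S w k ∧
    (∏ n ∈ Finset.range k, S.b (w n)) * (S.b (w k) * (1 - (S.u (w (k + 1)) + S.b (w (k + 1))))) ≤
      uy S w k + (∏ n ∈ Finset.range k, S.b (w n)) - S.Y w :=
  X_interior S.swap w k

/-- If two sequences separate horizontally at step `m < k`, then the second point is at least as
far from the first as from the ends of its basic interval of order `k`. -/
lemma far_of_apart (S : Sys I J K) {w z : ℕ → I} {m k : ℕ} (hm : m < k)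
    (hag : ∀ n < m, S.a (w n) = S.a (z n) ∧ S.t (w n) = S.t (z n))
    (hap : Apart (S.t (w m)) (S.a (w m)) (S.t (z m)) (S.a (z m))) {δ : ℝ}
    (h1 : δ ≤ S.X z - lx S z k)
    (h2 : δ ≤ lx S z k + (∏ n ∈ Finset.range k, S.a (z n)) - S.X z) :
    δ ≤ |S.X w - S.X z| := by
  have h := sep (f := fun m => S.a (w m)) (g := fun m => S.t (w m)) (f' := fun m => S.a (z m))
    (g' := fun m => S.t (z m)) (fun m => S.a_pos _) (fun m => S.t_nonneg _) (fun m => S.t_add _)
    (fun m => S.a_pos _) (fun m => S.t_nonneg _) (fun m => S.t_add _) (Nat.lt_succ_self m) hm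
    (fun n hn => (hag n hn).1) (fun n hn => (hag n hn).2) hap
  have h3 := X_interval S w (m + 1)
  unfold lx at h1 h2 h3
  rcases h with h | h
  · have : δ ≤ -(S.X w - S.X z) := by
      have := h3.2
      linarith
    exact this.trans (neg_le_abs _)
  · have : δ ≤ S.X w - S.X z := by
      have := h3.1
      linarith
    exact this.trans (le_abs_self _)

lemma far_of_apart_Y (S : Sys I J K) {w z : ℕ → I} {m k : ℕ} (hm : m < k)
    (hag : ∀ n < m, S.b (w n) = S.b (z n) ∧ S.u (w n) = S.u (z n))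
    (hap : Apart (S.u (w m)) (S.b (w m)) (S.u (z m)) (S.b (z m))) {δ : ℝ}
    (h1 : δ ≤ S.Y z - uy S z k)
    (h2 : δ ≤ uy S z k + (∏ n ∈ Finset.range k, S.b (z n)) - S.Y z) :
    δ ≤ |S.Y w - S.Y z| :=
  far_of_apart S.swap hm hag hap h1 h2

omit [Finite I] in
/-- Either the rows determine the letters, or there is a two-letter word with interior horizontal
interval. -/
lemma interior_X (S : Sys I J K)
    (hX : ∀ i i', S.row i = S.row i' → i ≠ i' → Apart (S.t i) (S.a i) (S.t i') (S.a i')) :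
    (∀ i i', S.row i = S.row i' → i = i') ∨ ∃ p q, 0 < S.t p ∧ S.t q + S.a q < 1 := by
  by_cases h1 : ∀ x, S.t x = 0
  · left
    intro i i' h
    by_contra hne
    have ha := S.a_pos i
    have ha' := S.a_pos i'
    rcases hX i i' h hne with h' | h' <;> rw [h1 i, h1 i'] at h' <;> linarith
  · by_cases h2 : ∀ x, S.t x + S.a x = 1
    · left
      intro i i' h
      by_contra hne
      have ha := S.a_pos i
      have ha' := S.a_pos i'
      have e1 := h2 i
      have e2 := h2 i'
      rcases hX i i' h hne with h' | h' <;> linarith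
    · right
      push Not at h1 h2
      obtain ⟨p, hp⟩ := h1
      obtain ⟨q, hq⟩ := h2
      exact ⟨p, q, lt_of_le_of_ne (S.t_nonneg p) (Ne.symm hp), lt_of_le_of_ne (S.t_add q) hq⟩

omit [Finite I] in
/-- Either there is only one row, or there is a two-letter word with interior vertical
interval. -/
lemma interior_Y (S : Sys I J K)
    (hY : ∀ i i', S.row i ≠ S.row i' → Apart (S.u i) (S.b i) (S.u i') (S.b i')) :
    (∀ i i', S.row i = S.row i') ∨ ∃ p q, 0 < S.u p ∧ S.u q + S.b q < 1 := by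
  by_cases h1 : ∀ x, S.u x = 0
  · left
    intro i i'
    by_contra hne
    have ha := S.b_pos i
    have ha' := S.b_pos i'
    rcases hY i i' hne with h' | h' <;> rw [h1 i, h1 i'] at h' <;> linarith
  · by_cases h2 : ∀ x, S.u x + S.b x = 1
    · left
      intro i i'
      by_contra hne
      have ha := S.b_pos i
      have ha' := S.b_pos i'
      have e1 := h2 i
      have e2 := h2 i'
      rcases hY i i' hne with h' | h' <;> linarith
    · right
      push Not at h1 h2
      obtain ⟨p, hp⟩ := h1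
      obtain ⟨q, hq⟩ := h2
      exact ⟨p, q, lt_of_le_of_ne (S.u_nonneg p) (Ne.symm hp), lt_of_le_of_ne (S.u_add q) hq⟩

lemma exists_lower (S : Sys I J K) : ∃ κ : ℝ, 0 < κ ∧ κ ≤ 1 ∧ ∀ x, κ ≤ S.a x ∧ κ ≤ S.b x := by
  rcases isEmpty_or_nonempty I with h | h
  · exact ⟨1, one_pos, le_rfl, fun x => (h.false x).elim⟩
  · obtain ⟨x1, hx1⟩ := Finite.exists_min S.a
    obtain ⟨x2, hx2⟩ := Finite.exists_min S.b
    refine ⟨min (S.a x1) (S.b x2), lt_min (S.a_pos x1) (S.b_pos x2),
      (min_le_left _ _).trans (S.a_lt x1).le, fun x => ?_⟩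
    exact ⟨(min_le_left _ _).trans (hx1 x), (min_le_right _ _).trans (hx2 x)⟩

end Poor

section Main

variable {I J K : Type*} [Fintype I] [Nonempty I] [DecidableEq I] [DecidableEq J] [DecidableEq K]
  [MeasurableSpace I] [MeasurableSingletonClass I]



lemma prod_anti {f : ℕ → ℝ} (h0 : ∀ n, 0 < f n) (h1 : ∀ n, f n ≤ 1) {k l : ℕ} (h : k ≤ l) :
    ∏ n ∈ Finset.range l, f n ≤ ∏ n ∈ Finset.range k, f n := by
  induction l, h using Nat.le_induction with
  | base => exact le_rfl
  | succ l hl ih =>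
    rw [Finset.prod_range_succ]
    have h2 : 0 < ∏ n ∈ Finset.range l, f n := Finset.prod_pos fun m _ => h0 _
    have h3 := h1 l
    nlinarith

/-- The product over at most two exceptional places. -/
lemma prod_ite_ge {q : ℝ} (hq0 : 0 < q) (hq1 : q ≤ 1) (N k : ℕ) :
    q ^ 2 ≤ ∏ m ∈ Finset.Ico N k, (if m < N + 2 then q else 1) := by
  rw [Finset.prod_ite, Finset.prod_const, Finset.prod_const_one, mul_one]
  apply pow_le_pow_of_le_one hq0.le hq1
  have : (Finset.Ico N k).filter (fun m => m < N + 2) ⊆ Finset.Ico N (N + 2) := by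
    intro m hm
    rw [Finset.mem_filter, Finset.mem_Ico] at hm
    rw [Finset.mem_Ico]
    exact ⟨hm.1.1, hm.2⟩
  have h := Finset.card_le_card this
  rw [Nat.card_Ico] at h
  omega

theorem poor_A (S : Sys I J K) (e : Expo S) (h : ∃ x, S.a x < S.b x) (y : I) :
    SymPoor S (e.s y + e.β) := by
  obtain ⟨x0, hx0⟩ := h
  obtain ⟨κ, hκ0, hκ1, hκ⟩ := exists_lower S
  obtain ⟨A, hA1, hA⟩ := exists_bound S
  have hA0 : 0 < A := (S.a_pos x0).trans_le (hA x0).1
  -- separation properties
  have hXY : (∀ i i', S.row i ≠ S.row i' → Apart (S.u i) (S.b i) (S.u i') (S.b i')) ∧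
      (∀ i i', S.row i = S.row i' → i ≠ i' → Apart (S.t i) (S.a i) (S.t i') (S.a i')) := by
    rcases S.alt with h | h | h
    · refine ⟨h.2, fun i i' hr hne => h.1 i i' fun hc => hne (S.inj i i' hc hr)⟩
    · exact ⟨h.2.1, h.2.2⟩
    · exact absurd (h.1 x0) (not_le.2 hx0)
  obtain ⟨hY, hX⟩ := hXY
  -- bound for the exponents
  obtain ⟨xm, hxm⟩ := Finite.exists_max e.s
  set α := e.s xm with hα
  have hα0 : 0 ≤ α := e.s_nonneg _
  set σ := e.s y with hσ
  have hσ0 : 0 ≤ σ := e.s_nonneg _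
  have hβ0 := e.β_nonneg
  -- interior words
  obtain ⟨p1, q1, ηX, hηX0, hηX⟩ : ∃ (p1 q1 : I) (η : ℝ), 0 < η ∧
      ((∀ i i', S.row i = S.row i' → i = i') ∨
        (η ≤ S.t p1 ∧ η ≤ S.a p1 * (1 - (S.t q1 + S.a q1)))) := by
    rcases interior_X S hX with h | ⟨p, q, hp, hq⟩
    · exact ⟨y, y, 1, one_pos, Or.inl h⟩
    · have h2 : 0 < S.a p * (1 - (S.t q + S.a q)) := mul_pos (S.a_pos p) (by linarith)
      exact ⟨p, q, min (S.t p) (S.a p * (1 - (S.t q + S.a q))), lt_min hp h2,
        Or.inr ⟨min_le_left _ _, min_le_right _ _⟩⟩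
  obtain ⟨p2, q2, ηY, hηY0, hηY⟩ : ∃ (p2 q2 : I) (η : ℝ), 0 < η ∧
      ((∀ i i', S.row i = S.row i') ∨
        (η ≤ S.u p2 ∧ η ≤ S.b p2 * (1 - (S.u q2 + S.b q2)))) := by
    rcases interior_Y S hY with h | ⟨p, q, hp, hq⟩
    · exact ⟨y, y, 1, one_pos, Or.inl h⟩
    · have h2 : 0 < S.b p * (1 - (S.u q + S.b q)) := mul_pos (S.b_pos p) (by linarith)
      exact ⟨p, q, min (S.u p) (S.b p * (1 - (S.u q + S.b q))), lt_min hp h2,
        Or.inr ⟨min_le_left _ _, min_le_right _ _⟩⟩
  -- the constants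
  have hκα : 0 < κ ^ α := Real.rpow_pos_of_pos hκ0 _
  have hκσ : 0 < (κ ^ 3) ^ σ := Real.rpow_pos_of_pos (by positivity) _
  have hκβ : 0 < κ ^ e.β := Real.rpow_pos_of_pos hκ0 _
  refine ⟨1 / ((κ ^ α) ^ 2 * (κ ^ 3) ^ σ * κ ^ e.β), min ηX (κ * ηY), by positivity,
    lt_min hηX0 (by positivity), ?_⟩
  intro ε hε0 hε1
  -- choice of the length `N`
  obtain ⟨N1, hN1⟩ := exists_pow_lt_of_lt_one (show 0 < ε * κ ^ 2 by positivity) hA1
  have hx0a := S.a_pos x0
  have hx0b := S.b_pos x0
  obtain ⟨N, hN⟩ := exists_pow_lt_of_lt_one (show 0 < κ ^ N1 by positivity)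
    (show S.a x0 / S.b x0 < 1 by rw [div_lt_one hx0b]; exact hx0)
  have hN' : S.a x0 ^ N < κ ^ N1 * S.b x0 ^ N := by
    rw [div_pow, div_lt_iff₀ (by positivity)] at hN
    exact hN
  -- the reference sequence
  let z0 : ℕ → I := fun m => if m < N then x0 else if m = N then p1 else if m = N + 1 then q1 else y
  have hz0 : ∀ m < N, z0 m = x0 := fun m hm => by simp [z0, hm]
  have hz1 : z0 N = p1 := by simp [z0]
  have hz2 : z0 (N + 1) = q1 := by simp [z0]
  have hz3 : ∀ m, N + 2 ≤ m → z0 m = y := fun m hm => by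
    have h1 : ¬ m < N := by omega
    have h2 : m ≠ N := by omega
    have h3 : m ≠ N + 1 := by omega
    simp [z0, h1, h2, h3]
  have hPN : ∏ n ∈ Finset.range N, S.a (z0 n) = S.a x0 ^ N := by
    rw [Finset.prod_congr rfl (fun n hn => by rw [hz0 n (Finset.mem_range.1 hn)]),
      Finset.prod_const, Finset.card_range]
  have hPNb : ∏ n ∈ Finset.range N, S.b (z0 n) = S.b x0 ^ N := by
    rw [Finset.prod_congr rfl (fun n hn => by rw [hz0 n (Finset.mem_range.1 hn)]),
      Finset.prod_const, Finset.card_range]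
  set r : ℝ := S.a x0 ^ N * (S.a p1 * S.a q1) with hr
  have hp1 := S.a_pos p1
  have hq1 := S.a_pos q1
  have hr0 : 0 < r := by positivity
  have hrle : r ≤ S.a x0 ^ N := by
    have h1 : S.a p1 * S.a q1 ≤ 1 := mul_le_one₀ (S.a_lt p1).le hq1.le (S.a_lt q1).le
    have h2 : 0 < S.a x0 ^ N := by positivity
    nlinarith
  have hr1 : r ≤ 1 := hrle.trans (pow_le_one₀ hx0a.le (S.a_lt x0).le)
  have hrge : S.a x0 ^ N * κ ^ 2 ≤ r := by
    rw [hr, sq]
    apply mul_le_mul_of_nonneg_left _ (by positivity)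
    exact mul_le_mul (hκ p1).1 (hκ q1).1 hκ0.le hp1.le
  set l := S.ly z0 r with hl
  -- `l` is large
  have hlN : N + N1 < l := by
    by_contra hlt
    push Not at hlt
    have h1 := prod_ly_le S hr0 z0
    rw [← hl] at h1
    have h2 : ∏ n ∈ Finset.range (N + N1), S.b (z0 n) ≤ ∏ n ∈ Finset.range l, S.b (z0 n) :=
      prod_anti (fun n => S.b_pos _) (fun n => (S.b_lt _).le) hlt
    have h3 : κ ^ N1 * S.b x0 ^ N ≤ ∏ n ∈ Finset.range (N + N1), S.b (z0 n) := by
      rw [Finset.prod_range_add, hPNb, mul_comm]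
      apply mul_le_mul_of_nonneg_left _ (by positivity)
      calc κ ^ N1 = ∏ _n ∈ Finset.range N1, κ := by simp
        _ ≤ _ := Finset.prod_le_prod (fun n _ => hκ0.le) (fun n _ => (hκ _).2)
    linarith
  -- the point
  let w : ℕ → I := fun m => if m < l then z0 m else if m = l then p2 else if m = l + 1 then q2 else y
  have hw0 : ∀ m < l, w m = z0 m := fun m hm => by simp [w, hm]
  have hw1 : w l = p2 := by simp [w]
  have hw2 : w (l + 1) = q2 := by simp [w]
  have hNl : N < l := by omega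
  obtain ⟨ν, hν, -, hνlow, -⟩ := exists_class_measure S e N l z0
  refine ⟨r, w, hr0, hr1, ν, hν, ?_⟩
  intro i' hi'X hi'Y
  -- vertical localisation
  have hPYl : ∏ n ∈ Finset.range l, S.b (w n) = ∏ n ∈ Finset.range l, S.b (z0 n) :=
    Finset.prod_congr rfl fun n hn => by rw [hw0 n (Finset.mem_range.1 hn)]
  have hPYge : κ * r ≤ ∏ n ∈ Finset.range l, S.b (w n) := by
    rw [hPYl]
    exact le_prod_ly S (fun x => (hκ x).2) hκ0 hr0 hr1 z0
  have hrow : ∀ m < l, S.row (i' m) = S.row (z0 m) := by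
    rcases hηY with hdeg | ⟨hηu, hηb⟩
    · exact fun m _ => hdeg _ _
    · by_contra hcon
      push Not at hcon
      obtain ⟨m, hm, hne, hag⟩ := first_ne hcon
      have hint := Y_interior S w l
      rw [hw1, hw2] at hint
      have hκr : 0 < κ * r := by positivity
      have h1 : κ * r * ηY ≤ S.Y w - uy S w l := by
        refine le_trans ?_ hint.1
        exact mul_le_mul hPYge hηu hηY0.le (hκr.le.trans hPYge)
      have h2 : κ * r * ηY ≤ uy S w l + (∏ n ∈ Finset.range l, S.b (w n)) - S.Y w := by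
        refine le_trans ?_ hint.2
        exact mul_le_mul hPYge hηb hηY0.le (hκr.le.trans hPYge)
      have h3 := far_of_apart_Y S (w := i') (z := w) hm
        (fun n hn => by
          have := hag n hn
          rw [not_not] at this
          rw [hw0 n (hn.trans hm)]
          exact ⟨S.row_b _ _ this, S.row_u _ _ this⟩)
        (by rw [hw0 m hm]; exact hY _ _ hne) h1 h2
      have h4 : min ηX (κ * ηY) * r ≤ κ * ηY * r :=
        mul_le_mul_of_nonneg_right (min_le_right _ _) hr0.le
      nlinarith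
  -- horizontal localisation
  have hcol : ∀ m < N, S.col (i' m) = S.col (z0 m) := by
    by_contra hcon
    push Not at hcon
    obtain ⟨m, hm, hne, hag⟩ := first_ne hcon
    have hml : m < l := hm.trans hNl
    rcases hηX with hdeg | ⟨hηt, hηa⟩
    · exact hne (by rw [hdeg _ _ (hrow m hml)])
    · have hint := X_interior S w N
      rw [hw0 N hNl, hz1] at hint
      rw [hw0 (N + 1) (by
        -- `N1 ≥ 1`
        have : N1 ≠ 0 := by
          intro h0
          rw [h0, pow_zero] at hN1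
          have : ε * κ ^ 2 ≤ 1 := by
            have : κ ^ 2 ≤ 1 := pow_le_one₀ hκ0.le hκ1
            nlinarith
          linarith
        omega), hz2] at hint
      have hPX : r ≤ ∏ n ∈ Finset.range N, S.a (w n) := by
        rw [Finset.prod_congr rfl (fun n hn => by
          rw [hw0 n ((Finset.mem_range.1 hn).trans hNl)]), hPN]
        exact hrle
      have h1 : r * ηX ≤ S.X w - lx S w N := by
        refine le_trans ?_ hint.1
        exact mul_le_mul hPX hηt hηX0.le (hr0.le.trans hPX)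
      have h2 : r * ηX ≤ lx S w N + (∏ n ∈ Finset.range N, S.a (w n)) - S.X w := by
        refine le_trans ?_ hint.2
        exact mul_le_mul hPX hηa hηX0.le (hr0.le.trans hPX)
      have h3 := far_of_apart S (w := i') (z := w) hm
        (fun n hn => by
          have := hag n hn
          rw [not_not] at this
          rw [hw0 n ((hn.trans hm).trans hNl)]
          exact ⟨S.col_a _ _ this, S.col_t _ _ this⟩)
        (by
          rw [hw0 m hml]
          exact hX _ _ (hrow m hml) (fun h => hne (by rw [h]))) h1 h2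
      have h4 : min ηX (κ * ηY) * r ≤ ηX * r :=
        mul_le_mul_of_nonneg_right (min_le_left _ _) hr0.le
      nlinarith
  -- the stopping times of `i'`
  have hεr : 0 < ε * r := by positivity
  have hεr1 : ε * r ≤ 1 := by nlinarith
  have hεrr : ε * r < r := by nlinarith
  set k' := S.kx i' (ε * r) with hk'
  set l' := S.ly i' (ε * r) with hl'
  have hPi'N : ∏ n ∈ Finset.range N, S.a (i' n) = S.a x0 ^ N := by
    rw [← hPN]
    exact Finset.prod_congr rfl fun n hn => S.col_a _ _ (hcol n (Finset.mem_range.1 hn))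
  have hPi'l : ∀ j ≤ l, ∏ n ∈ Finset.range j, S.b (i' n) = ∏ n ∈ Finset.range j, S.b (z0 n) := by
    intro j hj
    exact Finset.prod_congr rfl fun n hn =>
      S.row_b _ _ (hrow n ((Finset.mem_range.1 hn).trans_le hj))
  have hNk' : N ≤ k' := by
    by_contra hlt
    push Not at hlt
    have h1 := prod_kx_le S hεr i'
    rw [← hk'] at h1
    have h2 : ∏ n ∈ Finset.range N, S.a (i' n) ≤ ∏ n ∈ Finset.range k', S.a (i' n) :=
      prod_anti (fun n => S.a_pos _) (fun n => (S.a_lt _).le) hlt.le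
    rw [hPi'N] at h2
    linarith
  have hll' : l ≤ l' := by
    by_contra hlt
    push Not at hlt
    have h1 := prod_ly_le S hεr i'
    rw [← hl', hPi'l l' hlt.le] at h1
    have h2 : r < ∏ n ∈ Finset.range l', S.b (z0 n) :=
      lt_prod_of_lt_stop (f := fun m => S.b (z0 m)) hlt
    linarith
  have hk'l : k' ≤ l := by
    apply stop_le_of
    obtain ⟨j, hj⟩ := Nat.exists_eq_add_of_le hNl.le
    rw [hj, Finset.prod_range_add, hPi'N]
    have h1 : ∏ x ∈ Finset.range j, S.a (i' (N + x)) ≤ A ^ j := by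
      calc ∏ x ∈ Finset.range j, S.a (i' (N + x)) ≤ ∏ _x ∈ Finset.range j, A :=
            Finset.prod_le_prod (fun n _ => (S.a_pos _).le) (fun n _ => (hA _).1)
        _ = A ^ j := by simp
    have h2 : A ^ j ≤ A ^ N1 := pow_le_pow_of_le_one hA0.le hA1.le (by omega)
    have h3 : 0 < S.a x0 ^ N := by positivity
    calc S.a x0 ^ N * ∏ x ∈ Finset.range j, S.a (i' (N + x)) ≤ S.a x0 ^ N * (ε * κ ^ 2) :=
          mul_le_mul_of_nonneg_left (by linarith) h3.le
      _ = ε * (S.a x0 ^ N * κ ^ 2) := by ring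
      _ ≤ ε * r := mul_le_mul_of_nonneg_left hrge hε0.le
  have hmem : i' ∈ S.cls N l z0 := ⟨hcol, hrow⟩
  refine le_trans ?_ (hνlow k' l' i' hNk' hll' (hk'l.trans hll') hmem)
  apply ENNReal.ofReal_le_ofReal
  -- estimate of the two products
  have hA1' : ∏ m ∈ Finset.Ico N k', ((if m < N + 2 then κ ^ α else 1) * S.a (i' m) ^ σ) ≤
      ∏ m ∈ Finset.Ico N k', S.a (i' m) ^ e.s (i' m) := by
    apply Finset.prod_le_prod
    · intro m _
      have h1 : 0 < S.a (i' m) ^ σ := Real.rpow_pos_of_pos (S.a_pos _) _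
      split_ifs <;> positivity
    · intro m hm
      rw [Finset.mem_Ico] at hm
      have ha0 := S.a_pos (i' m)
      have ha1 := (S.a_lt (i' m)).le
      split_ifs with hcase
      · have h1 : S.a (i' m) ^ σ ≤ 1 := Real.rpow_le_one ha0.le ha1 hσ0
        have h2 : κ ^ α ≤ S.a (i' m) ^ e.s (i' m) := by
          calc κ ^ α ≤ κ ^ e.s (i' m) := Real.rpow_le_rpow_of_exponent_ge hκ0 hκ1 (hxm _)
            _ ≤ _ := Real.rpow_le_rpow hκ0.le (hκ _).1 (e.s_nonneg _)
        calc κ ^ α * S.a (i' m) ^ σ ≤ κ ^ α * 1 := mul_le_mul_of_nonneg_left h1 hκα.le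
          _ ≤ _ := by rw [mul_one]; exact h2
      · have hs : e.s (i' m) = σ := by
          rw [hσ]
          apply e.s_row
          rw [hrow m (hm.2.trans_le hk'l), hz3 m (by omega)]
        rw [one_mul, hs]
  have hA2' : (κ ^ α) ^ 2 * (κ ^ 3 * ε) ^ σ ≤
      ∏ m ∈ Finset.Ico N k', ((if m < N + 2 then κ ^ α else 1) * S.a (i' m) ^ σ) := by
    rw [Finset.prod_mul_distrib]
    have h1 := prod_ite_ge hκα (Real.rpow_le_one hκ0.le hκ1 hα0) N k'
    apply mul_le_mul h1 _ (by positivity)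
    · apply Finset.prod_nonneg
      intro m _
      split_ifs <;> positivity
    · rw [Real.finsetProd_rpow _ _ (fun m _ => (S.a_pos _).le)]
      apply Real.rpow_le_rpow (by positivity) _ hσ0
      have h2 := Finset.prod_range_mul_prod_Ico (fun m => S.a (i' m)) hNk'
      rw [hPi'N] at h2
      have h3 := le_prod_kx S (fun x => (hκ x).1) hκ0 hεr hεr1 i'
      rw [← hk', ← h2] at h3
      have h4 : 0 < S.a x0 ^ N := by positivity
      have h5 : S.a x0 ^ N * (κ ^ 3 * ε) ≤ S.a x0 ^ N * ∏ m ∈ Finset.Ico N k', S.a (i' m) := by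
        refine le_trans ?_ h3
        calc S.a x0 ^ N * (κ ^ 3 * ε) = κ * (ε * (S.a x0 ^ N * κ ^ 2)) := by ring
          _ ≤ κ * (ε * r) := by
              apply mul_le_mul_of_nonneg_left _ hκ0.le
              exact mul_le_mul_of_nonneg_left hrge hε0.le
      exact le_of_mul_le_mul_left h5 h4
  have hB : (κ * ε) ^ e.β ≤ ∏ m ∈ Finset.Ico l l', S.b (i' m) ^ e.β := by
    rw [Real.finsetProd_rpow _ _ (fun m _ => (S.b_pos _).le)]
    apply Real.rpow_le_rpow (by positivity) _ hβ0
    have h2 := Finset.prod_range_mul_prod_Ico (fun m => S.b (i' m)) hll'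
    have h3 := le_prod_ly S (fun x => (hκ x).2) hκ0 hεr hεr1 i'
    rw [← hl', ← h2] at h3
    have h4 : ∏ m ∈ Finset.range l, S.b (i' m) ≤ r := by
      rw [hPi'l l le_rfl]
      exact prod_ly_le S hr0 z0
    have h5 : 0 < ∏ m ∈ Finset.Ico l l', S.b (i' m) := Finset.prod_pos fun m _ => S.b_pos _
    have h6 : r * (κ * ε) ≤ r * ∏ m ∈ Finset.Ico l l', S.b (i' m) := by
      calc r * (κ * ε) = κ * (ε * r) := by ring
        _ ≤ (∏ m ∈ Finset.range l, S.b (i' m)) * ∏ m ∈ Finset.Ico l l', S.b (i' m) := h3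
        _ ≤ _ := mul_le_mul_of_nonneg_right h4 h5.le
    exact le_of_mul_le_mul_left h6 hr0
  calc ε ^ (σ + e.β) / (1 / ((κ ^ α) ^ 2 * (κ ^ 3) ^ σ * κ ^ e.β))
      = ((κ ^ α) ^ 2 * (κ ^ 3 * ε) ^ σ) * (κ * ε) ^ e.β := by
        rw [Real.mul_rpow (by positivity) hε0.le, Real.mul_rpow hκ0.le hε0.le,
          Real.rpow_add hε0, div_div_eq_mul_div, div_one]
        ring
    _ ≤ (∏ m ∈ Finset.Ico N k', S.a (i' m) ^ e.s (i' m)) *
          ∏ m ∈ Finset.Ico l l', S.b (i' m) ^ e.β := by
        apply mul_le_mul (hA2'.trans hA1') hB (by positivity)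
        exact Finset.prod_nonneg fun m _ => Real.rpow_nonneg (S.a_pos _).le _

end Main

end Pool.Agent.CarpetMeasures
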