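import Pool.Agent.CarpetMeasures.SymDefs
import Pool.Agent.CarpetMeasures.Poor

/-!
# Symbolic lower and upper measures, rich classes, and their combination
-/

set_option autoImplicit false

open MeasureTheory Set Metric

namespace Pool.Agent.CarpetMeasures

section SymA

variable {I J K : Type*} [Fintype I] [Nonempty I] [DecidableEq I] [DecidableEq J] [DecidableEq K]
  [MeasurableSpace I] [MeasurableSingletonClass I]

/-! ### products between two stopping times -/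

omit [DecidableEq I] [DecidableEq J] [DecidableEq K] [MeasurableSpace I]
  [MeasurableSingletonClass I] [Nonempty I] in
lemma Ico_a_ge (S : Sys I J K) {κ : ℝ} (hκ0 : 0 < κ) (hκ : ∀ x, κ ≤ S.a x) {r r' : ℝ}
    (hr' : 0 < r') (hr'r : r' ≤ r) (hr1 : r ≤ 1) (w : ℕ → I) :
    κ * (r' / r) ≤ ∏ m ∈ Finset.Ico (S.kx w r) (S.kx w r'), S.a (w m) := by
  have hr : 0 < r := hr'.trans_le hr'r
  have hk : S.kx w r ≤ S.kx w r' := (Q_mono S hr' hr'r w).2.1
  have h2 := Finset.prod_range_mul_prod_Ico (fun m => S.a (w m)) hk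
  have h3 := le_prod_kx S hκ hκ0 hr' (hr'r.trans hr1) w
  rw [← h2] at h3
  have h4 := prod_kx_le S hr w
  have h5 : 0 < ∏ m ∈ Finset.Ico (S.kx w r) (S.kx w r'), S.a (w m) :=
    Finset.prod_pos fun m _ => S.a_pos _
  have h6 : κ * r' ≤ r * ∏ m ∈ Finset.Ico (S.kx w r) (S.kx w r'), S.a (w m) :=
    h3.trans (mul_le_mul_of_nonneg_right h4 h5.le)
  rw [← mul_div_assoc, div_le_iff₀ hr, mul_comm _ r]
  exact h6

omit [DecidableEq I] [DecidableEq J] [DecidableEq K] [MeasurableSpace I]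
  [MeasurableSingletonClass I] [Nonempty I] in
lemma Ico_a_le (S : Sys I J K) {κ : ℝ} (hκ0 : 0 < κ) (hκ : ∀ x, κ ≤ S.a x) {r r' : ℝ}
    (hr' : 0 < r') (hr'r : r' ≤ r) (hr1 : r ≤ 1) (w : ℕ → I) :
    ∏ m ∈ Finset.Ico (S.kx w r) (S.kx w r'), S.a (w m) ≤ κ⁻¹ * (r' / r) := by
  have hr : 0 < r := hr'.trans_le hr'r
  have hk : S.kx w r ≤ S.kx w r' := (Q_mono S hr' hr'r w).2.1
  have h2 := Finset.prod_range_mul_prod_Ico (fun m => S.a (w m)) hk
  have h3 := le_prod_kx S hκ hκ0 hr hr1 w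
  have h4 := prod_kx_le S hr' w
  rw [← h2] at h4
  have h5 : 0 < ∏ m ∈ Finset.Ico (S.kx w r) (S.kx w r'), S.a (w m) :=
    Finset.prod_pos fun m _ => S.a_pos _
  have h6 : κ * r * ∏ m ∈ Finset.Ico (S.kx w r) (S.kx w r'), S.a (w m) ≤ r' :=
    (mul_le_mul_of_nonneg_right h3 h5.le).trans h4
  have h7 : κ⁻¹ * (r' / r) = r' / (κ * r) := by field_simp
  rw [h7, le_div_iff₀ (by positivity), mul_comm]
  exact h6

omit [DecidableEq I] [DecidableEq J] [DecidableEq K] [MeasurableSpace I]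
  [MeasurableSingletonClass I] [Nonempty I] in
lemma Ico_b_ge (S : Sys I J K) {κ : ℝ} (hκ0 : 0 < κ) (hκ : ∀ x, κ ≤ S.b x) {r r' : ℝ}
    (hr' : 0 < r') (hr'r : r' ≤ r) (hr1 : r ≤ 1) (w : ℕ → I) :
    κ * (r' / r) ≤ ∏ m ∈ Finset.Ico (S.ly w r) (S.ly w r'), S.b (w m) :=
  Ico_a_ge S.swap hκ0 hκ hr' hr'r hr1 w

omit [DecidableEq I] [DecidableEq J] [DecidableEq K] [MeasurableSpace I]
  [MeasurableSingletonClass I] [Nonempty I] in
lemma Ico_b_le (S : Sys I J K) {κ : ℝ} (hκ0 : 0 < κ) (hκ : ∀ x, κ ≤ S.b x) {r r' : ℝ}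
    (hr' : 0 < r') (hr'r : r' ≤ r) (hr1 : r ≤ 1) (w : ℕ → I) :
    ∏ m ∈ Finset.Ico (S.ly w r) (S.ly w r'), S.b (w m) ≤ κ⁻¹ * (r' / r) :=
  Ico_a_le S.swap hκ0 hκ hr' hr'r hr1 w

omit [DecidableEq I] [DecidableEq J] [DecidableEq K] [MeasurableSpace I]
  [MeasurableSingletonClass I] [Nonempty I] in
/-- stopping times of a member of a class at a smaller scale -/
lemma stops_of_mem (S : Sys I J K) {r r' : ℝ} (hr' : 0 < r') (hr'r : r' ≤ r) {i i' : ℕ → I}
    (h : i' ∈ S.Q r i) : S.kx i' r = S.kx i r ∧ S.ly i' r = S.ly i r ∧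
      S.kx i r ≤ S.kx i' r' ∧ S.ly i r ≤ S.ly i' r' := by
  have hr : 0 < r := hr'.trans_le hr'r
  have h1 := kx_eq S hr h
  have h2 := ly_eq S hr h
  have h3 := (Q_mono S hr' hr'r i').2
  rw [h1, h2] at h3
  exact ⟨h1, h2, h3.1, h3.2⟩

/-- A1. -/
theorem lower_A (S : Sys I J K) (e : Expo S) {α : ℝ} (hα : ∀ x, e.s x ≤ α) :
    ∃ c : ℝ, 0 < c ∧ ∀ (r : ℝ) (i : ℕ → I), 0 < r → r ≤ 1 →
      ∃ ν : Measure (ℕ → I), IsProbabilityMeasure ν ∧
        ∀ (r' : ℝ) (i' : ℕ → I), 0 < r' → r' ≤ r → i' ∈ S.Q r i → S.kx i' r' ≤ S.ly i' r' →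
          ENNReal.ofReal (c * (r' / r) ^ (α + e.β)) ≤ ν (S.Q r' i') := by
  obtain ⟨κ, hκ0, hκ1, hκ⟩ := exists_lower S
  have hα0 : 0 ≤ α := (e.s_nonneg (Classical.arbitrary I)).trans (hα _)
  have hβ0 := e.β_nonneg
  refine ⟨κ ^ (α + e.β), Real.rpow_pos_of_pos hκ0 _, ?_⟩
  intro r i hr hr1
  obtain ⟨ν, hν, -, hνlow, -⟩ := exists_class_measure S e (S.kx i r) (S.ly i r) i
  refine ⟨ν, hν, ?_⟩
  intro r' i' hr' hr'r hi' hkl
  obtain ⟨h1, h2, h3, h4⟩ := stops_of_mem S hr' hr'r hi'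
  refine le_trans ?_ (hνlow (S.kx i' r') (S.ly i' r') i' h3 h4 hkl hi')
  apply ENNReal.ofReal_le_ofReal
  have hA : (κ * (r' / r)) ^ α ≤
      ∏ m ∈ Finset.Ico (S.kx i r) (S.kx i' r'), S.a (i' m) ^ e.s (i' m) := by
    calc (κ * (r' / r)) ^ α
        ≤ (∏ m ∈ Finset.Ico (S.kx i r) (S.kx i' r'), S.a (i' m)) ^ α := by
          apply Real.rpow_le_rpow (by positivity) _ hα0
          rw [← h1]
          exact Ico_a_ge S hκ0 (fun x => (hκ x).1) hr' hr'r hr1 i'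
      _ = ∏ m ∈ Finset.Ico (S.kx i r) (S.kx i' r'), S.a (i' m) ^ α :=
          (Real.finsetProd_rpow _ _ (fun m _ => (S.a_pos _).le) _).symm
      _ ≤ _ := Finset.prod_le_prod (fun m _ => Real.rpow_nonneg (S.a_pos _).le _)
          (fun m _ => Real.rpow_le_rpow_of_exponent_ge (S.a_pos _) (S.a_lt _).le (hα _))
  have hB : (κ * (r' / r)) ^ e.β ≤
      ∏ m ∈ Finset.Ico (S.ly i r) (S.ly i' r'), S.b (i' m) ^ e.β := by
    rw [Real.finsetProd_rpow _ _ (fun m _ => (S.b_pos _).le)]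
    apply Real.rpow_le_rpow (by positivity) _ hβ0
    rw [← h2]
    exact Ico_b_ge S hκ0 (fun x => (hκ x).2) hr' hr'r hr1 i'
  calc κ ^ (α + e.β) * (r' / r) ^ (α + e.β) = (κ * (r' / r)) ^ (α + e.β) :=
        (Real.mul_rpow hκ0.le (by positivity)).symm
    _ = (κ * (r' / r)) ^ α * (κ * (r' / r)) ^ e.β := Real.rpow_add (by positivity) _ _
    _ ≤ _ := mul_le_mul hA hB (by positivity)
        (Finset.prod_nonneg fun m _ => Real.rpow_nonneg (S.a_pos _).le _)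

/-- A2. -/
theorem upper_A (S : Sys I J K) (e : Expo S) {σ : ℝ} (hσ0 : 0 ≤ σ) (hσ : ∀ x, σ ≤ e.s x) :
    ∃ C : ℝ, 0 < C ∧ ∀ (r : ℝ) (i : ℕ → I), 0 < r → r ≤ 1 → S.kx i r ≤ S.ly i r →
      ∃ ν : Measure (ℕ → I), IsProbabilityMeasure ν ∧ ν (S.Q r i) = 1 ∧
        ∀ (r' : ℝ) (i' : ℕ → I), 0 < r' → r' ≤ r → i' ∈ S.Q r i →
          ν (S.Q r' i') ≤ ENNReal.ofReal (C * (r' / r) ^ (σ + e.β)) := by
  obtain ⟨κ, hκ0, hκ1, hκ⟩ := exists_lower S
  have hβ0 := e.β_nonneg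
  refine ⟨κ⁻¹ ^ (σ + e.β), Real.rpow_pos_of_pos (inv_pos.2 hκ0) _, ?_⟩
  intro r i hr hr1 hkl
  obtain ⟨ν, hν, hν1, -, hνup⟩ := exists_class_measure S e (S.kx i r) (S.ly i r) i
  refine ⟨ν, hν, hν1, ?_⟩
  intro r' i' hr' hr'r hi'
  obtain ⟨h1, h2, h3, h4⟩ := stops_of_mem S hr' hr'r hi'
  refine le_trans (hνup hkl (S.kx i' r') (S.ly i' r') i' σ h3 h4 hi' hσ0 hσ) ?_
  apply ENNReal.ofReal_le_ofReal
  have hA : ∏ m ∈ Finset.Ico (S.kx i r) (S.kx i' r'),
      (if m < S.ly i' r' then S.a (i' m) ^ e.s (i' m) else S.a (i' m) ^ σ) ≤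
      (κ⁻¹ * (r' / r)) ^ σ := by
    calc ∏ m ∈ Finset.Ico (S.kx i r) (S.kx i' r'),
          (if m < S.ly i' r' then S.a (i' m) ^ e.s (i' m) else S.a (i' m) ^ σ)
        ≤ ∏ m ∈ Finset.Ico (S.kx i r) (S.kx i' r'), S.a (i' m) ^ σ := by
          apply Finset.prod_le_prod
          · intro m _
            split_ifs <;> exact Real.rpow_nonneg (S.a_pos _).le _
          · intro m _
            split_ifs
            · exact Real.rpow_le_rpow_of_exponent_ge (S.a_pos _) (S.a_lt _).le (hσ _)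
            · exact le_rfl
      _ = (∏ m ∈ Finset.Ico (S.kx i r) (S.kx i' r'), S.a (i' m)) ^ σ :=
          Real.finsetProd_rpow _ _ (fun m _ => (S.a_pos _).le) _
      _ ≤ _ := by
          apply Real.rpow_le_rpow (Finset.prod_nonneg fun m _ => (S.a_pos _).le) _ hσ0
          rw [← h1]
          exact Ico_a_le S hκ0 (fun x => (hκ x).1) hr' hr'r hr1 i'
  have hB : ∏ m ∈ Finset.Ico (S.ly i r) (S.ly i' r'), S.b (i' m) ^ e.β ≤
      (κ⁻¹ * (r' / r)) ^ e.β := by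
    rw [Real.finsetProd_rpow _ _ (fun m _ => (S.b_pos _).le)]
    apply Real.rpow_le_rpow (Finset.prod_nonneg fun m _ => (S.b_pos _).le) _ hβ0
    rw [← h2]
    exact Ico_b_le S hκ0 (fun x => (hκ x).2) hr' hr'r hr1 i'
  calc _ ≤ (κ⁻¹ * (r' / r)) ^ σ * (κ⁻¹ * (r' / r)) ^ e.β :=
        mul_le_mul hA hB (Finset.prod_nonneg fun m _ => Real.rpow_nonneg (S.b_pos _).le _)
          (by positivity)
    _ = (κ⁻¹ * (r' / r)) ^ (σ + e.β) := (Real.rpow_add (by positivity) _ _).symm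
    _ = κ⁻¹ ^ (σ + e.β) * (r' / r) ^ (σ + e.β) := Real.mul_rpow (by positivity) (by positivity)

/-- A3. -/
theorem rich_A (S : Sys I J K) (e : Expo S) (h : ∃ x, S.a x < S.b x) (y : I) :
    SymRich S (e.s y + e.β) := by
  obtain ⟨x0, hx0⟩ := h
  obtain ⟨κ, hκ0, hκ1, hκ⟩ := exists_lower S
  obtain ⟨A, hA1, hA⟩ := exists_bound S
  have hA0 : 0 < A := (S.a_pos x0).trans_le (hA x0).1
  have hβ0 := e.β_nonneg
  have hσ0 : 0 ≤ e.s y := e.s_nonneg _
  refine ⟨κ⁻¹ ^ (e.s y + e.β), Real.rpow_pos_of_pos (inv_pos.2 hκ0) _, ?_⟩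
  intro ε hε0 hε1
  -- choice of the length
  obtain ⟨N1, hN1⟩ := exists_pow_lt_of_lt_one hε0 hA1
  have hx0a := S.a_pos x0
  have hx0b := S.b_pos x0
  obtain ⟨N, hN⟩ := exists_pow_lt_of_lt_one (show 0 < κ ^ N1 by positivity)
    (show S.a x0 / S.b x0 < 1 by rw [div_lt_one hx0b]; exact hx0)
  have hN' : S.a x0 ^ N < κ ^ N1 * S.b x0 ^ N := by
    rw [div_pow, div_lt_iff₀ (by positivity)] at hN
    exact hN
  let i : ℕ → I := fun m => if m < N then x0 else y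
  have hi0 : ∀ m < N, i m = x0 := fun m hm => by simp [i, hm]
  have hi1 : ∀ m, N ≤ m → i m = y := fun m hm => by simp [i, not_lt.2 hm]
  set r : ℝ := S.a x0 ^ N with hr
  have hr0 : 0 < r := by positivity
  have hr1 : r ≤ 1 := pow_le_one₀ hx0a.le (S.a_lt x0).le
  have hpa : ∀ k ≤ N, ∏ n ∈ Finset.range k, S.a (i n) = S.a x0 ^ k := by
    intro k hk
    rw [Finset.prod_congr rfl (fun n hn => by rw [hi0 n ((Finset.mem_range.1 hn).trans_le hk)]),
      Finset.prod_const, Finset.card_range]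
  have hpb : ∏ n ∈ Finset.range N, S.b (i n) = S.b x0 ^ N := by
    rw [Finset.prod_congr rfl (fun n hn => by rw [hi0 n (Finset.mem_range.1 hn)]),
      Finset.prod_const, Finset.card_range]
  have hkx : S.kx i r = N := by
    apply le_antisymm
    · exact stop_le_of (by rw [hpa N le_rfl])
    · by_contra hlt
      push Not at hlt
      have h1 := prod_kx_le S hr0 i
      rw [hpa _ hlt.le, hr] at h1
      exact absurd h1 (not_le.2 (pow_lt_pow_right_of_lt_one₀ hx0a (S.a_lt x0) hlt))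
  set l := S.ly i r with hl
  have hlN : N + N1 < l := by
    by_contra hlt
    push Not at hlt
    have h1 := prod_ly_le S hr0 i
    rw [← hl] at h1
    have h2 : ∏ n ∈ Finset.range (N + N1), S.b (i n) ≤ ∏ n ∈ Finset.range l, S.b (i n) :=
      prod_anti (fun n => S.b_pos _) (fun n => (S.b_lt _).le) hlt
    have h3 : κ ^ N1 * S.b x0 ^ N ≤ ∏ n ∈ Finset.range (N + N1), S.b (i n) := by
      rw [Finset.prod_range_add, hpb, mul_comm]
      apply mul_le_mul_of_nonneg_left _ (by positivity)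
      calc κ ^ N1 = ∏ _n ∈ Finset.range N1, κ := by simp
        _ ≤ _ := Finset.prod_le_prod (fun n _ => hκ0.le) (fun n _ => (hκ _).2)
    linarith
  obtain ⟨ν, hν, hν1, -, hνup⟩ := exists_class_measure S e N l i
  refine ⟨r, i, hr0, hr1, ν, hν, ?_, ?_⟩
  · unfold Sys.Q
    rw [hkx, ← hl]
    exact hν1
  intro i' hi'
  have hεr : 0 < ε * r := by positivity
  have hεrr : ε * r ≤ r := by nlinarith
  obtain ⟨h1, h2, h3, h4⟩ := stops_of_mem S hεr hεrr hi'
  have hmem : i' ∈ S.cls N l i := by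
    have := hi'
    unfold Sys.Q at this
    rwa [hkx, ← hl] at this
  rw [hkx] at h1 h3
  rw [← hl] at h2 h4
  set k' := S.kx i' (ε * r) with hk'
  set l' := S.ly i' (ε * r) with hl'
  have hPi'N : ∏ n ∈ Finset.range N, S.a (i' n) = r := by
    rw [hr, ← hpa N le_rfl]
    exact Finset.prod_congr rfl fun n hn => S.col_a _ _ (hmem.1 n (Finset.mem_range.1 hn))
  have hk'l : k' ≤ l := by
    apply stop_le_of
    obtain ⟨j, hj⟩ := Nat.exists_eq_add_of_le (show N ≤ l by omega)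
    rw [hj, Finset.prod_range_add, hPi'N]
    have h1 : ∏ x ∈ Finset.range j, S.a (i' (N + x)) ≤ A ^ j := by
      calc ∏ x ∈ Finset.range j, S.a (i' (N + x)) ≤ ∏ _x ∈ Finset.range j, A :=
            Finset.prod_le_prod (fun n _ => (S.a_pos _).le) (fun n _ => (hA _).1)
        _ = A ^ j := by simp
    have h2 : A ^ j ≤ A ^ N1 := pow_le_pow_of_le_one hA0.le hA1.le (by omega)
    calc r * ∏ x ∈ Finset.range j, S.a (i' (N + x)) ≤ r * ε :=
          mul_le_mul_of_nonneg_left (by linarith) hr0.le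
      _ = ε * r := mul_comm _ _
  obtain ⟨xm, hxm⟩ := Finite.exists_min e.s
  refine le_trans (hνup (by omega) k' l' i' (e.s xm) h3 h4 hmem (e.s_nonneg _) hxm) ?_
  apply ENNReal.ofReal_le_ofReal
  have hA' : ∏ m ∈ Finset.Ico N k',
      (if m < l' then S.a (i' m) ^ e.s (i' m) else S.a (i' m) ^ e.s xm) ≤ (κ⁻¹ * ε) ^ e.s y := by
    calc ∏ m ∈ Finset.Ico N k',
          (if m < l' then S.a (i' m) ^ e.s (i' m) else S.a (i' m) ^ e.s xm)
        = ∏ m ∈ Finset.Ico N k', S.a (i' m) ^ e.s y := by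
          apply Finset.prod_congr rfl
          intro m hm
          rw [Finset.mem_Ico] at hm
          rw [if_pos (by omega), e.s_row (i' m) y]
          rw [hmem.2 m (by omega), hi1 m hm.1]
      _ = (∏ m ∈ Finset.Ico N k', S.a (i' m)) ^ e.s y :=
          Real.finsetProd_rpow _ _ (fun m _ => (S.a_pos _).le) _
      _ ≤ _ := by
          apply Real.rpow_le_rpow (Finset.prod_nonneg fun m _ => (S.a_pos _).le) _ hσ0
          have h5 := Ico_a_le S hκ0 (fun x => (hκ x).1) hεr hεrr hr1 i'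
          rw [h1, ← hk', mul_div_cancel_right₀ _ hr0.ne'] at h5
          exact h5
  have hB : ∏ m ∈ Finset.Ico l l', S.b (i' m) ^ e.β ≤ (κ⁻¹ * ε) ^ e.β := by
    rw [Real.finsetProd_rpow _ _ (fun m _ => (S.b_pos _).le)]
    apply Real.rpow_le_rpow (Finset.prod_nonneg fun m _ => (S.b_pos _).le) _ hβ0
    have h5 := Ico_b_le S hκ0 (fun x => (hκ x).2) hεr hεrr hr1 i'
    rw [h2, ← hl', mul_div_cancel_right₀ _ hr0.ne'] at h5
    exact h5
  calc _ ≤ (κ⁻¹ * ε) ^ e.s y * (κ⁻¹ * ε) ^ e.β :=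
        mul_le_mul hA' hB (Finset.prod_nonneg fun m _ => Real.rpow_nonneg (S.b_pos _).le _)
          (by positivity)
    _ = (κ⁻¹ * ε) ^ (e.s y + e.β) := (Real.rpow_add (by positivity) _ _).symm
    _ = κ⁻¹ ^ (e.s y + e.β) * ε ^ (e.s y + e.β) := Real.mul_rpow (by positivity) hε0.le

/-! ### exchanging the coordinates -/

omit [Fintype I] [Nonempty I] [DecidableEq I] [DecidableEq J] [DecidableEq K] [MeasurableSpace I]
  [MeasurableSingletonClass I] in
lemma Q_swap (S : Sys I J K) (r : ℝ) (i : ℕ → I) : S.swap.Q r i = S.Q r i := by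
  ext z
  exact and_comm

omit [Fintype I] [Nonempty I] [DecidableEq I] [DecidableEq J] [DecidableEq K]
  [MeasurableSingletonClass I] in
lemma SymRich.of_swap {S : Sys I J K} {D : ℝ} (h : SymRich S.swap D) : SymRich S D := by
  simpa only [SymRich, Q_swap] using h

omit [Fintype I] [Nonempty I] [DecidableEq I] [DecidableEq J] [DecidableEq K]
  [MeasurableSingletonClass I] in
lemma SymLower.of_swap {S : Sys I J K} {D : ℝ} (h : SymLower S.swap D) : SymLower S D := by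
  simpa only [SymLower, Q_swap] using h

omit [Fintype I] [Nonempty I] [DecidableEq I] [DecidableEq J] [DecidableEq K]
  [MeasurableSingletonClass I] in
lemma SymUpper.of_swap {S : Sys I J K} {D : ℝ} (h : SymUpper S.swap D) : SymUpper S D := by
  simpa only [SymUpper, Q_swap] using h

omit [Fintype I] [Nonempty I] [DecidableEq I] [DecidableEq J] [DecidableEq K]
  [MeasurableSingletonClass I] in
lemma SymPoor.of_swap {S : Sys I J K} {D : ℝ} (h : SymPoor S.swap D) : SymPoor S D := by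
  obtain ⟨C, c0, hC, hc0, h⟩ := h
  refine ⟨C, c0, hC, hc0, fun ε h1 h2 => ?_⟩
  obtain ⟨r, i, h3, h4, ν, h5, h6⟩ := h ε h1 h2
  refine ⟨r, i, h3, h4, ν, h5, fun i' h7 h8 => ?_⟩
  rw [← Q_swap]
  exact h6 i' h8 h7

/-! ### one of the two types only -/

/-- If `a ≤ b` and some inequality is strict. -/
lemma exists_sym_le (S : Sys I J K) (hle : ∀ x, S.a x ≤ S.b x) (hlt : ∃ x, S.a x < S.b x) :
    ∃ D D' : ℝ, 0 ≤ D ∧ 0 ≤ D' ∧ SymLower S D ∧ SymRich S D ∧ SymUpper S D' ∧ SymPoor S D' := by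
  obtain ⟨e⟩ := exists_expo S
  obtain ⟨x1, hx1⟩ := Finite.exists_max e.s
  obtain ⟨x2, hx2⟩ := Finite.exists_min e.s
  obtain ⟨A, hA1, hA⟩ := exists_bound S
  have hkl : ∀ (r : ℝ) (i : ℕ → I), 0 < r → S.kx i r ≤ S.ly i r := by
    intro r i hr
    apply stop_le_of
    calc ∏ m ∈ Finset.range (S.ly i r), S.a (i m) ≤ ∏ m ∈ Finset.range (S.ly i r), S.b (i m) :=
          Finset.prod_le_prod (fun m _ => (S.a_pos _).le) (fun m _ => hle _)
      _ ≤ r := prod_ly_le S hr i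
  refine ⟨e.s x1 + e.β, e.s x2 + e.β, add_nonneg (e.s_nonneg _) e.β_nonneg,
    add_nonneg (e.s_nonneg _) e.β_nonneg, ?_, rich_A S e hlt x1, ?_, poor_A S e hlt x2⟩
  · obtain ⟨c, hc, h⟩ := lower_A S e hx1
    refine ⟨c, hc, fun r i hr hr1 => ?_⟩
    obtain ⟨ν, hν, h2⟩ := h r i hr hr1
    exact ⟨ν, hν.measure_univ.le, fun r' i' hr' hr'r hi' => h2 r' i' hr' hr'r hi' (hkl r' i' hr')⟩
  · obtain ⟨C, hC, h⟩ := upper_A S e (e.s_nonneg x2) hx2
    exact ⟨C, hC, fun r i hr hr1 => h r i hr hr1 (hkl r i hr)⟩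

omit [DecidableEq J] [DecidableEq K] in
/-- The similarity case. -/
lemma exists_sym_eq (S : Sys I J K) (heq : ∀ x, S.a x = S.b x) :
    ∃ D D' : ℝ, 0 ≤ D ∧ 0 ≤ D' ∧ SymLower S D ∧ SymRich S D ∧ SymUpper S D' ∧ SymPoor S D' := by
  obtain ⟨δ, hδ0, hδ⟩ := exists_sim_measure S heq
  obtain ⟨κ, hκ0, hκ1, hκ⟩ := exists_lower S
  have hkl : ∀ (r : ℝ) (i : ℕ → I), S.ly i r = S.kx i r := by
    intro r i
    unfold Sys.kx Sys.ly
    simp only [heq]
  have hQ : ∀ (r : ℝ) (i : ℕ → I), S.Q r i = S.cls (S.kx i r) (S.kx i r) i := by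
    intro r i
    rw [Sys.Q, hkl]
  -- the measures and their values
  have key : ∀ (r : ℝ) (i : ℕ → I), 0 < r → r ≤ 1 → ∃ ν : Measure (ℕ → I),
      IsProbabilityMeasure ν ∧ ν (S.Q r i) = 1 ∧
      ∀ (r' : ℝ) (i' : ℕ → I), 0 < r' → r' ≤ r → i' ∈ S.Q r i →
        ENNReal.ofReal (κ ^ δ * (r' / r) ^ δ) ≤ ν (S.Q r' i') ∧
        ν (S.Q r' i') ≤ ENNReal.ofReal (κ⁻¹ ^ δ * (r' / r) ^ δ) := by
    intro r i hr hr1
    obtain ⟨ν, hν, hν1, h⟩ := hδ (S.kx i r) i
    refine ⟨ν, hν, by rw [hQ]; exact hν1, ?_⟩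
    intro r' i' hr' hr'r hi'
    obtain ⟨h1, -, h3, -⟩ := stops_of_mem S hr' hr'r hi'
    rw [hQ] at hi'
    rw [hQ r' i', h (S.kx i' r') i' h3 hi', Real.finsetProd_rpow _ _ (fun m _ => (S.a_pos _).le),
      ← Real.mul_rpow hκ0.le (by positivity), ← Real.mul_rpow (inv_pos.2 hκ0).le (by positivity),
      ← h1]
    constructor
    · apply ENNReal.ofReal_le_ofReal
      exact Real.rpow_le_rpow (by positivity)
        (Ico_a_ge S hκ0 (fun x => (hκ x).1) hr' hr'r hr1 i') hδ0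
    · apply ENNReal.ofReal_le_ofReal
      exact Real.rpow_le_rpow (Finset.prod_nonneg fun m _ => (S.a_pos _).le)
        (Ico_a_le S hκ0 (fun x => (hκ x).1) hr' hr'r hr1 i') hδ0
  have hQ1 : ∀ i i' : ℕ → I, i' ∈ S.Q 1 i := by
    intro i i'
    have h1 : S.kx i 1 = 0 := Nat.le_zero.1 (stop_le_of (by simp))
    rw [hQ, h1]
    exact ⟨fun m hm => absurd hm (Nat.not_lt_zero _), fun m hm => absurd hm (Nat.not_lt_zero _)⟩
  refine ⟨δ, δ, hδ0, hδ0, ?_, ?_, ?_, ?_⟩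
  · refine ⟨κ ^ δ, Real.rpow_pos_of_pos hκ0 _, fun r i hr hr1 => ?_⟩
    obtain ⟨ν, hν, -, h⟩ := key r i hr hr1
    exact ⟨ν, hν.measure_univ.le, fun r' i' hr' hr'r hi' => (h r' i' hr' hr'r hi').1⟩
  · refine ⟨κ⁻¹ ^ δ, Real.rpow_pos_of_pos (inv_pos.2 hκ0) _, fun ε hε0 hε1 => ?_⟩
    obtain ⟨ν, hν, hν1, h⟩ := key 1 (fun _ => Classical.arbitrary I) one_pos le_rfl
    refine ⟨1, _, one_pos, le_rfl, ν, hν, hν1, fun i' hi' => ?_⟩
    have := (h (ε * 1) i' (by linarith) (by linarith) hi').2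
    simpa using this
  · refine ⟨κ⁻¹ ^ δ, Real.rpow_pos_of_pos (inv_pos.2 hκ0) _, fun r i hr hr1 => ?_⟩
    obtain ⟨ν, hν, hν1, h⟩ := key r i hr hr1
    exact ⟨ν, hν, hν1, fun r' i' hr' hr'r hi' => (h r' i' hr' hr'r hi').2⟩
  · have hpos := Real.rpow_pos_of_pos hκ0 δ
    refine ⟨1 / κ ^ δ, 1, by positivity, one_pos, fun ε hε0 hε1 => ?_⟩
    obtain ⟨ν, hν, hν1, h⟩ := key 1 (fun _ => Classical.arbitrary I) one_pos le_rfl
    refine ⟨1, fun _ => Classical.arbitrary I, one_pos, le_rfl, ν, hν, fun i' _ _ => ?_⟩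
    have := (h (ε * 1) i' (by linarith) (by linarith) (hQ1 _ _)).1
    refine le_trans (le_of_eq ?_) this
    congr 1
    rw [mul_one, div_one, div_div_eq_mul_div, div_one, mul_comm]

/-- Both types occur. -/
lemma exists_sym_both (S : Sys I J K) (h1 : ∃ x, S.a x < S.b x) (h2 : ∃ x, S.b x < S.a x) :
    ∃ D D' : ℝ, 0 ≤ D ∧ 0 ≤ D' ∧ SymLower S D ∧ SymRich S D ∧ SymUpper S D' ∧ SymPoor S D' := by
  obtain ⟨e⟩ := exists_expo S
  obtain ⟨f⟩ := exists_expo S.swap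
  obtain ⟨x1, hx1⟩ := Finite.exists_max e.s
  obtain ⟨x2, hx2⟩ := Finite.exists_min e.s
  obtain ⟨y1, hy1⟩ := Finite.exists_max f.s
  obtain ⟨y2, hy2⟩ := Finite.exists_min f.s
  have he := e.β_nonneg
  have hf := f.β_nonneg
  have n1 := e.s_nonneg x1
  have n2 := e.s_nonneg x2
  have n3 := f.s_nonneg y1
  have n4 := f.s_nonneg y2
  refine ⟨max (e.s x1 + e.β) (f.s y1 + f.β), min (e.s x2 + e.β) (f.s y2 + f.β),
    le_max_of_le_left (by linarith), le_min (by linarith) (by linarith), ?_, ?_, ?_, ?_⟩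
  · -- lower measures
    obtain ⟨c, hc, hA⟩ := lower_A S e hx1
    obtain ⟨d, hd, hB⟩ := lower_A S.swap f hy1
    refine ⟨min c d / 2, by positivity, fun r i hr hr1 => ?_⟩
    obtain ⟨ν, hν, hν2⟩ := hA r i hr hr1
    obtain ⟨ρ, hρ, hρ2⟩ := hB r i hr hr1
    refine ⟨(2⁻¹ : ENNReal) • ν + (2⁻¹ : ENNReal) • ρ, ?_, ?_⟩
    · rw [Measure.add_apply, Measure.smul_apply, Measure.smul_apply, hν.measure_univ,
        hρ.measure_univ, smul_eq_mul, mul_one]
      exact ENNReal.inv_two_add_inv_two.le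
    · intro r' i' hr' hr'r hi'
      have hq0 : 0 < r' / r := by positivity
      have hq1 : r' / r ≤ 1 := (div_le_one hr).2 hr'r
      -- comparison of the bounds
      have cmp : ∀ (c' E : ℝ), 0 < c' → min c d ≤ c' → E ≤ max (e.s x1 + e.β) (f.s y1 + f.β) →
          ENNReal.ofReal (min c d / 2 * (r' / r) ^ (max (e.s x1 + e.β) (f.s y1 + f.β))) ≤
          2⁻¹ * ENNReal.ofReal (c' * (r' / r) ^ E) := by
        intro c' E hc' hcc hE
        have e2 : (2⁻¹ : ENNReal) = ENNReal.ofReal (2⁻¹) := by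
          rw [ENNReal.ofReal_inv_of_pos (by norm_num)]
          norm_num
        rw [e2, ← ENNReal.ofReal_mul (by norm_num)]
        apply ENNReal.ofReal_le_ofReal
        have h3 : (r' / r) ^ (max (e.s x1 + e.β) (f.s y1 + f.β)) ≤ (r' / r) ^ E :=
          Real.rpow_le_rpow_of_exponent_ge hq0 hq1 hE
        have h4 : 0 < min c d := lt_min hc hd
        have h5 : 0 < (r' / r) ^ E := Real.rpow_pos_of_pos hq0 _
        calc min c d / 2 * (r' / r) ^ (max (e.s x1 + e.β) (f.s y1 + f.β))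
            ≤ min c d / 2 * (r' / r) ^ E := mul_le_mul_of_nonneg_left h3 (by positivity)
          _ ≤ c' / 2 * (r' / r) ^ E := mul_le_mul_of_nonneg_right (by linarith) h5.le
          _ = 2⁻¹ * (c' * (r' / r) ^ E) := by ring
      rw [Measure.add_apply, Measure.smul_apply, Measure.smul_apply, smul_eq_mul, smul_eq_mul]
      rcases le_total (S.kx i' r') (S.ly i' r') with hk | hk
      · refine le_trans (cmp c _ hc (min_le_left _ _) (le_max_left _ _)) ?_
        refine le_trans ?_ (le_add_of_nonneg_right zero_le)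
        exact mul_le_mul' le_rfl (hν2 r' i' hr' hr'r hi' hk)
      · refine le_trans (cmp d _ hd (min_le_right _ _) (le_max_right _ _)) ?_
        refine le_trans ?_ (le_add_of_nonneg_left zero_le)
        have h3 := hρ2 r' i' hr' hr'r (by rw [Q_swap]; exact hi') hk
        rw [Q_swap] at h3
        exact mul_le_mul' le_rfl h3
  · rcases le_total (e.s x1 + e.β) (f.s y1 + f.β) with h | h
    · rw [max_eq_right h]
      exact (rich_A S.swap f h2 y1).of_swap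
    · rw [max_eq_left h]
      exact rich_A S e h1 x1
  · -- upper measures
    obtain ⟨c, hc, hA⟩ := upper_A S e (e.s_nonneg x2) hx2
    obtain ⟨d, hd, hB⟩ := upper_A S.swap f (f.s_nonneg y2) hy2
    refine ⟨max c d, lt_max_of_lt_left hc, fun r i hr hr1 => ?_⟩
    have cmp : ∀ (r' c' E : ℝ), 0 < r' → r' ≤ r → c' ≤ max c d →
        min (e.s x2 + e.β) (f.s y2 + f.β) ≤ E →
        ENNReal.ofReal (c' * (r' / r) ^ E) ≤
        ENNReal.ofReal (max c d * (r' / r) ^ (min (e.s x2 + e.β) (f.s y2 + f.β))) := by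
      intro r' c' E hr' hr'r hcc hE
      have hq0 : 0 < r' / r := by positivity
      have hq1 : r' / r ≤ 1 := (div_le_one hr).2 hr'r
      apply ENNReal.ofReal_le_ofReal
      have h3 : (r' / r) ^ E ≤ (r' / r) ^ (min (e.s x2 + e.β) (f.s y2 + f.β)) :=
        Real.rpow_le_rpow_of_exponent_ge hq0 hq1 hE
      have h5 : 0 < (r' / r) ^ E := Real.rpow_pos_of_pos hq0 _
      have h6 : 0 < max c d := lt_max_of_lt_left hc
      exact (mul_le_mul_of_nonneg_right hcc h5.le).trans (mul_le_mul_of_nonneg_left h3 h6.le)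
    rcases le_total (S.kx i r) (S.ly i r) with hk | hk
    · obtain ⟨ν, hν, hν1, h⟩ := hA r i hr hr1 hk
      exact ⟨ν, hν, hν1, fun r' i' hr' hr'r hi' => (h r' i' hr' hr'r hi').trans
        (cmp r' c _ hr' hr'r (le_max_left _ _) (min_le_left _ _))⟩
    · obtain ⟨ν, hν, hν1, h⟩ := hB r i hr hr1 hk
      refine ⟨ν, hν, by rw [← Q_swap]; exact hν1, fun r' i' hr' hr'r hi' => ?_⟩
      have h3 := h r' i' hr' hr'r (by rw [Q_swap]; exact hi')
      rw [Q_swap] at h3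
      exact h3.trans (cmp r' d _ hr' hr'r (le_max_right _ _) (min_le_right _ _))
  · rcases le_total (e.s x2 + e.β) (f.s y2 + f.β) with h | h
    · rw [min_eq_left h]
      exact poor_A S e h1 x2
    · rw [min_eq_right h]
      exact (poor_A S.swap f h2 y2).of_swap

/-- Combination. -/
theorem exists_sym (S : Sys I J K) :
    ∃ D D' : ℝ, 0 ≤ D ∧ 0 ≤ D' ∧ SymLower S D ∧ SymRich S D ∧ SymUpper S D' ∧ SymPoor S D' := by
  by_cases h1 : ∃ x, S.a x < S.b x <;> by_cases h2 : ∃ x, S.b x < S.a x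
  · exact exists_sym_both S h1 h2
  · push Not at h2
    exact exists_sym_le S h2 h1
  · push Not at h1
    obtain ⟨D, D', h3, h4, h5, h6, h7, h8⟩ := exists_sym_le S.swap h1 h2
    exact ⟨D, D', h3, h4, h5.of_swap, h6.of_swap, h7.of_swap, h8.of_swap⟩
  · push Not at h1 h2
    exact exists_sym_eq S fun x => le_antisymm (h2 x) (h1 x)

end SymA

end Pool.Agent.CarpetMeasures
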