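import Pool.Agent.CarpetMeasures.Carpet
import Pool.Agent.CarpetMeasures.SymA
import Pool.Agent.CarpetMeasures.LocalLower
import Pool.Agent.CarpetMeasures.LocalUpper

/-!
# Assembly
-/

set_option autoImplicit false

open MeasureTheory Set Metric Filter Topology

namespace Pool.Agent.CarpetMeasures

section Push

variable {F : Set Plane} (μ : Measure F)

lemma map_closedBall (x : F) (r : ℝ) :
    μ.map Subtype.val (closedBall (x : Plane) r) = μ (closedBall x r) := by
  rw [Measure.map_apply measurable_subtype_coe isClosed_closedBall.measurableSet]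
  rfl

lemma map_compl (hF : MeasurableSet F) : μ.map Subtype.val Fᶜ = 0 := by
  rw [Measure.map_apply measurable_subtype_coe hF.compl]
  simp

lemma support_map (hF : IsClosed F) (hpos : ∀ (x : F) (r : ℝ), 0 < r → 0 < μ (closedBall x r)) :
    (μ.map Subtype.val : Measure Plane).support = F := by
  ext x
  rw [Measure.mem_support_iff_forall]
  constructor
  · intro h
    by_contra hx
    have := h Fᶜ (hF.isOpen_compl.mem_nhds hx)
    rw [map_compl μ hF.measurableSet] at this
    exact lt_irrefl _ this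
  · intro hx U hU
    obtain ⟨r, hr, hrU⟩ := Metric.nhds_basis_closedBall.mem_iff.1 hU
    refine lt_of_lt_of_le ?_ (measure_mono hrU)
    rw [map_closedBall μ ⟨x, hx⟩ r]
    exact hpos _ r hr

end Push

theorem sharp_measures {F : Set Plane} (hF : IsSelfAffineCarpet F) :
    (∃ μ : Measure Plane, IsFiniteMeasure μ ∧ μ.support = F ∧ μ Fᶜ = 0 ∧
      UpperCond F (assouadDim F) μ) ∧
    (∃ μ : Measure Plane, IsFiniteMeasure μ ∧ μ.support = F ∧ μ Fᶜ = 0 ∧
      LowerCond F (lowerDim F) μ) := by
  classical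
  obtain ⟨I, J, K, hI, hI2, S, hattr⟩ := exists_sys hF
  let : MeasurableSpace I := ⊤
  have : MeasurableSingletonClass I := ⟨fun _ => trivial⟩
  have : Nonempty I := hI2.to_nonempty
  obtain ⟨D, D', hD, hD', hlow, hrich, hup, hpoor⟩ :=
    exists_sym S
  have hcomp : IsCompact F := hattr.1
  have : CompactSpace F := isCompact_iff_compactSpace.1 hcomp
  have : Nonempty F := hattr.2.1.to_subtype
  have hclosed : IsClosed F := hcomp.isClosed
  have hmeas : MeasurableSet F := hclosed.measurableSet
  obtain ⟨c, hc, HL⟩ := lowerLocal S hattr hD hlow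
  obtain ⟨C, HU⟩ := upperLocal S hattr hD' hup
  have hdA := le_assouadDim S hattr hrich
  have hdL := lowerDim_le S hattr (diam_pos S hattr) hD' hpoor
  constructor
  · obtain ⟨μ, hμ, C1, hC1, hU⟩ := Nets.exists_measure_upper hD hc HL
    have hpos : ∀ (x : F) (r : ℝ), 0 < r → 0 < μ (closedBall x r) := by
      intro x r hr
      obtain ⟨R, hR⟩ := (isBounded_iff_subset_closedBall (x : Plane)).1 hcomp.isBounded
      have huniv : closedBall x (max R r) = univ := by
        ext z
        simp only [mem_closedBall, mem_univ, iff_true]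
        exact le_trans (hR z.2) (le_max_left _ _)
      have h1 := hU x r (max R r) hr (le_max_right _ _)
      rw [huniv, measure_univ] at h1
      by_contra h0
      rw [not_lt, nonpos_iff_eq_zero] at h0
      rw [h0, mul_zero] at h1
      exact absurd h1 (by simp)
    refine ⟨μ.map Subtype.val, inferInstance, support_map μ hclosed hpos, map_compl μ hmeas,
      C1, hC1, ?_⟩
    intro ρ hρ0 hρ1 x hx r hr
    rw [map_closedBall μ ⟨x, hx⟩ r, map_closedBall μ ⟨x, hx⟩ (ρ * r)]
    refine (hU ⟨x, hx⟩ (ρ * r) r (by positivity) (by nlinarith)).trans ?_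
    apply mul_le_mul_left
    apply ENNReal.ofReal_le_ofReal
    apply mul_le_mul_of_nonneg_left _ hC1.le
    rw [show r / (ρ * r) = ρ⁻¹ by field_simp, Real.inv_rpow hρ0.le, ← Real.rpow_neg hρ0.le]
    exact Real.rpow_le_rpow_of_exponent_ge hρ0 hρ1.le (by linarith)
  · obtain ⟨μ, hμ, hpos, d, hd, hL⟩ := Nets.exists_measure_lower hD' HU hD hc HL
    refine ⟨μ.map Subtype.val, inferInstance, support_map μ hclosed hpos, map_compl μ hmeas,
      d, hd, ?_⟩
    intro ρ hρ0 hρ1 x hx r hr hrdiam
    rw [map_closedBall μ ⟨x, hx⟩ r, map_closedBall μ ⟨x, hx⟩ (ρ * r)]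
    have hdiam : Metric.diam F ≤ 2 := by
      apply Metric.diam_le_of_forall_dist_le (by norm_num)
      intro p hp q hq
      obtain ⟨i, hi0, hi1⟩ := (mem_attractor_iff S hattr p).1 hp
      obtain ⟨j, hj0, hj1⟩ := (mem_attractor_iff S hattr q).1 hq
      obtain ⟨h1, h2, h3, h4⟩ := X_mem S i
      obtain ⟨h5, h6, h7, h8⟩ := X_mem S j
      have := dist_le_two_mul (p := p) (q := q) (r := 1) (by norm_num)
        (by rw [hi0, hj0, abs_le]; constructor <;> linarith)
        (by rw [hi1, hj1, abs_le]; constructor <;> linarith)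
      linarith
    refine le_trans ?_ (hL ⟨x, hx⟩ (ρ * r) r (by positivity) (by nlinarith) (by linarith))
    apply mul_le_mul_left
    apply ENNReal.ofReal_le_ofReal
    apply mul_le_mul_of_nonneg_left _ hd.le
    rw [show r / (ρ * r) = ρ⁻¹ by field_simp, Real.inv_rpow hρ0.le, ← Real.rpow_neg hρ0.le]
    exact Real.rpow_le_rpow_of_exponent_ge hρ0 hρ1.le (by linarith)

theorem sharp_upper {F : Set Plane} (hF : IsSelfAffineCarpet F) :
    ∃ μ : Measure Plane, IsFiniteMeasure μ ∧ μ.support = F ∧ μ Fᶜ = 0 ∧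
      UpperCond F (assouadDim F) μ := (sharp_measures hF).1

theorem sharp_lower {F : Set Plane} (hF : IsSelfAffineCarpet F) :
    ∃ μ : Measure Plane, IsFiniteMeasure μ ∧ μ.support = F ∧ μ Fᶜ = 0 ∧
      LowerCond F (lowerDim F) μ := (sharp_measures hF).2

end Pool.Agent.CarpetMeasures
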