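import Pool.Agent.CarpetMeasures.Defs

/-!
# Geometry of the coding for self-affine carpets
-/

set_option autoImplicit false

open MeasureTheory Set Filter Topology

namespace Pool.Agent.CarpetMeasures

/-! ### The one-dimensional coding map -/

section OneDim

variable {f g : ℕ → ℝ} {A : ℝ}

lemma prod_le_pow (hf0 : ∀ m, 0 < f m) (hfA : ∀ m, f m ≤ A) (k : ℕ) :
    ∏ m ∈ Finset.range k, f m ≤ A ^ k := by
  calc ∏ m ∈ Finset.range k, f m ≤ ∏ _m ∈ Finset.range k, A :=
        Finset.prod_le_prod (fun m _ => (hf0 m).le) (fun m _ => hfA m)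
    _ = A ^ k := by simp

lemma prod_range_pos (hf0 : ∀ m, 0 < f m) (k : ℕ) : 0 < ∏ m ∈ Finset.range k, f m :=
  Finset.prod_pos (fun m _ => hf0 m)

lemma tendsto_prod_zero (hf0 : ∀ m, 0 < f m) (hfA : ∀ m, f m ≤ A) (hA : A < 1) :
    Tendsto (fun k => ∏ m ∈ Finset.range k, f m) atTop (𝓝 0) := by
  have hA0 : 0 ≤ A := (hf0 0).le.trans (hfA 0)
  exact squeeze_zero (fun k => (prod_range_pos hf0 k).le) (prod_le_pow hf0 hfA)
    (tendsto_pow_atTop_nhds_zero_of_lt_one hA0 hA)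

lemma stop_nonempty (hf0 : ∀ m, 0 < f m) (hfA : ∀ m, f m ≤ A) (hA : A < 1) {r : ℝ} (hr : 0 < r) :
    {k : ℕ | ∏ m ∈ Finset.range k, f m ≤ r}.Nonempty := by
  obtain ⟨k, hk⟩ := ((tendsto_prod_zero hf0 hfA hA).eventually_lt_const hr).exists
  exact ⟨k, hk.le⟩

lemma prod_stop_le (hf0 : ∀ m, 0 < f m) (hfA : ∀ m, f m ≤ A) (hA : A < 1) {r : ℝ} (hr : 0 < r) :
    ∏ m ∈ Finset.range (stop f r), f m ≤ r :=
  Nat.sInf_mem (stop_nonempty hf0 hfA hA hr)

lemma lt_prod_of_lt_stop {r : ℝ} {k : ℕ} (hk : k < stop f r) : r < ∏ m ∈ Finset.range k, f m := by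
  have := Nat.notMem_of_lt_sInf hk
  simpa using this

lemma stop_le_of {r : ℝ} {k : ℕ} (hk : ∏ m ∈ Finset.range k, f m ≤ r) : stop f r ≤ k :=
  Nat.sInf_le hk

/-- A lower bound for the stopping time from agreement. -/
lemma lt_stop_of_agree {f' : ℕ → ℝ} {A : ℝ} (hf0 : ∀ m, 0 < f m) (hf1 : ∀ m, f m ≤ 1)
    (hf0' : ∀ m, 0 < f' m)
    (hfA' : ∀ m, f' m ≤ A) (hA : A < 1) {r : ℝ} (hr : 0 < r) {k : ℕ} (hk : k < stop f r)
    (hag : ∀ m < k, f' m = f m) : k < stop f' r := by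
  by_contra hcon
  push Not at hcon
  have h1 := prod_stop_le hf0' hfA' hA hr
  have h2 : ∏ m ∈ Finset.range (stop f' r), f' m = ∏ m ∈ Finset.range (stop f' r), f m := by
    apply Finset.prod_congr rfl
    intro m hm
    exact hag m ((Finset.mem_range.1 hm).trans_le hcon)
  have h3 := lt_prod_of_lt_stop hk
  have h4 : ∏ m ∈ Finset.range k, f m ≤ ∏ m ∈ Finset.range (stop f' r), f m := by
    obtain ⟨d, hd⟩ := Nat.exists_eq_add_of_le hcon
    rw [hd, Finset.prod_range_add]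
    have h5 : ∏ x ∈ Finset.range d, f (stop f' r + x) ≤ 1 :=
      Finset.prod_le_one (fun m _ => (hf0 _).le) (fun m _ => hf1 _)
    have h6 := prod_range_pos hf0 (stop f' r)
    nlinarith
  linarith

lemma stop_eq_of_agree {f' : ℕ → ℝ} {A : ℝ} (hf0 : ∀ m, 0 < f m) (hfA : ∀ m, f m ≤ A)
    (hf0' : ∀ m, 0 < f' m)
    (hfA' : ∀ m, f' m ≤ A) (hA : A < 1) {r : ℝ} (hr : 0 < r)
    (hag : ∀ m < stop f r, f' m = f m) : stop f' r = stop f r := by
  apply le_antisymm
  · apply stop_le_of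
    have h2 : ∏ m ∈ Finset.range (stop f r), f' m = ∏ m ∈ Finset.range (stop f r), f m :=
      Finset.prod_congr rfl (fun m hm => hag m (Finset.mem_range.1 hm))
    rw [h2]
    exact prod_stop_le hf0 hfA hA hr
  · by_contra hcon
    push Not at hcon
    have h1 := prod_stop_le hf0' hfA' hA hr
    have h2 : ∏ m ∈ Finset.range (stop f' r), f' m = ∏ m ∈ Finset.range (stop f' r), f m :=
      Finset.prod_congr rfl (fun m hm => hag m ((Finset.mem_range.1 hm).trans hcon))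
    have h3 := lt_prod_of_lt_stop hcon
    linarith

lemma stop_anti (hf0 : ∀ m, 0 < f m) (hfA : ∀ m, f m ≤ A) (hA : A < 1) {r' r : ℝ} (hr' : 0 < r')
    (h : r' ≤ r) : stop f r ≤ stop f r' :=
  stop_le_of ((prod_stop_le hf0 hfA hA hr').trans h)

lemma stop_mono_of_le {f' : ℕ → ℝ} {A : ℝ} (hf0 : ∀ m, 0 < f m)
    (hf0' : ∀ m, 0 < f' m) (hfA' : ∀ m, f' m ≤ A) (hA : A < 1) {r : ℝ} (hr : 0 < r)
    (hle : ∀ m, f m ≤ f' m) : stop f r ≤ stop f' r := by
  apply stop_le_of
  refine le_trans ?_ (prod_stop_le hf0' hfA' hA hr)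
  exact Finset.prod_le_prod (fun m _ => (hf0 m).le) (fun m _ => hle m)

lemma summable_pt (hf0 : ∀ m, 0 < f m) (hfA : ∀ m, f m ≤ A) (hA : A < 1) (hg0 : ∀ m, 0 ≤ g m)
    (hg1 : ∀ m, g m + f m ≤ 1) : Summable (fun m => (∏ n ∈ Finset.range m, f n) * g m) := by
  have hA0 : 0 ≤ A := (hf0 0).le.trans (hfA 0)
  apply Summable.of_nonneg_of_le _ _ (summable_geometric_of_lt_one hA0 hA)
  · intro m
    exact mul_nonneg (prod_range_pos hf0 m).le (hg0 m)
  · intro m
    have h1 := prod_le_pow hf0 hfA m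
    have h2 : g m ≤ 1 := by linarith [hf0 m, hg1 m]
    have h3 := prod_range_pos hf0 m
    calc (∏ n ∈ Finset.range m, f n) * g m ≤ (∏ n ∈ Finset.range m, f n) * 1 := by gcongr
      _ ≤ A ^ m := by rw [mul_one]; exact h1

lemma pt_nonneg (hf0 : ∀ m, 0 < f m) (hg0 : ∀ m, 0 ≤ g m) : 0 ≤ pt f g :=
  tsum_nonneg (fun m => mul_nonneg (prod_range_pos hf0 m).le (hg0 m))

lemma psum_le (hf0 : ∀ m, 0 < f m) (hg1 : ∀ m, g m + f m ≤ 1) (N : ℕ) :
    ∑ m ∈ Finset.range N, (∏ n ∈ Finset.range m, f n) * g m ≤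
      1 - ∏ n ∈ Finset.range N, f n := by
  induction N with
  | zero => simp
  | succ N ih =>
    rw [Finset.sum_range_succ, Finset.prod_range_succ]
    have h3 := prod_range_pos hf0 N
    have h4 := hg1 N
    nlinarith

lemma pt_le_one (hf0 : ∀ m, 0 < f m) (hg0 : ∀ m, 0 ≤ g m)
    (hg1 : ∀ m, g m + f m ≤ 1) : pt f g ≤ 1 := by
  apply Real.tsum_le_of_sum_range_le
  · intro m
    exact mul_nonneg (prod_range_pos hf0 m).le (hg0 m)
  · intro N
    have := psum_le hf0 hg1 N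
    linarith [prod_range_pos hf0 N]

lemma pt_split (hf0 : ∀ m, 0 < f m) (hfA : ∀ m, f m ≤ A) (hA : A < 1) (hg0 : ∀ m, 0 ≤ g m)
    (hg1 : ∀ m, g m + f m ≤ 1) (k : ℕ) :
    pt f g = ∑ m ∈ Finset.range k, (∏ n ∈ Finset.range m, f n) * g m +
      (∏ n ∈ Finset.range k, f n) * pt (fun m => f (k + m)) (fun m => g (k + m)) := by
  have hs := summable_pt hf0 hfA hA hg0 hg1
  rw [pt, ← hs.sum_add_tsum_nat_add k, pt, ← tsum_mul_left]
  congr 1
  apply tsum_congr
  intro m
  rw [Nat.add_comm m k, Finset.prod_range_add]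
  ring

/-- the point lies in its basic interval -/
lemma pt_mem_interval (hf0 : ∀ m, 0 < f m) (hfA : ∀ m, f m ≤ A) (hA : A < 1)
    (hg0 : ∀ m, 0 ≤ g m) (hg1 : ∀ m, g m + f m ≤ 1) (k : ℕ) :
    ∑ m ∈ Finset.range k, (∏ n ∈ Finset.range m, f n) * g m ≤ pt f g ∧
    pt f g ≤ ∑ m ∈ Finset.range k, (∏ n ∈ Finset.range m, f n) * g m +
      ∏ n ∈ Finset.range k, f n := by
  have h1 := pt_split hf0 hfA hA hg0 hg1 k
  have h2 := pt_nonneg (f := fun m => f (k + m)) (g := fun m => g (k + m)) (fun m => hf0 _)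
    (fun m => hg0 _)
  have h3 := pt_le_one (f := fun m => f (k + m)) (g := fun m => g (k + m)) (fun m => hf0 _)
    (fun m => hg0 _) (fun m => hg1 _)
  have h4 := prod_range_pos hf0 k
  constructor <;> nlinarith

/-- basic intervals are nested -/
lemma nested (hf0 : ∀ m, 0 < f m) (hg0 : ∀ m, 0 ≤ g m) (hg1 : ∀ m, g m + f m ≤ 1) {k l : ℕ}
    (hkl : k ≤ l) :
    ∑ m ∈ Finset.range k, (∏ n ∈ Finset.range m, f n) * g m ≤
      ∑ m ∈ Finset.range l, (∏ n ∈ Finset.range m, f n) * g m ∧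
    ∑ m ∈ Finset.range l, (∏ n ∈ Finset.range m, f n) * g m + ∏ n ∈ Finset.range l, f n ≤
      ∑ m ∈ Finset.range k, (∏ n ∈ Finset.range m, f n) * g m + ∏ n ∈ Finset.range k, f n := by
  induction l, hkl using Nat.le_induction with
  | base => exact ⟨le_rfl, le_rfl⟩
  | succ l hl ih =>
    obtain ⟨h1, h2⟩ := ih
    rw [Finset.sum_range_succ, Finset.prod_range_succ]
    have h3 := prod_range_pos hf0 l
    have h4 := hg1 l
    have h5 := hg0 l
    constructor
    · nlinarith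
    · nlinarith

/-- Two basic intervals which separate at step `m`. -/
lemma sep {f' g' : ℕ → ℝ} (hf0 : ∀ m, 0 < f m) (hg0 : ∀ m, 0 ≤ g m)
    (hg1 : ∀ m, g m + f m ≤ 1) (hf0' : ∀ m, 0 < f' m) (hg0' : ∀ m, 0 ≤ g' m)
    (hg1' : ∀ m, g' m + f' m ≤ 1) {m k k' : ℕ} (hk : m < k) (hk' : m < k')
    (hf : ∀ n < m, f n = f' n) (hg : ∀ n < m, g n = g' n)
    (hap : Apart (g m) (f m) (g' m) (f' m)) :
    Apart (∑ m ∈ Finset.range k, (∏ n ∈ Finset.range m, f n) * g m)
      (∏ n ∈ Finset.range k, f n)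
      (∑ m ∈ Finset.range k', (∏ n ∈ Finset.range m, f' n) * g' m)
      (∏ n ∈ Finset.range k', f' n) := by
  obtain ⟨a1, a2⟩ := nested hf0 hg0 hg1 (Nat.succ_le_of_lt hk)
  obtain ⟨b1, b2⟩ := nested hf0' hg0' hg1' (Nat.succ_le_of_lt hk')
  rw [Finset.sum_range_succ] at a1 b1
  rw [Finset.sum_range_succ _ m, Finset.prod_range_succ _ m] at a2 b2
  have hP : ∏ n ∈ Finset.range m, f n = ∏ n ∈ Finset.range m, f' n :=
    Finset.prod_congr rfl (fun n hn => hf n (Finset.mem_range.1 hn))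
  have hS : ∑ j ∈ Finset.range m, (∏ n ∈ Finset.range j, f n) * g j =
      ∑ j ∈ Finset.range m, (∏ n ∈ Finset.range j, f' n) * g' j := by
    apply Finset.sum_congr rfl
    intro j hj
    have hj' := Finset.mem_range.1 hj
    rw [hg j hj', Finset.prod_congr rfl
      (fun n hn => hf n ((Finset.mem_range.1 hn).trans hj'))]
  rw [hP, hS] at a1 a2
  have hPpos := prod_range_pos hf0' m
  rcases hap with h | h
  · left
    have : (∏ n ∈ Finset.range m, f' n) * (g m + f m) ≤ (∏ n ∈ Finset.range m, f' n) * g' m := by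
      gcongr
    nlinarith
  · right
    have : (∏ n ∈ Finset.range m, f' n) * (g' m + f' m) ≤ (∏ n ∈ Finset.range m, f' n) * g m := by
      gcongr
    nlinarith

end OneDim

/-! ### Module Geom (geometry of the coding) -/
section Geom
variable {I J K : Type*} [Finite I] [Nonempty I] (S : Sys I J K)

omit [Nonempty I] in
/-- a common upper bound of the ratios -/
lemma exists_bound : ∃ A : ℝ, A < 1 ∧ ∀ x, S.a x ≤ A ∧ S.b x ≤ A := by
  rcases isEmpty_or_nonempty I with h | h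
  · exact ⟨0, by norm_num, fun x => (h.false x).elim⟩
  · obtain ⟨x1, hx1⟩ := Finite.exists_max S.a
    obtain ⟨x2, hx2⟩ := Finite.exists_max S.b
    exact ⟨max (S.a x1) (S.b x2), max_lt (S.a_lt x1) (S.b_lt x2),
      fun x => ⟨(hx1 x).trans (le_max_left _ _), (hx2 x).trans (le_max_right _ _)⟩⟩

omit [Finite I] [Nonempty I] in
theorem mem_Q_self (r : ℝ) (i : ℕ → I) : i ∈ S.Q r i := ⟨fun _ _ => rfl, fun _ _ => rfl⟩

omit [Nonempty I] in
lemma kx_eq {r : ℝ} (hr : 0 < r) {i z : ℕ → I} (h : z ∈ S.Q r i) : S.kx z r = S.kx i r := by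
  obtain ⟨A, hA, hAb⟩ := exists_bound S
  exact stop_eq_of_agree (f := fun m => S.a (i m)) (f' := fun m => S.a (z m)) (A := A)
    (fun m => S.a_pos _) (fun m => (hAb _).1) (fun m => S.a_pos _) (fun m => (hAb _).1) hA hr
    (fun m hm => S.col_a _ _ (h.1 m hm))

omit [Nonempty I] in
lemma ly_eq {r : ℝ} (hr : 0 < r) {i z : ℕ → I} (h : z ∈ S.Q r i) : S.ly z r = S.ly i r := by
  obtain ⟨A, hA, hAb⟩ := exists_bound S
  exact stop_eq_of_agree (f := fun m => S.b (i m)) (f' := fun m => S.b (z m)) (A := A)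
    (fun m => S.b_pos _) (fun m => (hAb _).2) (fun m => S.b_pos _) (fun m => (hAb _).2) hA hr
    (fun m hm => S.row_b _ _ (h.2 m hm))

omit [Nonempty I] in
/-- 0 < r is needed for the stopping times to be honest minima -/
theorem Q_symm {r : ℝ} (hr : 0 < r) {i z : ℕ → I} (h : z ∈ S.Q r i) : i ∈ S.Q r z := by
  refine ⟨fun m hm => ?_, fun m hm => ?_⟩
  · rw [kx_eq S hr h] at hm
    exact (h.1 m hm).symm
  · rw [ly_eq S hr h] at hm
    exact (h.2 m hm).symm

omit [Nonempty I] in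
theorem Q_eq {r : ℝ} (hr : 0 < r) {i z : ℕ → I} (h : z ∈ S.Q r i) :
    S.Q r z = S.Q r i ∧ S.kx z r = S.kx i r ∧ S.ly z r = S.ly i r := by
  refine ⟨?_, kx_eq S hr h, ly_eq S hr h⟩
  rw [Sys.Q, Sys.Q, kx_eq S hr h, ly_eq S hr h]
  ext w
  constructor
  · intro hw
    exact ⟨fun m hm => (hw.1 m hm).trans (h.1 m hm), fun m hm => (hw.2 m hm).trans (h.2 m hm)⟩
  · intro hw
    exact ⟨fun m hm => (hw.1 m hm).trans (h.1 m hm).symm,
      fun m hm => (hw.2 m hm).trans (h.2 m hm).symm⟩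

omit [Nonempty I] in
theorem Q_mono {r' r : ℝ} (hr' : 0 < r') (h : r' ≤ r) (i : ℕ → I) :
    S.Q r' i ⊆ S.Q r i ∧ S.kx i r ≤ S.kx i r' ∧ S.ly i r ≤ S.ly i r' := by
  obtain ⟨A, hA, hAb⟩ := exists_bound S
  have h1 : S.kx i r ≤ S.kx i r' :=
    stop_anti (fun _ => S.a_pos _) (fun _ => (hAb _).1) hA hr' h
  have h2 : S.ly i r ≤ S.ly i r' :=
    stop_anti (fun _ => S.b_pos _) (fun _ => (hAb _).2) hA hr' h
  refine ⟨?_, h1, h2⟩
  intro z hz
  exact ⟨fun m hm => hz.1 m (hm.trans_le h1), fun m hm => hz.2 m (hm.trans_le h2)⟩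

omit [Nonempty I] in
theorem prod_kx_le {r : ℝ} (hr : 0 < r) (i : ℕ → I) :
    ∏ m ∈ Finset.range (S.kx i r), S.a (i m) ≤ r := by
  obtain ⟨A, hA, hAb⟩ := exists_bound S
  exact prod_stop_le (f := fun m => S.a (i m)) (fun _ => S.a_pos _) (fun _ => (hAb _).1) hA hr

omit [Nonempty I] in
theorem prod_ly_le {r : ℝ} (hr : 0 < r) (i : ℕ → I) :
    ∏ m ∈ Finset.range (S.ly i r), S.b (i m) ≤ r := by
  obtain ⟨A, hA, hAb⟩ := exists_bound S
  exact prod_stop_le (f := fun m => S.b (i m)) (fun m => S.b_pos _) (fun m => (hAb _).2) hA hr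

/-- lower bound for the product at the stopping time, abstract version -/
lemma le_prod_stop {f : ℕ → ℝ} {κ r : ℝ} (hκ : ∀ m, κ ≤ f m) (hf1 : ∀ m, f m ≤ 1) (hκ0 : 0 < κ)
    (hr : 0 < r) (hr1 : r ≤ 1) : κ * r ≤ ∏ m ∈ Finset.range (stop f r), f m := by
  rcases Nat.eq_zero_or_pos (stop f r) with h | h
  · rw [h, Finset.prod_range_zero]
    have := hκ 0
    have := hf1 0
    nlinarith
  · obtain ⟨n, hn⟩ := Nat.exists_eq_succ_of_ne_zero h.ne'
    rw [hn, Nat.succ_eq_add_one, Finset.prod_range_succ]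
    have h1 : r < ∏ m ∈ Finset.range n, f m := lt_prod_of_lt_stop (by omega)
    have h2 := hκ n
    nlinarith

omit [Finite I] [Nonempty I] in
/-- lower bound for the product, κ a common lower bound of the ratios -/
theorem le_prod_kx {κ r : ℝ} (hκ : ∀ x, κ ≤ S.a x) (hκ0 : 0 < κ) (hr : 0 < r) (hr1 : r ≤ 1)
    (i : ℕ → I) : κ * r ≤ ∏ m ∈ Finset.range (S.kx i r), S.a (i m) :=
  le_prod_stop (f := fun m => S.a (i m)) (fun m => hκ _) (fun m => (S.a_lt _).le) hκ0 hr hr1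

omit [Finite I] [Nonempty I] in
theorem le_prod_ly {κ r : ℝ} (hκ : ∀ x, κ ≤ S.b x) (hκ0 : 0 < κ) (hr : 0 < r) (hr1 : r ≤ 1)
    (i : ℕ → I) : κ * r ≤ ∏ m ∈ Finset.range (S.ly i r), S.b (i m) :=
  le_prod_stop (f := fun m => S.b (i m)) (fun m => hκ _) (fun m => (S.b_lt _).le) hκ0 hr hr1

/-- left end point of the horizontal basic interval -/
noncomputable def lx (i : ℕ → I) (k : ℕ) : ℝ :=
  ∑ m ∈ Finset.range k, (∏ n ∈ Finset.range m, S.a (i n)) * S.t (i m)

/-- lower end point of the vertical basic interval -/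
noncomputable def uy (i : ℕ → I) (k : ℕ) : ℝ :=
  ∑ m ∈ Finset.range k, (∏ n ∈ Finset.range m, S.b (i n)) * S.u (i m)

omit [Nonempty I] in
lemma X_interval (i : ℕ → I) (k : ℕ) :
    lx S i k ≤ S.X i ∧ S.X i ≤ lx S i k + ∏ n ∈ Finset.range k, S.a (i n) := by
  obtain ⟨A, hA, hAb⟩ := exists_bound S
  exact pt_mem_interval (f := fun m => S.a (i m)) (g := fun m => S.t (i m)) (fun m => S.a_pos _)
    (fun m => (hAb _).1) hA (fun m => S.t_nonneg _) (fun m => S.t_add _) k

omit [Nonempty I] in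
lemma Y_interval (i : ℕ → I) (k : ℕ) :
    uy S i k ≤ S.Y i ∧ S.Y i ≤ uy S i k + ∏ n ∈ Finset.range k, S.b (i n) := by
  obtain ⟨A, hA, hAb⟩ := exists_bound S
  exact pt_mem_interval (f := fun m => S.b (i m)) (g := fun m => S.u (i m)) (fun m => S.b_pos _)
    (fun m => (hAb _).2) hA (fun m => S.u_nonneg _) (fun m => S.u_add _) k

omit [Nonempty I] in
theorem abs_X_sub_le {r : ℝ} (hr : 0 < r) {i z : ℕ → I} (h : z ∈ S.Q r i) :
    |S.X z - S.X i| ≤ r ∧ |S.Y z - S.Y i| ≤ r := by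
  have ha : ∀ m < S.kx i r, S.a (z m) = S.a (i m) := fun m hm => S.col_a _ _ (h.1 m hm)
  have ht : ∀ m < S.kx i r, S.t (z m) = S.t (i m) := fun m hm => S.col_t _ _ (h.1 m hm)
  have hb : ∀ m < S.ly i r, S.b (z m) = S.b (i m) := fun m hm => S.row_b _ _ (h.2 m hm)
  have hu : ∀ m < S.ly i r, S.u (z m) = S.u (i m) := fun m hm => S.row_u _ _ (h.2 m hm)
  have e1 : lx S z (S.kx i r) = lx S i (S.kx i r) := by
    apply Finset.sum_congr rfl
    intro j hj
    have hj' := Finset.mem_range.1 hj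
    rw [ht j hj', Finset.prod_congr rfl (fun n hn => ha n ((Finset.mem_range.1 hn).trans hj'))]
  have e2 : uy S z (S.ly i r) = uy S i (S.ly i r) := by
    apply Finset.sum_congr rfl
    intro j hj
    have hj' := Finset.mem_range.1 hj
    rw [hu j hj', Finset.prod_congr rfl (fun n hn => hb n ((Finset.mem_range.1 hn).trans hj'))]
  have p1 : ∏ n ∈ Finset.range (S.kx i r), S.a (z n) = ∏ n ∈ Finset.range (S.kx i r), S.a (i n) :=
    Finset.prod_congr rfl (fun n hn => ha n (Finset.mem_range.1 hn))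
  have p2 : ∏ n ∈ Finset.range (S.ly i r), S.b (z n) = ∏ n ∈ Finset.range (S.ly i r), S.b (i n) :=
    Finset.prod_congr rfl (fun n hn => hb n (Finset.mem_range.1 hn))
  have x1 := X_interval S z (S.kx i r)
  have x2 := X_interval S i (S.kx i r)
  have y1 := Y_interval S z (S.ly i r)
  have y2 := Y_interval S i (S.ly i r)
  rw [e1, p1] at x1
  rw [e2, p2] at y1
  have q1 := prod_kx_le S hr i
  have q2 := prod_ly_le S hr i
  constructor <;> rw [abs_le] <;> constructor <;> linarith [x1.1, x1.2, x2.1, x2.2, y1.1, y1.2,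
    y2.1, y2.2]

omit [Nonempty I] in
/-- horizontal separation -/
lemma sep_x {r : ℝ} (hr : 0 < r) {z z' : ℕ → I} {m : ℕ} (hm : m < S.kx z' r)
    (hag : ∀ n < m, S.col (z n) = S.col (z' n))
    (hap : Apart (S.t (z m)) (S.a (z m)) (S.t (z' m)) (S.a (z' m))) :
    Apart (lx S z (S.kx z r)) (∏ n ∈ Finset.range (S.kx z r), S.a (z n))
      (lx S z' (S.kx z' r)) (∏ n ∈ Finset.range (S.kx z' r), S.a (z' n)) := by
  obtain ⟨A, hA, hAb⟩ := exists_bound S
  have hm' : m < S.kx z r :=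
    lt_stop_of_agree (f := fun m => S.a (z' m)) (f' := fun m => S.a (z m)) (fun m => S.a_pos _)
      (fun m => (S.a_lt _).le) (fun m => S.a_pos _) (fun m => (hAb _).1) hA hr hm
      (fun n hn => S.col_a _ _ (hag n hn))
  exact sep (f := fun m => S.a (z m)) (g := fun m => S.t (z m)) (f' := fun m => S.a (z' m))
    (g' := fun m => S.t (z' m)) (fun m => S.a_pos _) (fun m => S.t_nonneg _) (fun m => S.t_add _)
    (fun m => S.a_pos _) (fun m => S.t_nonneg _) (fun m => S.t_add _) hm' hm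
    (fun n hn => S.col_a _ _ (hag n hn)) (fun n hn => S.col_t _ _ (hag n hn)) hap

omit [Nonempty I] in
/-- vertical separation -/
lemma sep_y {r : ℝ} (hr : 0 < r) {z z' : ℕ → I} {m : ℕ} (hm : m < S.ly z' r)
    (hag : ∀ n < m, S.row (z n) = S.row (z' n))
    (hap : Apart (S.u (z m)) (S.b (z m)) (S.u (z' m)) (S.b (z' m))) :
    Apart (uy S z (S.ly z r)) (∏ n ∈ Finset.range (S.ly z r), S.b (z n))
      (uy S z' (S.ly z' r)) (∏ n ∈ Finset.range (S.ly z' r), S.b (z' n)) := by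
  obtain ⟨A, hA, hAb⟩ := exists_bound S
  have hm' : m < S.ly z r :=
    lt_stop_of_agree (f := fun m => S.b (z' m)) (f' := fun m => S.b (z m)) (fun m => S.b_pos _)
      (fun m => (S.b_lt _).le) (fun m => S.b_pos _) (fun m => (hAb _).2) hA hr hm
      (fun n hn => S.row_b _ _ (hag n hn))
  exact sep (f := fun m => S.b (z m)) (g := fun m => S.u (z m)) (f' := fun m => S.b (z' m))
    (g' := fun m => S.u (z' m)) (fun m => S.b_pos _) (fun m => S.u_nonneg _) (fun m => S.u_add _)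
    (fun m => S.b_pos _) (fun m => S.u_nonneg _) (fun m => S.u_add _) hm' hm
    (fun n hn => S.row_b _ _ (hag n hn)) (fun n hn => S.row_u _ _ (hag n hn)) hap

omit [Finite I] [Nonempty I] in
/-- first place of disagreement -/
lemma first_ne {P : ℕ → Prop} {N : ℕ}
    (h : ∃ m < N, P m) : ∃ m < N, P m ∧ ∀ n < m, ¬ P n := by
  classical
  obtain ⟨m, hm, hP⟩ := h
  have hex : ∃ m, P m := ⟨m, hP⟩
  refine ⟨Nat.find hex, (Nat.find_min' hex hP).trans_lt hm, Nat.find_spec hex, ?_⟩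
  intro n hn
  exact Nat.find_min hex hn

omit [Nonempty I] in
/-- The basic rectangles of inequivalent sequences do not overlap. -/
lemma rect_sep {r : ℝ} (hr : 0 < r) {z z' : ℕ → I} (h : z ∉ S.Q r z') :
    Apart (lx S z (S.kx z r)) (∏ n ∈ Finset.range (S.kx z r), S.a (z n))
      (lx S z' (S.kx z' r)) (∏ n ∈ Finset.range (S.kx z' r), S.a (z' n)) ∨
    Apart (uy S z (S.ly z r)) (∏ n ∈ Finset.range (S.ly z r), S.b (z n))
      (uy S z' (S.ly z' r)) (∏ n ∈ Finset.range (S.ly z' r), S.b (z' n)) := by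
  obtain ⟨A, hA, hAb⟩ := exists_bound S
  have hne : (∃ m < S.kx z' r, S.col (z m) ≠ S.col (z' m)) ∨
      (∃ m < S.ly z' r, S.row (z m) ≠ S.row (z' m)) := by
    by_contra hcon
    push Not at hcon
    exact h hcon
  rcases S.alt with ⟨h1, h2⟩ | ⟨hab, h2, h3⟩ | ⟨hba, h2, h3⟩
  · rcases hne with hne | hne
    · left
      obtain ⟨m, hm, hP, hag⟩ := first_ne hne
      exact sep_x S hr hm (fun n hn => not_not.1 (hag n hn)) (h1 _ _ hP)
    · right
      obtain ⟨m, hm, hP, hag⟩ := first_ne hne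
      exact sep_y S hr hm (fun n hn => not_not.1 (hag n hn)) (h2 _ _ hP)
  · by_cases hrow : ∃ m < S.ly z' r, S.row (z m) ≠ S.row (z' m)
    · right
      obtain ⟨m, hm, hP, hag⟩ := first_ne hrow
      exact sep_y S hr hm (fun n hn => not_not.1 (hag n hn)) (h2 _ _ hP)
    · left
      have hcol := hne.resolve_right hrow
      obtain ⟨m, hm, hP, hag⟩ := first_ne hcol
      push Not at hrow
      have hkl : S.kx z' r ≤ S.ly z' r :=
        stop_mono_of_le (f := fun m => S.a (z' m)) (f' := fun m => S.b (z' m))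
          (fun m => S.a_pos _) (fun m => S.b_pos _) (fun m => (hAb _).2) hA hr (fun m => hab _)
      exact sep_x S hr hm (fun n hn => not_not.1 (hag n hn))
        (h3 _ _ (hrow m (hm.trans_le hkl)) (fun heq => hP (by rw [heq])))
  · by_cases hcol : ∃ m < S.kx z' r, S.col (z m) ≠ S.col (z' m)
    · left
      obtain ⟨m, hm, hP, hag⟩ := first_ne hcol
      exact sep_x S hr hm (fun n hn => not_not.1 (hag n hn)) (h2 _ _ hP)
    · right
      have hrow := hne.resolve_left hcol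
      obtain ⟨m, hm, hP, hag⟩ := first_ne hrow
      push Not at hcol
      have hkl : S.ly z' r ≤ S.kx z' r :=
        stop_mono_of_le (f := fun m => S.b (z' m)) (f' := fun m => S.a (z' m))
          (fun m => S.b_pos _) (fun m => S.a_pos _) (fun m => (hAb _).1) hA hr (fun m => hba _)
      exact sep_y S hr hm (fun n hn => not_not.1 (hag n hn))
        (h3 _ _ (hcol m (hm.trans_le hkl)) (fun heq => hP (by rw [heq])))

lemma Apart.disjoint {t a t' a' : ℝ} (h : Apart t a t' a') :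
    Disjoint (Ioo t (t + a)) (Ioo t' (t' + a')) := by
  rw [Set.disjoint_left]
  rintro x ⟨h1, h2⟩ ⟨h3, h4⟩
  rcases h with h | h <;> linarith

omit [Nonempty I] in
/-- volume count: pairwise inequivalent sequences with points in a box -/
theorem card_le (κ : ℝ) (hκ0 : 0 < κ) (hκ : ∀ x, κ ≤ S.a x ∧ κ ≤ S.b x) {r ρ p q : ℝ}
    (hr : 0 < r) (hr1 : r ≤ 1) (hρ : 0 ≤ ρ) (T : Finset (ℕ → I))
    (hT : ∀ z ∈ T, ∀ z' ∈ T, z ≠ z' → z ∉ S.Q r z')
    (hbox : ∀ z ∈ T, |S.X z - p| ≤ ρ ∧ |S.Y z - q| ≤ ρ) :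
    (T.card : ℝ) * (κ * r) ^ 2 ≤ (2 * (ρ + r)) ^ 2 := by
  set Pa : (ℕ → I) → ℝ := fun z => ∏ n ∈ Finset.range (S.kx z r), S.a (z n) with hPa
  set Pb : (ℕ → I) → ℝ := fun z => ∏ n ∈ Finset.range (S.ly z r), S.b (z n) with hPb
  set R : (ℕ → I) → Set (ℝ × ℝ) := fun z =>
    Ioo (lx S z (S.kx z r)) (lx S z (S.kx z r) + Pa z) ×ˢ
      Ioo (uy S z (S.ly z r)) (uy S z (S.ly z r) + Pb z) with hR
  have hPa1 : ∀ z, κ * r ≤ Pa z := fun z => le_prod_kx S (fun x => (hκ x).1) hκ0 hr hr1 z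
  have hPb1 : ∀ z, κ * r ≤ Pb z := fun z => le_prod_ly S (fun x => (hκ x).2) hκ0 hr hr1 z
  have hPa2 : ∀ z, Pa z ≤ r := fun z => prod_kx_le S hr z
  have hPb2 : ∀ z, Pb z ≤ r := fun z => prod_ly_le S hr z
  have hκr : 0 < κ * r := by positivity
  have hvol : ∀ z, ENNReal.ofReal ((κ * r) ^ 2) ≤ volume (R z) := by
    intro z
    rw [hR, Measure.volume_eq_prod, Measure.prod_prod, Real.volume_Ioo, Real.volume_Ioo,
      add_sub_cancel_left, add_sub_cancel_left,
      ← ENNReal.ofReal_mul (hκr.le.trans (hPa1 z))]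
    apply ENNReal.ofReal_le_ofReal
    rw [sq]
    exact mul_le_mul (hPa1 z) (hPb1 z) hκr.le (hκr.le.trans (hPa1 z))
  have hdisj : Set.PairwiseDisjoint (↑T) R := by
    intro z hz z' hz' hne
    have h := rect_sep S hr (hT z hz z' hz' hne)
    simp only [Function.onFun, hR]
    rw [Set.disjoint_prod]
    rcases h with h | h
    · exact Or.inl (Apart.disjoint h)
    · exact Or.inr (Apart.disjoint h)
  have hmeas : ∀ z ∈ T, MeasurableSet (R z) := fun z _ => measurableSet_Ioo.prod measurableSet_Ioo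
  have hsub : (⋃ z ∈ T, R z) ⊆ Icc (p - ρ - r) (p + ρ + r) ×ˢ Icc (q - ρ - r) (q + ρ + r) := by
    intro w hw
    rw [Set.mem_iUnion₂] at hw
    obtain ⟨z, hz, hw1, hw2⟩ := hw
    obtain ⟨b1, b2⟩ := hbox z hz
    have x1 := X_interval S z (S.kx z r)
    have y1 := Y_interval S z (S.ly z r)
    have e1 := hPa2 z
    have e2 := hPb2 z
    rw [abs_le] at b1 b2
    simp only [hPa, hPb] at e1 e2 hw1 hw2
    refine ⟨⟨?_, ?_⟩, ⟨?_, ?_⟩⟩ <;>
      linarith [hw1.1, hw1.2, hw2.1, hw2.2, x1.1, x1.2, y1.1, y1.2, b1.1, b1.2, b2.1, b2.2]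
  have key : (T.card : ENNReal) * ENNReal.ofReal ((κ * r) ^ 2) ≤
      ENNReal.ofReal ((2 * (ρ + r)) ^ 2) := by
    calc (T.card : ENNReal) * ENNReal.ofReal ((κ * r) ^ 2)
        = ∑ _z ∈ T, ENNReal.ofReal ((κ * r) ^ 2) := by rw [Finset.sum_const, nsmul_eq_mul]
      _ ≤ ∑ z ∈ T, volume (R z) := Finset.sum_le_sum (fun z _ => hvol z)
      _ = volume (⋃ z ∈ T, R z) := (measure_biUnion_finset hdisj hmeas).symm
      _ ≤ volume (Icc (p - ρ - r) (p + ρ + r) ×ˢ Icc (q - ρ - r) (q + ρ + r)) :=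
          measure_mono hsub
      _ = ENNReal.ofReal ((2 * (ρ + r)) ^ 2) := by
          rw [Measure.volume_eq_prod, Measure.prod_prod, Real.volume_Icc, Real.volume_Icc,
            ← ENNReal.ofReal_mul (by linarith)]
          congr 1
          ring
  rw [← ENNReal.ofReal_natCast, ← ENNReal.ofReal_mul (by positivity),
    ENNReal.ofReal_le_ofReal_iff (by positivity)] at key
  exact key

omit [Finite I] [Nonempty I] in
theorem X_mem (i : ℕ → I) : 0 ≤ S.X i ∧ S.X i ≤ 1 ∧ 0 ≤ S.Y i ∧ S.Y i ≤ 1 :=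
  ⟨pt_nonneg (fun _ => S.a_pos _) (fun _ => S.t_nonneg _),
    pt_le_one (fun _ => S.a_pos _) (fun _ => S.t_nonneg _) (fun _ => S.t_add _),
    pt_nonneg (fun _ => S.b_pos _) (fun _ => S.u_nonneg _),
    pt_le_one (fun _ => S.b_pos _) (fun _ => S.u_nonneg _) (fun _ => S.u_add _)⟩

omit [Nonempty I] in
lemma tendsto_lx (i : ℕ → I) : Tendsto (fun k => lx S i k) atTop (𝓝 (S.X i)) := by
  obtain ⟨A, hA, hAb⟩ := exists_bound S
  exact (summable_pt (f := fun m => S.a (i m)) (g := fun m => S.t (i m)) (fun m => S.a_pos _)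
    (fun m => (hAb _).1) hA (fun m => S.t_nonneg _) (fun m => S.t_add _)).hasSum.tendsto_sum_nat

omit [Nonempty I] in
lemma tendsto_uy (i : ℕ → I) : Tendsto (fun k => uy S i k) atTop (𝓝 (S.Y i)) := by
  obtain ⟨A, hA, hAb⟩ := exists_bound S
  exact (summable_pt (f := fun m => S.b (i m)) (g := fun m => S.u (i m)) (fun m => S.b_pos _)
    (fun m => (hAb _).2) hA (fun m => S.u_nonneg _) (fun m => S.u_add _)).hasSum.tendsto_sum_nat

/-- The maps of the system. -/
def mp (x : I) (p : ℝ × ℝ) : ℝ × ℝ := (S.a x * p.1 + S.t x, S.b x * p.2 + S.u x)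

/-- Finite compositions. -/
noncomputable def comp (i : ℕ → I) (k : ℕ) (p : ℝ × ℝ) : ℝ × ℝ :=
  (lx S i k + (∏ n ∈ Finset.range k, S.a (i n)) * p.1,
    uy S i k + (∏ n ∈ Finset.range k, S.b (i n)) * p.2)

omit [Finite I] [Nonempty I] in
lemma comp_succ (i : ℕ → I) (k : ℕ) (p : ℝ × ℝ) :
    comp S i (k + 1) p = comp S i k (mp S (i k) p) := by
  simp only [comp, mp, lx, uy, Finset.sum_range_succ, Finset.prod_range_succ]
  ext <;> simp only <;> ring

omit [Nonempty I] in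
lemma tendsto_comp (i : ℕ → I) {p : ℕ → ℝ × ℝ} {C : ℝ} (hp : ∀ k, |(p k).1| ≤ C ∧ |(p k).2| ≤ C) :
    Tendsto (fun k => comp S i k (p k)) atTop (𝓝 (S.X i, S.Y i)) := by
  obtain ⟨A, hA, hAb⟩ := exists_bound S
  have h1 : Tendsto (fun k => (∏ n ∈ Finset.range k, S.a (i n)) * (p k).1) atTop (𝓝 0) := by
    have h0 := tendsto_prod_zero (f := fun m => S.a (i m)) (fun m => S.a_pos _)
      (fun m => (hAb _).1) hA
    have h2 := h0.mul_const C
    rw [zero_mul] at h2
    apply squeeze_zero_norm _ h2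
    intro k
    have h3 := prod_range_pos (f := fun m => S.a (i m)) (fun m => S.a_pos _) k
    rw [Real.norm_eq_abs, abs_mul, abs_of_pos h3]
    exact mul_le_mul_of_nonneg_left (hp k).1 h3.le
  have h2 : Tendsto (fun k => (∏ n ∈ Finset.range k, S.b (i n)) * (p k).2) atTop (𝓝 0) := by
    have h0 := tendsto_prod_zero (f := fun m => S.b (i m)) (fun m => S.b_pos _)
      (fun m => (hAb _).2) hA
    have h2 := h0.mul_const C
    rw [zero_mul] at h2
    apply squeeze_zero_norm _ h2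
    intro k
    have h3 := prod_range_pos (f := fun m => S.b (i m)) (fun m => S.b_pos _) k
    rw [Real.norm_eq_abs, abs_mul, abs_of_pos h3]
    exact mul_le_mul_of_nonneg_left (hp k).2 h3.le
  have h3 := (tendsto_lx S i).add h1
  have h4 := (tendsto_uy S i).add h2
  rw [add_zero] at h3 h4
  exact h3.prodMk_nhds h4

omit [Nonempty I] in
/-- the attractor is the set of coded points -/
theorem range_coding (F : Set (ℝ × ℝ)) (hF : IsCompact F) (hne : F.Nonempty)
    (hattr : F = ⋃ x : I, (fun p : ℝ × ℝ => (S.a x * p.1 + S.t x, S.b x * p.2 + S.u x)) '' F) :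
    F = Set.range (fun i : ℕ → I => (S.X i, S.Y i)) := by
  obtain ⟨C, hC⟩ := hF.isBounded.exists_norm_le
  have hbd : ∀ p ∈ F, |p.1| ≤ C ∧ |p.2| ≤ C := by
    intro p hp
    have h1 := hC p hp
    exact ⟨(norm_fst_le p).trans h1, (norm_snd_le p).trans h1⟩
  have hmp : ∀ x, ∀ p ∈ F, mp S x p ∈ F := by
    intro x p hp
    rw [hattr]
    exact Set.mem_iUnion.2 ⟨x, p, hp, rfl⟩
  apply Set.Subset.antisymm
  · intro p hp
    -- choose preimages
    have hex : ∀ q : F, ∃ xq : I × F, mp S xq.1 xq.2 = q := by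
      rintro ⟨q, hq⟩
      rw [hattr] at hq
      obtain ⟨x, q', hq', h⟩ := Set.mem_iUnion.1 hq
      exact ⟨(x, ⟨q', hq'⟩), h⟩
    choose nx hnx using hex
    set sq : ℕ → F := fun k => (fun q => (nx q).2)^[k] ⟨p, hp⟩ with hsqd
    set i : ℕ → I := fun k => (nx (sq k)).1 with hi
    have hsq : ∀ k, mp S (i k) (sq (k + 1) : ℝ × ℝ) = (sq k : ℝ × ℝ) := by
      intro k
      simp only [hi, hsqd, Function.iterate_succ_apply']
      exact hnx _
    have hcomp : ∀ k, comp S i k (sq k) = p := by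
      intro k
      induction k with
      | zero => simp [comp, lx, uy, sq]
      | succ k ih => rw [comp_succ, hsq, ih]
    refine ⟨i, ?_⟩
    have h1 := tendsto_comp S i (p := fun k => (sq k : ℝ × ℝ)) (C := C)
      (fun k => hbd _ (sq k).2)
    simp only [hcomp] at h1
    exact tendsto_nhds_unique h1 tendsto_const_nhds
  · rintro _ ⟨i, rfl⟩
    obtain ⟨q, hq⟩ := hne
    have h1 := tendsto_comp S i (p := fun _ => q) (C := C) (fun k => hbd _ hq)
    apply hF.isClosed.mem_of_tendsto h1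
    apply Eventually.of_forall
    intro k
    have hcomp : ∀ k, ∀ q ∈ F, comp S i k q ∈ F := by
      intro k
      induction k with
      | zero => intro q hq; simpa [comp, lx, uy] using hq
      | succ k ih =>
        intro q hq
        rw [comp_succ]
        exact ih _ (hmp _ _ hq)
    exact hcomp k q hq

variable [MeasurableSpace I] [MeasurableSingletonClass I]

omit [Nonempty I] in
theorem measurable_X : Measurable (fun i : ℕ → I => S.X i) := by
  have hmeas : ∀ k, Measurable (fun i : ℕ → I => lx S i k) := by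
    intro k
    apply Finset.measurable_sum
    intro m _
    apply Measurable.mul
    · apply Finset.measurable_prod
      intro n _
      exact (measurable_of_finite S.a).comp (measurable_pi_apply n)
    · exact (measurable_of_finite S.t).comp (measurable_pi_apply m)
  apply measurable_of_tendsto_metrizable hmeas
  rw [tendsto_pi_nhds]
  intro i
  exact tendsto_lx S i

omit [Nonempty I] in
theorem measurable_Y : Measurable (fun i : ℕ → I => S.Y i) := by
  have hmeas : ∀ k, Measurable (fun i : ℕ → I => uy S i k) := by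
    intro k
    apply Finset.measurable_sum
    intro m _
    apply Measurable.mul
    · apply Finset.measurable_prod
      intro n _
      exact (measurable_of_finite S.b).comp (measurable_pi_apply n)
    · exact (measurable_of_finite S.u).comp (measurable_pi_apply m)
  apply measurable_of_tendsto_metrizable hmeas
  rw [tendsto_pi_nhds]
  intro i
  exact tendsto_uy S i

end Geom
end Pool.Agent.CarpetMeasures
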