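import Pool.Agent.CarpetMeasures.Nets

/-!
# Measures from consistent masses on nested nets
-/

set_option autoImplicit false

open MeasureTheory Metric Set Filter Topology

namespace Pool.Agent.CarpetMeasures

namespace Nets

variable {X : Type*} [MetricSpace X] (N : Nets X)

/-- Consistency of masses. -/
def Consistent [DecidableEq X] (M : ℕ → X → ℝ) : Prop :=
  ∀ k, ∀ x ∈ N.net k,
    ∑ y ∈ (N.net (k + 1)).filter (fun y => N.par k y = x), M (k + 1) y = M k x

lemma sum_desc [DecidableEq X] {M : ℕ → X → ℝ} (hM : N.Consistent M) (k n : ℕ) (T : Finset X)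
    (hT : T ⊆ N.net k) :
    ∑ z ∈ (N.net (k + n)).filter (fun z => N.anc k n z ∈ T), M (k + n) z = ∑ x ∈ T, M k x := by
  induction n with
  | zero =>
    simp only [anc_zero, add_zero]
    apply Finset.sum_congr _ fun _ _ => rfl
    ext x
    simp only [Finset.mem_filter]
    exact ⟨fun h => h.2, fun h => ⟨hT h, h⟩⟩
  | succ n ih =>
    rw [← ih, ← Finset.sum_fiberwise_of_maps_to (g := N.par (k + n))
      (t := (N.net (k + n)).filter (fun z => N.anc k n z ∈ T))]
    · refine Finset.sum_congr rfl fun y hy => ?_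
      rw [Finset.mem_filter] at hy
      rw [← hM (k + n) y hy.1]
      apply Finset.sum_congr _ fun _ _ => rfl
      ext z
      rw [Finset.mem_filter, Finset.mem_filter, Finset.mem_filter]
      constructor
      · rintro ⟨⟨h1, h2⟩, h3⟩
        exact ⟨h1, h3⟩
      · rintro ⟨h1, h2⟩
        exact ⟨⟨h1, by rw [anc_succ, h2]; exact hy.2⟩, h2⟩
    · intro z hz
      rw [Finset.mem_filter] at hz ⊢
      exact ⟨N.par_mem _ _, by rw [← anc_succ]; exact hz.2⟩

theorem exists_limit_measure [DecidableEq X] [CompactSpace X] [MeasurableSpace X] [BorelSpace X]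
    {M : ℕ → X → ℝ} (hpos : ∀ k, ∀ x ∈ N.net k, 0 ≤ M k x) (h0 : ∑ x ∈ N.net 0, M 0 x = 1)
    (hM : N.Consistent M) :
    ∃ μ : Measure X, IsProbabilityMeasure μ ∧
      (∀ (k : ℕ) (T : Finset X) (C : Set X), T ⊆ N.net k → IsClosed C →
        (∀ x ∈ T, closedBall x (2 * L ^ k) ⊆ C) → ENNReal.ofReal (∑ x ∈ T, M k x) ≤ μ C) ∧
      (∀ (k : ℕ) (T : Finset X) (G : Set X), T ⊆ N.net k → IsOpen G →
        (∀ x ∈ N.net k, (closedBall x (2 * L ^ k) ∩ G).Nonempty → x ∈ T) →
        μ G ≤ ENNReal.ofReal (∑ x ∈ T, M k x)) := by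
  classical
  let m : ℕ → Measure X := fun j =>
    ∑ x ∈ N.net j, ENNReal.ofReal (M j x) • Measure.dirac x
  have hm : ∀ j (A : Set X), MeasurableSet A →
      m j A = ENNReal.ofReal (∑ x ∈ (N.net j).filter (fun x => x ∈ A), M j x) := by
    intro j A hA
    simp only [m, Measure.coe_finsetSum, Finset.sum_apply, Measure.smul_apply, smul_eq_mul,
      Measure.dirac_apply' _ hA]
    rw [ENNReal.ofReal_sum_of_nonneg (fun x hx => hpos j x (Finset.mem_filter.1 hx).1),
      Finset.sum_filter]
    refine Finset.sum_congr rfl fun x _ => ?_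
    by_cases hx : x ∈ A <;> simp [hx]
  have htot : ∀ j, ∑ x ∈ N.net j, M j x = 1 := by
    intro j
    have := N.sum_desc hM 0 j (N.net 0) subset_rfl
    rw [h0, zero_add] at this
    rw [← this]
    apply Finset.sum_congr _ fun _ _ => rfl
    ext z
    simp only [Finset.mem_filter]
    refine ⟨fun h => ⟨h, N.anc_mem (by rwa [zero_add])⟩, fun h => h.1⟩
  have hprob : ∀ j, IsProbabilityMeasure (m j) := by
    intro j
    constructor
    rw [hm j _ MeasurableSet.univ]
    simp [htot j]
  let P : ℕ → ProbabilityMeasure X := fun j => ⟨m j, hprob j⟩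
  obtain ⟨μ, -, hμ⟩ := isCompact_univ.ultrafilter_le_nhds
    ((hyperfilter ℕ).map P) (by simp)
  have hlim : Tendsto P (hyperfilter ℕ : Filter ℕ) (𝓝 μ) := hμ
  have hev : ∀ {p : ℕ → Prop}, (∀ᶠ j in atTop, p j) → ∀ᶠ j in (hyperfilter ℕ : Filter ℕ), p j := by
    intro p hp
    rw [← Nat.cofinite_eq_atTop] at hp
    exact hyperfilter_le_cofinite hp
  refine ⟨μ, inferInstance, ?_, ?_⟩
  · intro k T C hT hC hTC
    refine le_trans ?_ (ProbabilityMeasure.limsup_measure_closed_le_of_tendsto hlim hC)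
    refine le_trans ?_ (liminf_le_limsup)
    refine le_liminf_of_le (by isBoundedDefault) ?_
    apply hev
    filter_upwards [eventually_ge_atTop k] with j hj
    obtain ⟨n, rfl⟩ := Nat.exists_eq_add_of_le hj
    change _ ≤ m (k + n) C
    rw [hm _ _ hC.measurableSet]
    apply ENNReal.ofReal_le_ofReal
    rw [← N.sum_desc hM k n T hT]
    apply Finset.sum_le_sum_of_subset_of_nonneg
    · intro z hz
      rw [Finset.mem_filter] at hz ⊢
      refine ⟨hz.1, hTC _ hz.2 ?_⟩
      rw [mem_closedBall]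
      exact N.dist_anc_le' k n z
    · intro z hz _
      exact hpos _ _ (Finset.mem_filter.1 hz).1
  · intro k T G hT hG hTG
    refine le_trans (ProbabilityMeasure.le_liminf_measure_open_of_tendsto hlim hG) ?_
    refine le_trans (liminf_le_limsup) ?_
    refine limsup_le_of_le (by isBoundedDefault) ?_
    apply hev
    filter_upwards [eventually_ge_atTop k] with j hj
    obtain ⟨n, rfl⟩ := Nat.exists_eq_add_of_le hj
    change m (k + n) G ≤ _
    rw [hm _ _ hG.measurableSet]
    apply ENNReal.ofReal_le_ofReal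
    rw [← N.sum_desc hM k n T hT]
    apply Finset.sum_le_sum_of_subset_of_nonneg
    · intro z hz
      rw [Finset.mem_filter] at hz ⊢
      refine ⟨hz.1, hTG _ (N.anc_mem hz.1) ⟨z, ?_, hz.2⟩⟩
      rw [mem_closedBall]
      exact N.dist_anc_le' k n z
    · intro z hz _
      exact hpos _ _ (Finset.mem_filter.1 hz).1

end Nets

end Pool.Agent.CarpetMeasures
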