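import Pool.Agent.CarpetMeasures.Upper

/-!
# Measures with a sharp lower doubling exponent on a compact metric space

If every ball of radius `R` carries a probability measure giving mass at most `C (r / R) ^ s` to
every ball of radius `r`, then there is one fully supported measure with
`μ (B (x, R)) ≥ d (R / r) ^ s μ (B (x, r))`.
-/

set_option autoImplicit false

open MeasureTheory Metric Set Filter Topology
open scoped ENNReal

namespace Pool.Agent.CarpetMeasures

namespace Nets

variable {X : Type*} [MetricSpace X] (N : Nets X)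

section weights

variable [MeasurableSpace X]

/-- `ν` gives mass at most `L ^ (n s)` to the closed cells `n` generations below `(k, x)`. -/
def AdmB (s : ℝ) (k : ℕ) (x : X) (ν : Measure X) : Prop :=
  ∀ (n : ℕ) (z : X), z ∈ N.net (k + n) → N.anc k n z = x →
    ν (N.ccell (k + n) z) ≤ ENNReal.ofReal ((L ^ n) ^ s)

/-- The weight of the node `(k, x)`. -/
noncomputable def V (s : ℝ) (k : ℕ) (x : X) : ℝ≥0∞ :=
  ⨆ (ν : Measure X) (_ : N.AdmB s k x ν), ν (N.ccell k x)

lemma V_le_one {s : ℝ} {k : ℕ} {x : X} (hx : x ∈ N.net k) : N.V s k x ≤ 1 := by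
  refine iSup₂_le fun ν hν => ?_
  have := hν 0 x hx rfl
  simpa using this

lemma AdmB.child {s : ℝ} {k : ℕ} {x y : X} {ν : Measure X} (hν : N.AdmB s k x ν)
    (hy : N.par k y = x) : N.AdmB s (k + 1) y ((ENNReal.ofReal (L ^ s))⁻¹ • ν) := by
  intro n z hz hzy
  have h1 := hν (n + 1) z (by rwa [show k + (n + 1) = k + 1 + n by ring])
    (by rw [anc_succ', hzy, hy])
  rw [show k + (n + 1) = k + 1 + n by ring] at h1
  have hq : 0 < L ^ s := Real.rpow_pos_of_pos L_pos s
  rw [Measure.smul_apply, smul_eq_mul]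
  refine le_trans (mul_le_mul_right h1 _) ?_
  rw [← ENNReal.ofReal_inv_of_pos hq, ← ENNReal.ofReal_mul (inv_nonneg.2 hq.le)]
  apply ENNReal.ofReal_le_ofReal
  rw [pow_succ, Real.mul_rpow (Lpow_pos n).le L_pos.le]
  field_simp
  exact le_rfl

lemma V_sub [DecidableEq X] {s : ℝ} {k : ℕ} {x : X} (hx : x ∈ N.net k) :
    N.V s k x ≤ ∑ y ∈ (N.net (k + 1)).filter (fun y => N.par k y = x),
      ENNReal.ofReal (L ^ s) * N.V s (k + 1) y := by
  refine iSup₂_le fun ν hν => ?_
  have hq : 0 < L ^ s := Real.rpow_pos_of_pos L_pos s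
  have h1 : ∀ y ∈ (N.net (k + 1)).filter (fun y => N.par k y = x),
      ν (N.ccell (k + 1) y) ≤ ENNReal.ofReal (L ^ s) * N.V s (k + 1) y := by
    intro y hy
    rw [Finset.mem_filter] at hy
    have h2 : ((ENNReal.ofReal (L ^ s))⁻¹ • ν) (N.ccell (k + 1) y) ≤ N.V s (k + 1) y :=
      le_iSup₂ (f := fun (ν : Measure X) (_ : N.AdmB s (k + 1) y ν) => ν (N.ccell (k + 1) y))
        _ (hν.child N hy.2)
    rw [Measure.smul_apply, smul_eq_mul] at h2
    calc ν (N.ccell (k + 1) y)
        = ENNReal.ofReal (L ^ s) * ((ENNReal.ofReal (L ^ s))⁻¹ * ν (N.ccell (k + 1) y)) := by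
          rw [← mul_assoc, ENNReal.mul_inv_cancel (by simpa using hq) ENNReal.ofReal_ne_top, one_mul]
      _ ≤ ENNReal.ofReal (L ^ s) * N.V s (k + 1) y := mul_le_mul_right h2 _
  refine le_trans ?_ (Finset.sum_le_sum h1)
  exact (measure_mono (N.ccell_subset hx)).trans (measure_biUnion_finset_le _ _)

/-- The hypothesis on local measures. -/
def UpperLocal (X : Type*) [MetricSpace X] [MeasurableSpace X] (s C : ℝ) : Prop :=
  ∀ (x : X) (R : ℝ), 0 < R → R ≤ 1 → ∃ ν : Measure X, IsProbabilityMeasure ν ∧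
    1 ≤ ν (closedBall x R) ∧
    ∀ y r, 0 < r → r ≤ R → ν (closedBall y r) ≤ ENNReal.ofReal (C * (r / R) ^ s)

lemma UpperLocal.one_le {s C : ℝ} [Nonempty X] (H : UpperLocal X s C) : 1 ≤ C := by
  obtain ⟨x⟩ := (inferInstance : Nonempty X)
  obtain ⟨ν, -, h1, h2⟩ := H x 1 one_pos le_rfl
  have h3 := h1.trans (h2 x 1 one_pos le_rfl)
  rw [div_one, Real.one_rpow, mul_one] at h3
  have h4 : ENNReal.ofReal 1 ≤ ENNReal.ofReal C := by simpa using h3
  by_contra hlt
  push Not at hlt
  rw [ENNReal.ofReal_le_ofReal_iff'] at h4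
  rcases h4 with h4 | h4 <;> linarith

lemma le_V {s C : ℝ} (hs : 0 ≤ s) [Nonempty X] (H : UpperLocal X s C) {k : ℕ} {x : X}
    (hx : x ∈ N.net k) : ENNReal.ofReal (1 / (C * 16 ^ s)) ≤ N.V s k x := by
  have hk := Lpow_pos k
  have hC := H.one_le
  obtain ⟨ν, hν0, hν1, hν⟩ := H x (L ^ k / 8) (by positivity)
    (by have := Lpow_le_one k; linarith)
  have h16 : (1 : ℝ) ≤ 16 ^ s := Real.one_le_rpow (by norm_num) hs
  have hC' : 1 ≤ C * 16 ^ s := by nlinarith
  have hadm : N.AdmB s k x (ENNReal.ofReal (1 / (C * 16 ^ s)) • ν) := by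
    intro n z hz hzx
    have hn := Lpow_pos n
    have hkn : L ^ (k + n) = L ^ k * L ^ n := pow_add _ _ _
    have key : ν (N.ccell (k + n) z) ≤ ENNReal.ofReal (C * 16 ^ s * (L ^ n) ^ s) := by
      rcases Nat.eq_zero_or_pos n with h0 | h0
      · subst h0
        simp only [pow_zero, Real.one_rpow, mul_one]
        refine prob_le_one.trans ?_
        rw [← ENNReal.ofReal_one]
        exact ENNReal.ofReal_le_ofReal hC'
      · have hn20 : L ^ n ≤ 1 / 20 := by
          have := pow_le_pow_of_le_one L_pos.le L_lt_one.le (Nat.succ_le_of_lt h0)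
          simpa [L_eq] using this
        have h1 := hν z (2 * L ^ (k + n)) (by have := Lpow_pos (k + n); linarith)
          (by rw [hkn]; nlinarith)
        refine (measure_mono (N.ccell_subset_closedBall _ _)).trans (h1.trans ?_)
        apply ENNReal.ofReal_le_ofReal
        rw [mul_assoc, ← Real.mul_rpow (by norm_num) hn.le]
        apply le_of_eq
        congr 2
        rw [hkn]
        field_simp
        norm_num
    rw [Measure.smul_apply, smul_eq_mul]
    refine (mul_le_mul_right key _).trans ?_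
    rw [← ENNReal.ofReal_mul (by positivity)]
    apply ENNReal.ofReal_le_ofReal
    apply le_of_eq
    field_simp
  have h2 : closedBall x (L ^ k / 8) ⊆ N.ccell k x :=
    (closedBall_subset_ball (by linarith)).trans (N.ball_subset_ccell hx)
  calc ENNReal.ofReal (1 / (C * 16 ^ s)) = ENNReal.ofReal (1 / (C * 16 ^ s)) * 1 := (mul_one _).symm
    _ ≤ (ENNReal.ofReal (1 / (C * 16 ^ s)) • ν) (N.ccell k x) := by
        rw [Measure.smul_apply, smul_eq_mul]
        exact mul_le_mul_right (hν1.trans (measure_mono h2)) _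
    _ ≤ N.V s k x :=
        le_iSup₂ (f := fun (ν : Measure X) (_ : N.AdmB s k x ν) => ν (N.ccell k x)) _ hadm

end weights

section masses

variable [DecidableEq X]

/-- Masses for the lower exponent. -/
noncomputable def Mb (m0 : ℝ) (v : ℕ → X → ℝ) : ℕ → X → ℝ
  | 0, _ => m0
  | k + 1, y => Mb m0 v k (N.par k y) *
      (v (k + 1) y / ∑ z ∈ (N.net (k + 1)).filter (fun z => N.par k z = N.par k y), v (k + 1) z)

variable {N} {τ m0 c : ℝ} {v : ℕ → X → ℝ}

/-- Properties of the weights. -/
structure Vt (N : Nets X) (τ c : ℝ) (v : ℕ → X → ℝ) : Prop where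
  τ_pos : 0 < τ
  c_pos : 0 < c
  c_le : ∀ k, ∀ x ∈ N.net k, c ≤ v k x
  le_one : ∀ k, ∀ x ∈ N.net k, v k x ≤ 1
  sub : ∀ k, ∀ x ∈ N.net k,
    v k x ≤ ∑ y ∈ (N.net (k + 1)).filter (fun y => N.par k y = x), τ * v (k + 1) y

lemma Vt.sum_pos (hv : Vt N τ c v) {k : ℕ} {x : X} (hx : x ∈ N.net k) :
    0 < ∑ z ∈ (N.net (k + 1)).filter (fun z => N.par k z = x), v (k + 1) z := by
  apply Finset.sum_pos
  · intro z hz
    exact hv.c_pos.trans_le (hv.c_le _ z (Finset.mem_filter.1 hz).1)
  · exact ⟨x, mem_children hx⟩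

lemma Mb_pos (hv : Vt N τ c v) (hm0 : 0 < m0) (k : ℕ) : ∀ x ∈ N.net k, 0 < N.Mb m0 v k x := by
  induction k with
  | zero => intro x _; exact hm0
  | succ k ih =>
    intro y hy
    rw [Mb]
    exact mul_pos (ih _ (N.par_mem _ _))
      (div_pos (hv.c_pos.trans_le (hv.c_le _ y hy)) (hv.sum_pos (N.par_mem _ _)))

lemma Mb_consistent (hv : Vt N τ c v) : N.Consistent (fun k x => N.Mb m0 v k x) := by
  intro k x hx
  have h1 : ∀ y ∈ (N.net (k + 1)).filter (fun y => N.par k y = x),
      N.Mb m0 v (k + 1) y = N.Mb m0 v k x *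
        (v (k + 1) y / ∑ z ∈ (N.net (k + 1)).filter (fun z => N.par k z = x), v (k + 1) z) := by
    intro y hy
    rw [Mb, (Finset.mem_filter.1 hy).2]
  rw [Finset.sum_congr rfl h1, ← Finset.mul_sum, ← Finset.sum_div,
    div_self (hv.sum_pos hx).ne', mul_one]

lemma Mb_anc (hv : Vt N τ c v) (hm0 : 0 < m0) (k n : ℕ) {z : X} (hz : z ∈ N.net (k + n)) :
    N.Mb m0 v (k + n) z * v k (N.anc k n z) ≤
      τ ^ n * N.Mb m0 v k (N.anc k n z) * v (k + n) z := by
  induction n generalizing z with
  | zero => simp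
  | succ n ih =>
    set y := N.par (k + n) z with hy
    have hyn : y ∈ N.net (k + n) := N.par_mem _ _
    have h1 := ih hyn
    rw [anc_succ]
    rw [← hy]
    have hS := hv.sum_pos hyn
    have hsub := hv.sub _ y hyn
    rw [← Finset.mul_sum] at hsub
    set Sg := ∑ z ∈ (N.net (k + n + 1)).filter (fun z => N.par (k + n) z = y), v (k + n + 1) z
      with hSg
    have hM : N.Mb m0 v (k + (n + 1)) z = N.Mb m0 v (k + n) y * (v (k + n + 1) z / Sg) := by
      rw [← add_assoc, Mb]
    have hvz : 0 < v (k + n + 1) z := hv.c_pos.trans_le (hv.c_le _ z hz)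
    have hvy : 0 < v (k + n) y := hv.c_pos.trans_le (hv.c_le _ y hyn)
    have hMy := Mb_pos hv hm0 (k + n) y hyn
    have hA := N.anc_mem hyn
    have hvA : 0 < v k (N.anc k n y) := hv.c_pos.trans_le (hv.c_le _ _ hA)
    have hMA := Mb_pos hv hm0 k _ hA
    rw [hM]
    -- `Mb y * (v z / Sg) * v A ≤ τ^(n+1) Mb A v z`
    have h2 : N.Mb m0 v (k + n) y * v k (N.anc k n y) ≤
        τ ^ n * N.Mb m0 v k (N.anc k n y) * (τ * Sg) := by
      refine h1.trans ?_
      apply mul_le_mul_of_nonneg_left hsub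
      have := pow_pos hv.τ_pos n
      positivity
    have h3 : N.Mb m0 v (k + n) y * (v (k + n + 1) z / Sg) * v k (N.anc k n y)
        = (N.Mb m0 v (k + n) y * v k (N.anc k n y)) * (v (k + n + 1) z / Sg) := by ring
    rw [h3]
    calc (N.Mb m0 v (k + n) y * v k (N.anc k n y)) * (v (k + n + 1) z / Sg)
        ≤ (τ ^ n * N.Mb m0 v k (N.anc k n y) * (τ * Sg)) * (v (k + n + 1) z / Sg) :=
          mul_le_mul_of_nonneg_right h2 (by positivity)
      _ = τ ^ (n + 1) * N.Mb m0 v k (N.anc k n y) * v (k + n + 1) z := by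
          field_simp
          ring
      _ = _ := by rw [add_assoc]

lemma Mb_anc' (hv : Vt N τ c v) (hm0 : 0 < m0) (k n : ℕ) {z : X} (hz : z ∈ N.net (k + n)) :
    N.Mb m0 v (k + n) z ≤ τ ^ n / c * N.Mb m0 v k (N.anc k n z) := by
  have h1 := Mb_anc hv hm0 k n hz
  have hA := N.anc_mem hz
  have h2 := hv.c_le k _ hA
  have h3 := hv.le_one _ z hz
  have h4 := Mb_pos hv hm0 (k + n) z hz
  have h5 := Mb_pos hv hm0 k _ hA
  have h6 := hv.c_pos
  have h7 := pow_pos hv.τ_pos n
  rw [div_mul_eq_mul_div, le_div_iff₀ h6]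
  calc N.Mb m0 v (k + n) z * c ≤ N.Mb m0 v (k + n) z * v k (N.anc k n z) :=
        mul_le_mul_of_nonneg_left h2 h4.le
    _ ≤ τ ^ n * N.Mb m0 v k (N.anc k n z) * v (k + n) z := h1
    _ ≤ τ ^ n * N.Mb m0 v k (N.anc k n z) * 1 := mul_le_mul_of_nonneg_left h3 (by positivity)
    _ = _ := mul_one _

end masses

section final

variable {N} [MeasurableSpace X] [BorelSpace X]

/-- Number of net points in a ball. -/
lemma card_near' {s c : ℝ} (hc : 0 < c) (H : LowerLocal X s c) (k : ℕ) (x : X) {ρ : ℝ}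
    (hρ : L ^ k / 3 ≤ ρ) (hρ4 : ρ ≤ 4) :
    (((N.net k).filter (fun y => dist y x ≤ ρ)).card : ℝ) ≤ (3 * ρ / L ^ k) ^ s / c := by
  have hk := Lpow_pos k
  have hρ0 : 0 < ρ := by linarith
  obtain ⟨ν, hν1, hν⟩ := H x ρ hρ0 hρ4
  set T := (N.net k).filter (fun y => dist y x ≤ ρ) with hT
  have hq : 0 < (3 * ρ / L ^ k) ^ s := Real.rpow_pos_of_pos (by positivity) s
  have h1 : ∀ y ∈ T, ENNReal.ofReal (c / (3 * ρ / L ^ k) ^ s) ≤ ν (closedBall y (L ^ k / 3)) := by
    intro y hy
    rw [hT, Finset.mem_filter] at hy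
    have h2 := hν y hy.2 (L ^ k / 3) (by positivity) hρ
    have h3 : L ^ k / 3 / ρ = (3 * ρ / L ^ k)⁻¹ := by field_simp
    rw [h3, Real.inv_rpow (by positivity)] at h2
    rwa [div_eq_mul_inv]
  have h4 : ∑ y ∈ T, ν (closedBall y (L ^ k / 3)) ≤ 1 := by
    rw [← measure_biUnion_finset]
    · exact (measure_mono (subset_univ _)).trans hν1
    · intro y hy z hz hyz
      have hy' := (Finset.mem_filter.1 hy).1
      have hz' := (Finset.mem_filter.1 hz).1
      have hd := N.sep k y hy' z hz' hyz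
      exact closedBall_disjoint_closedBall (by linarith)
    · intro y _
      exact isClosed_closedBall.measurableSet
  have h5 : ∑ _y ∈ T, ENNReal.ofReal (c / (3 * ρ / L ^ k) ^ s) ≤ 1 :=
    (Finset.sum_le_sum h1).trans h4
  rw [Finset.sum_const, nsmul_eq_mul] at h5
  have h6 : ENNReal.ofReal ((T.card : ℝ) * (c / (3 * ρ / L ^ k) ^ s)) ≤ ENNReal.ofReal 1 := by
    rw [ENNReal.ofReal_mul (by positivity), ENNReal.ofReal_natCast, ENNReal.ofReal_one]
    exact h5
  rw [ENNReal.ofReal_le_ofReal_iff (by norm_num)] at h6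
  rw [le_div_iff₀ hc]
  have h7 : (T.card : ℝ) * (c / (3 * ρ / L ^ k) ^ s) = T.card * c / (3 * ρ / L ^ k) ^ s := by ring
  rw [h7, div_le_iff₀ hq] at h6
  linarith

theorem exists_measure_lower [CompactSpace X] [Nonempty X] {s C s' c' : ℝ} (hs : 0 ≤ s)
    (H : UpperLocal X s C) (hs' : 0 ≤ s') (hc' : 0 < c') (H' : LowerLocal X s' c') :
    ∃ μ : Measure X, IsProbabilityMeasure μ ∧ (∀ (x : X) (r : ℝ), 0 < r → 0 < μ (closedBall x r)) ∧
      ∃ d : ℝ, 0 < d ∧ ∀ (x : X) (r R : ℝ), 0 < r → r ≤ R → R ≤ 2 →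
      ENNReal.ofReal (d * (R / r) ^ s) * μ (closedBall x r) ≤ μ (closedBall x R) := by
  classical
  obtain ⟨N⟩ := exists_nets X
  have hC := H.one_le
  have h16 : (1 : ℝ) ≤ 16 ^ s := Real.one_le_rpow (by norm_num) hs
  set c : ℝ := 1 / (C * 16 ^ s) with hc
  have hc0 : 0 < c := by positivity
  let v : ℕ → X → ℝ := fun k x => (N.V s k x).toReal
  have hVtop : ∀ k, ∀ x ∈ N.net k, N.V s k x ≠ ⊤ := fun k x hx =>
    ne_top_of_le_ne_top ENNReal.one_ne_top (N.V_le_one hx)
  set τ : ℝ := L ^ s with hτ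
  have hτ0 : 0 < τ := Real.rpow_pos_of_pos L_pos s
  have hv : Vt N τ c v := by
    refine ⟨hτ0, hc0, ?_, ?_, ?_⟩
    · intro k x hx
      exact (ENNReal.ofReal_le_iff_le_toReal (hVtop k x hx)).1 (N.le_V hs H hx)
    · intro k x hx
      have := ENNReal.toReal_mono ENNReal.one_ne_top (N.V_le_one (s := s) hx)
      simpa using this
    · intro k x hx
      have h1 := N.V_sub (s := s) hx
      have hne : ∀ y ∈ (N.net (k + 1)).filter (fun y => N.par k y = x),
          ENNReal.ofReal (L ^ s) * N.V s (k + 1) y ≠ ⊤ := fun y hy =>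
        ENNReal.mul_ne_top ENNReal.ofReal_ne_top (hVtop _ _ (Finset.mem_filter.1 hy).1)
      have h2 := ENNReal.toReal_mono (ENNReal.sum_ne_top.2 hne) h1
      rw [ENNReal.toReal_sum hne] at h2
      have hL : (ENNReal.ofReal (L ^ s)).toReal = τ := by
        rw [ENNReal.toReal_ofReal (Real.rpow_nonneg L_pos.le s), hτ]
      simpa only [v, ENNReal.toReal_mul, hL] using h2
  -- the initial mass
  have hcard : 0 < ((N.net 0).card : ℝ) := by
    obtain ⟨x⟩ := (inferInstance : Nonempty X)
    exact_mod_cast Finset.card_pos.2 ⟨_, N.par_mem 0 x⟩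
  let m0 : ℝ := 1 / (N.net 0).card
  have hm0 : 0 < m0 := by positivity
  have hMpos : ∀ k, ∀ x ∈ N.net k, 0 ≤ N.Mb m0 v k x := fun k x hx => (Mb_pos hv hm0 k x hx).le
  have hM0 : ∑ x ∈ N.net 0, N.Mb m0 v 0 x = 1 := by
    have : ∀ x ∈ N.net 0, N.Mb m0 v 0 x = m0 := fun x _ => rfl
    rw [Finset.sum_congr rfl this, Finset.sum_const, nsmul_eq_mul]
    change ((N.net 0).card : ℝ) * (1 / (N.net 0).card) = 1
    field_simp
  obtain ⟨μ, hμ, hlow, hup⟩ := N.exists_limit_measure hMpos hM0 (Mb_consistent hv)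
  refine ⟨μ, hμ, ?_, ?_⟩
  · intro x r hr
    have hr1 : 0 < min r 1 := lt_min hr one_pos
    obtain ⟨j, hj1, -⟩ := exists_pow_scale (r := min r 1 / 3) (by positivity)
      (by have := min_le_right r 1; linarith)
    have h1 := hlow (j + 1) {N.par (j + 1) x} (closedBall x r)
      (Finset.singleton_subset_iff.2 (N.par_mem _ _)) isClosed_closedBall (by
        intro y hy
        rw [Finset.mem_singleton] at hy
        subst hy
        apply closedBall_subset_closedBall'
        have := N.par_lt (j + 1) x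
        rw [dist_comm] at this
        have := min_le_left r 1
        linarith)
    refine lt_of_lt_of_le ?_ h1
    rw [Finset.sum_singleton, ENNReal.ofReal_pos]
    exact Mb_pos hv hm0 _ _ (N.par_mem _ _)
  · let N1 : ℝ := 240 ^ s' / c'
    have h240 : (0 : ℝ) < 240 ^ s' := Real.rpow_pos_of_pos (by norm_num) s'
    have hN1 : 0 < N1 := by positivity
    have h160 : (0 : ℝ) < 160 ^ s := Real.rpow_pos_of_pos (by norm_num) s
    have h8 : (0 : ℝ) < 8 ^ s := Real.rpow_pos_of_pos (by norm_num) s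
    let d1 : ℝ := 1 / 8 ^ s
    let d2 : ℝ := c / (N1 * 160 ^ s)
    have hd1 : 0 < d1 := by positivity
    have hd2 : 0 < d2 := by positivity
    refine ⟨min d1 d2, lt_min hd1 hd2, ?_⟩
    intro x r R hr hrR hR2
    have hR : 0 < R := hr.trans_le hrR
    have hrs : 0 < (R / r) ^ s := Real.rpow_pos_of_pos (by positivity) s
    have hpowτ : ∀ n : ℕ, τ ^ n = (L ^ n) ^ s := by
      intro n
      rw [hτ, ← Real.rpow_natCast, ← Real.rpow_mul L_pos.le, mul_comm s, Real.rpow_mul L_pos.le,
        Real.rpow_natCast]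
    rcases lt_or_ge (R / 8) r with hcase | hcase
    · -- comparable radii
      have h1 : min d1 d2 * (R / r) ^ s ≤ 1 := by
        have h2 : (R / r) ^ s ≤ 8 ^ s := by
          apply Real.rpow_le_rpow (by positivity) _ hs
          rw [div_le_iff₀ hr]
          linarith
        calc min d1 d2 * (R / r) ^ s ≤ d1 * 8 ^ s := by
              apply mul_le_mul (min_le_left _ _) h2 hrs.le hd1.le
          _ = 1 := by simp only [d1]; field_simp
      calc ENNReal.ofReal (min d1 d2 * (R / r) ^ s) * μ (closedBall x r)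
          ≤ ENNReal.ofReal 1 * μ (closedBall x R) :=
            mul_le_mul' (ENNReal.ofReal_le_ofReal h1)
              (measure_mono (closedBall_subset_closedBall hrR))
        _ = _ := by simp
    · obtain ⟨k, hk1, hk2⟩ := exists_pow_scale (r := R / 8) (by positivity) (by linarith)
      obtain ⟨j, hj1, hj2⟩ := exists_pow_scale hr (by linarith)
      have hkj : k + 1 ≤ j + 1 := by
        by_contra hlt
        push Not at hlt
        have h1 : L ^ k ≤ L ^ (j + 1) := pow_le_pow_of_le_one L_pos.le L_lt_one.le (by omega)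
        linarith
      obtain ⟨n, hn⟩ := Nat.exists_eq_add_of_le hkj
      have hLj : L ^ j = 20 * L ^ (j + 1) := by rw [Lpow_succ]; ring
      have hLk : L ^ k = 20 * L ^ (k + 1) := by rw [Lpow_succ]; ring
      rw [hLj] at hj2
      rw [hLk] at hk2
      rw [hn] at hj1 hj2
      set k' := k + 1 with hk'
      set T := (N.net (k' + n)).filter (fun y => dist y x ≤ 4 * r) with hT
      have hcardT : (T.card : ℝ) ≤ N1 := by
        have hp := Lpow_pos (k' + n)
        refine (card_near' (N := N) hc' H' (k' + n) x (ρ := 4 * r) (by linarith)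
          (by linarith)).trans ?_
        apply div_le_div_of_nonneg_right _ hc'.le
        apply Real.rpow_le_rpow (by positivity) _ hs'
        rw [div_le_iff₀ hp]
        linarith
      -- upper bound for the small ball
      have h1 : μ (closedBall x r) ≤ ENNReal.ofReal (∑ z ∈ T, N.Mb m0 v (k' + n) z) := by
        refine (measure_mono (closedBall_subset_ball (show r < 2 * r by linarith))).trans ?_
        apply hup (k' + n) T (ball x (2 * r)) (Finset.filter_subset _ _) isOpen_ball
        intro y hy hne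
        obtain ⟨p, hp1, hp2⟩ := hne
        rw [mem_closedBall] at hp1
        rw [mem_ball] at hp2
        rw [hT, Finset.mem_filter]
        refine ⟨hy, ?_⟩
        have := dist_triangle_left y x p
        linarith
      -- lower bound for the large ball
      set T' := T.image (fun z => N.anc k' n z) with hT'
      have hT'net : T' ⊆ N.net k' := by
        intro y hy
        rw [hT', Finset.mem_image] at hy
        obtain ⟨z, hz, rfl⟩ := hy
        exact N.anc_mem (Finset.mem_filter.1 hz).1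
      have h2 : ENNReal.ofReal (∑ y ∈ T', N.Mb m0 v k' y) ≤ μ (closedBall x R) := by
        apply hlow k' T' _ hT'net isClosed_closedBall
        intro y hy
        rw [hT', Finset.mem_image] at hy
        obtain ⟨z, hz, rfl⟩ := hy
        apply closedBall_subset_closedBall'
        have h3 := (Finset.mem_filter.1 hz).2
        have h4 := N.dist_anc_le' k' n z
        have h5 := dist_triangle_left (N.anc k' n z) x z
        linarith
      have hsum : ∑ z ∈ T, N.Mb m0 v (k' + n) z ≤
          N1 * (τ ^ n / c) * ∑ y ∈ T', N.Mb m0 v k' y := by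
        have hSg : 0 ≤ ∑ y ∈ T', N.Mb m0 v k' y :=
          Finset.sum_nonneg fun y hy => hMpos _ _ (hT'net hy)
        have hτn := pow_pos hτ0 n
        have h3 : ∀ z ∈ T, N.Mb m0 v (k' + n) z ≤ τ ^ n / c * ∑ y ∈ T', N.Mb m0 v k' y := by
          intro z hz
          refine (Mb_anc' hv hm0 k' n (Finset.mem_filter.1 hz).1).trans ?_
          apply mul_le_mul_of_nonneg_left _ (by positivity)
          apply Finset.single_le_sum (f := fun y => N.Mb m0 v k' y)
            (fun y hy => hMpos _ _ (hT'net hy))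
          exact Finset.mem_image_of_mem _ hz
        have h4 := Finset.sum_le_sum h3
        rw [Finset.sum_const, nsmul_eq_mul] at h4
        refine h4.trans ?_
        calc (T.card : ℝ) * (τ ^ n / c * ∑ y ∈ T', N.Mb m0 v k' y)
            ≤ N1 * (τ ^ n / c * ∑ y ∈ T', N.Mb m0 v k' y) :=
              mul_le_mul_of_nonneg_right hcardT (by positivity)
          _ = _ := by ring
      have hratio : min d1 d2 * (R / r) ^ s * (N1 * (τ ^ n / c)) ≤ 1 := by
        have h3 : (R / r) ^ s * τ ^ n ≤ 160 ^ s := by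
          rw [hpowτ, ← Real.mul_rpow (by positivity) (Lpow_pos n).le]
          apply Real.rpow_le_rpow (by have := Lpow_pos n; positivity) _ hs
          have h4 : L ^ (k' + n) = L ^ k' * L ^ n := pow_add _ _ _
          rw [h4] at hj1
          have h5 := Lpow_pos n
          have h6 := Lpow_pos k'
          rw [div_mul_eq_mul_div, div_le_iff₀ hr]
          nlinarith
        have h4 : min d1 d2 * N1 / c * ((R / r) ^ s * τ ^ n) ≤ d2 * N1 / c * 160 ^ s := by
          apply mul_le_mul _ h3 (by have := pow_pos hτ0 n; positivity) (by positivity)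
          apply div_le_div_of_nonneg_right _ hc0.le
          exact mul_le_mul_of_nonneg_right (min_le_right _ _) hN1.le
        have h5 : d2 * N1 / c * 160 ^ s = 1 := by
          simp only [d2]
          field_simp
        rw [h5] at h4
        calc min d1 d2 * (R / r) ^ s * (N1 * (τ ^ n / c))
            = min d1 d2 * N1 / c * ((R / r) ^ s * τ ^ n) := by ring
          _ ≤ 1 := h4
      have hmin : 0 < min d1 d2 := lt_min hd1 hd2
      calc ENNReal.ofReal (min d1 d2 * (R / r) ^ s) * μ (closedBall x r)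
          ≤ ENNReal.ofReal (min d1 d2 * (R / r) ^ s) *
              ENNReal.ofReal (N1 * (τ ^ n / c) * ∑ y ∈ T', N.Mb m0 v k' y) :=
            mul_le_mul_right (h1.trans (ENNReal.ofReal_le_ofReal hsum)) _
        _ = ENNReal.ofReal (min d1 d2 * (R / r) ^ s * (N1 * (τ ^ n / c))) *
              ENNReal.ofReal (∑ y ∈ T', N.Mb m0 v k' y) := by
            have hτn := pow_pos hτ0 n
            rw [ENNReal.ofReal_mul (p := N1 * (τ ^ n / c)) (by positivity), ← mul_assoc,
              ← ENNReal.ofReal_mul (p := min d1 d2 * (R / r) ^ s) (by positivity)]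
        _ ≤ ENNReal.ofReal 1 * μ (closedBall x R) :=
            mul_le_mul' (ENNReal.ofReal_le_ofReal hratio) h2
        _ = _ := by simp

end final

end Nets

end Pool.Agent.CarpetMeasures
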