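import Mathlib

/-!
# Nested nets in a compact metric space and the cells attached to them
-/

set_option autoImplicit false

open MeasureTheory Metric Set Filter Topology

namespace Pool.Agent.CarpetMeasures

/-- The ratio of consecutive scales. -/
noncomputable def L : ℝ := 1 / 20

lemma L_eq : L = 1 / 20 := rfl

lemma L_pos : 0 < L := by norm_num [L]

lemma L_lt_one : L < 1 := by norm_num [L]

lemma Lpow_pos (k : ℕ) : 0 < L ^ k := pow_pos L_pos k

lemma Lpow_succ (k : ℕ) : L ^ (k + 1) = L ^ k / 20 := by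
  rw [pow_succ, L_eq]; ring

lemma Lpow_le_one (k : ℕ) : L ^ k ≤ 1 := pow_le_one₀ L_pos.le L_lt_one.le

/-- The points of `T` have mutual distances at least `ε`. -/
def Sep {X : Type*} [MetricSpace X] (ε : ℝ) (T : Finset X) : Prop :=
  ∀ x ∈ T, ∀ y ∈ T, x ≠ y → ε ≤ dist x y

lemma exists_extend {X : Type*} [MetricSpace X] [CompactSpace X] {ε : ℝ} (hε : 0 < ε)
    (S : Finset X) (hS : Sep ε S) :
    ∃ T : Finset X, S ⊆ T ∧ Sep ε T ∧ ∀ z, ∃ x ∈ T, dist z x < ε := by
  classical
  obtain ⟨t, -, htfin, ht⟩ := finite_cover_balls_of_compact (isCompact_univ (X := X)) (half_pos hε)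
  have hcard : ∀ T : Finset X, Sep ε T → T.card ≤ htfin.toFinset.card := by
    intro T hT
    have hch : ∀ x : X, ∃ y ∈ t, dist x y < ε / 2 := by
      intro x
      have := ht (mem_univ x)
      simp only [mem_iUnion, mem_ball] at this
      obtain ⟨y, hy, hxy⟩ := this
      exact ⟨y, hy, hxy⟩
    choose f hf hfd using hch
    refine Finset.card_le_card_of_injOn f (fun x _ => by simpa using hf x) ?_
    intro x hx y hy hxy
    by_contra hne
    have h1 := hT x hx y hy hne
    have h2 := dist_triangle x (f x) y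
    have h3 := hfd x
    have h4 := hfd y
    rw [← hxy, dist_comm] at h4
    linarith
  let P : ℕ → Prop := fun n => ∃ T : Finset X, S ⊆ T ∧ Sep ε T ∧ T.card = n
  have hP : P S.card := ⟨S, subset_rfl, hS, rfl⟩
  have hn := Nat.findGreatest_spec (P := P) (hcard S hS) hP
  obtain ⟨T, hST, hT, hTc⟩ := hn
  refine ⟨T, hST, hT, ?_⟩
  intro z
  by_contra hcon
  push Not at hcon
  have hzT : z ∉ T := by
    intro hz
    have := hcon z hz
    rw [dist_self] at this
    linarith
  have hins : Sep ε (insert z T) := by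
    intro x hx y hy hxy
    rw [Finset.mem_insert] at hx hy
    rcases hx with rfl | hx <;> rcases hy with rfl | hy
    · exact absurd rfl hxy
    · exact hcon y hy
    · rw [dist_comm]; exact hcon x hx
    · exact hT x hx y hy hxy
  have hP' : P (T.card + 1) := ⟨insert z T, hST.trans (Finset.subset_insert _ _), hins,
    Finset.card_insert_of_notMem hzT⟩
  have h1 : T.card + 1 ≤ htfin.toFinset.card := by
    have := hcard _ hins
    rwa [Finset.card_insert_of_notMem hzT] at this
  have h2 := Nat.le_findGreatest h1 hP'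
  rw [← hTc] at h2
  omega

/-- Nested maximal `L ^ k`-separated sets with nearest point projections. -/
structure Nets (X : Type*) [MetricSpace X] where
  net : ℕ → Finset X
  par : ℕ → X → X
  mono : ∀ k, net k ⊆ net (k + 1)
  sep : ∀ k, Sep (L ^ k) (net k)
  par_mem : ∀ k z, par k z ∈ net k
  par_lt : ∀ k z, dist z (par k z) < L ^ k
  par_min : ∀ k z, ∀ x ∈ net k, dist z (par k z) ≤ dist z x

theorem exists_nets (X : Type*) [MetricSpace X] [CompactSpace X] [Nonempty X] :
    Nonempty (Nets X) := by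
  classical
  let Ty : ℕ → Type _ := fun k => {T : Finset X // Sep (L ^ k) T ∧ ∀ z, ∃ x ∈ T, dist z x < L ^ k}
  have h0 : ∃ T : Finset X, Sep (L ^ 0) T ∧ ∀ z, ∃ x ∈ T, dist z x < L ^ 0 := by
    obtain ⟨T, -, h1, h2⟩ := exists_extend (Lpow_pos 0) (∅ : Finset X) (fun x hx => by simp at hx)
    exact ⟨T, h1, h2⟩
  have hstep : ∀ (k : ℕ) (T : Ty k), ∃ T' : Ty (k + 1), T.1 ⊆ T'.1 := by
    intro k T
    have hsep : Sep (L ^ (k + 1)) T.1 := by
      intro x hx y hy hxy
      have := T.2.1 x hx y hy hxy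
      have h1 := Lpow_succ k
      have h2 := Lpow_pos k
      linarith
    obtain ⟨T', h1, h2, h3⟩ := exists_extend (Lpow_pos (k + 1)) T.1 hsep
    exact ⟨⟨T', h2, h3⟩, h1⟩
  choose nxt hnxt using hstep
  let seq : (k : ℕ) → Ty k := fun k => Nat.rec ⟨h0.choose, h0.choose_spec⟩ (fun k T => nxt k T) k
  have hseq : ∀ k, seq (k + 1) = nxt k (seq k) := fun k => rfl
  have hne : ∀ k, (seq k).1.Nonempty := by
    intro k
    obtain ⟨x⟩ := (inferInstance : Nonempty X)
    obtain ⟨y, hy, -⟩ := (seq k).2.2 x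
    exact ⟨y, hy⟩
  have hmin : ∀ k (z : X), ∃ y ∈ (seq k).1, ∀ x ∈ (seq k).1, dist z y ≤ dist z x :=
    fun k z => Finset.exists_min_image _ _ (hne k)
  choose par hpar hparmin using hmin
  exact ⟨{
    net := fun k => (seq k).1
    par := par
    mono := fun k => by rw [hseq]; exact hnxt k _
    sep := fun k => (seq k).2.1
    par_mem := hpar
    par_lt := fun k z => by
      obtain ⟨x, hx, hxz⟩ := (seq k).2.2 z
      exact (hparmin k z x hx).trans_lt hxz
    par_min := hparmin }⟩

namespace Nets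

variable {X : Type*} [MetricSpace X] (N : Nets X)

lemma par_self {k : ℕ} {z : X} (hz : z ∈ N.net k) : N.par k z = z := by
  have := N.par_min k z z hz
  rw [dist_self] at this
  exact (dist_le_zero.1 this).symm

lemma par_eq_of_dist_lt {k : ℕ} {z x : X} (hx : x ∈ N.net k) (h : dist z x < L ^ k / 2) :
    N.par k z = x := by
  by_contra hne
  have h1 := N.sep k _ (N.par_mem k z) x hx hne
  have h2 := N.par_min k z x hx
  have h3 := dist_triangle_left (N.par k z) x z
  linarith

/-- The ancestor at level `k` of a point of level `k + n`. -/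
noncomputable def anc (k : ℕ) : ℕ → X → X
  | 0, z => z
  | n + 1, z => anc k n (N.par (k + n) z)

@[simp] lemma anc_zero (k : ℕ) (z : X) : N.anc k 0 z = z := rfl

lemma anc_succ (k n : ℕ) (z : X) : N.anc k (n + 1) z = N.anc k n (N.par (k + n) z) := rfl

lemma anc_mem {k n : ℕ} {z : X} (hz : z ∈ N.net (k + n)) : N.anc k n z ∈ N.net k := by
  induction n generalizing z with
  | zero => exact hz
  | succ n ih => exact ih (N.par_mem _ _)

lemma anc_add (k m n : ℕ) (z : X) : N.anc k (m + n) z = N.anc k m (N.anc (k + m) n z) := by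
  induction n generalizing z with
  | zero => rfl
  | succ n ih =>
    rw [← add_assoc, anc_succ, ih, anc_succ, add_assoc]

lemma anc_succ' (k n : ℕ) (z : X) : N.anc k (n + 1) z = N.par k (N.anc (k + 1) n z) := by
  rw [add_comm n 1, N.anc_add k 1 n z]
  rfl

lemma dist_anc_lt (k n : ℕ) (z : X) : dist z (N.anc k n z) ≤ (20 / 19) * L ^ k * (1 - L ^ n) := by
  induction n generalizing z with
  | zero => simp
  | succ n ih =>
    rw [anc_succ]
    have h1 := dist_triangle z (N.par (k + n) z) (N.anc k n (N.par (k + n) z))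
    have h2 := ih (N.par (k + n) z)
    have h3 := N.par_lt (k + n) z
    have h4 : L ^ (k + n) = L ^ k * L ^ n := pow_add _ _ _
    have h5 := Lpow_succ n
    have h6 := Lpow_pos k
    have h7 := Lpow_pos n
    rw [h5]
    rw [h4] at h3
    nlinarith

lemma dist_anc_le (k n : ℕ) (z : X) : dist z (N.anc k n z) ≤ (20 / 19) * L ^ k := by
  have h1 := N.dist_anc_lt k n z
  have h2 := Lpow_pos k
  have h3 := Lpow_pos n
  nlinarith [mul_pos h2 h3]

lemma dist_anc_le' (k n : ℕ) (z : X) : dist z (N.anc k n z) ≤ 2 * L ^ k := by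
  have h1 := N.dist_anc_le k n z
  have h2 := Lpow_pos k
  linarith

/-- A point of a finer net which is close to a point `x` of the net `k` descends from `x`. -/
lemma anc_eq_of_dist_lt_aux (k n : ℕ) {z x : X} (hx : x ∈ N.net k)
    (h : dist z x < L ^ k * (2 / 5 + L ^ n / 10)) : N.anc k (n + 1) z = x := by
  induction n generalizing z with
  | zero =>
    rw [anc_succ, anc_zero, add_zero]
    apply N.par_eq_of_dist_lt hx
    simp only [pow_zero] at h
    linarith
  | succ n ih =>
    rw [anc_succ]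
    apply ih
    have h1 := dist_triangle_left (N.par (k + (n + 1)) z) x z
    have h2 := N.par_lt (k + (n + 1)) z
    have h4 : L ^ (k + (n + 1)) = L ^ k * L ^ n / 20 := by rw [← add_assoc, Lpow_succ, pow_add]
    have h5 := Lpow_succ n
    have h6 := Lpow_pos k
    have h7 := Lpow_pos n
    rw [h4] at h2
    rw [h5] at h
    have h8 := mul_pos h6 h7
    nlinarith

lemma anc_eq_of_dist_lt (k n : ℕ) {z x : X} (hz : z ∈ N.net (k + n)) (hx : x ∈ N.net k)
    (h : dist z x < L ^ k / 4) : N.anc k n z = x := by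
  cases n with
  | zero =>
    rw [anc_zero]
    by_contra hne
    have h1 := N.sep k z hz x hx hne
    have h2 := Lpow_pos k
    linarith
  | succ n =>
    apply N.anc_eq_of_dist_lt_aux k n hx
    have h2 := Lpow_pos k
    have h3 := Lpow_pos n
    nlinarith [mul_pos h2 h3]

/-- The set of descendants, `n` generations below, of the point `x` of level `k`. -/
noncomputable def desc [DecidableEq X] (k n : ℕ) (x : X) : Finset X :=
  (N.net (k + n)).filter (fun z => N.anc k n z = x)

/-- The (open) cell of the node `(k, x)`. -/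
def cell (k : ℕ) (x : X) : Set X :=
  ⋃ n : ℕ, ⋃ z ∈ {z | z ∈ N.net (k + n) ∧ N.anc k n z = x}, ball z (L ^ (k + n) / 10)

lemma isOpen_cell (k : ℕ) (x : X) : IsOpen (N.cell k x) :=
  isOpen_iUnion fun _ => isOpen_biUnion fun _ _ => isOpen_ball

lemma mem_cell {k : ℕ} {x p : X} : p ∈ N.cell k x ↔
    ∃ n : ℕ, ∃ z, z ∈ N.net (k + n) ∧ N.anc k n z = x ∧ dist p z < L ^ (k + n) / 10 := by
  simp only [cell, mem_iUnion, mem_ofPred_eq, mem_ball, exists_prop, and_assoc]

lemma ball_subset_cell {k : ℕ} {x : X} (hx : x ∈ N.net k) :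
    ball x (L ^ k / 10) ⊆ N.cell k x := by
  intro p hp
  rw [mem_cell]
  exact ⟨0, x, hx, rfl, hp⟩

lemma cell_subset {k : ℕ} {y : X} : N.cell (k + 1) y ⊆ N.cell k (N.par k y) := by
  intro p hp
  rw [mem_cell] at hp ⊢
  obtain ⟨n, z, hz, hzy, hpz⟩ := hp
  refine ⟨n + 1, z, ?_, ?_, ?_⟩
  · rwa [show k + (n + 1) = k + 1 + n by ring]
  · rw [anc_succ', hzy]
  · rwa [show k + (n + 1) = k + 1 + n by ring]

lemma cell_disjoint_aux {k : ℕ} {x y p : X} {n m : ℕ} (hnm : n ≤ m) {z w : X}
    (hz : z ∈ N.net (k + n)) (hzx : N.anc k n z = x) (hpz : dist p z < L ^ (k + n) / 10)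
    (hw : w ∈ N.net (k + m)) (hwy : N.anc k m w = y) (hpw : dist p w < L ^ (k + m) / 10) :
    x = y := by
  obtain ⟨j, rfl⟩ := Nat.exists_eq_add_of_le hnm
  rw [← add_assoc] at hw hpw
  have hle : L ^ (k + n + j) ≤ L ^ (k + n) := by
    rw [pow_add L (k + n) j]
    have h1 := Lpow_pos (k + n)
    have h2 := Lpow_le_one j
    nlinarith
  have hd : dist w z < L ^ (k + n) / 4 := by
    have h1 := dist_triangle_left w z p
    have h2 := Lpow_pos (k + n)
    linarith
  have := N.anc_eq_of_dist_lt (k + n) j hw hz hd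
  rw [← hzx, ← hwy, N.anc_add k n j w, this]

lemma cell_disjoint {k : ℕ} {x y : X} (hxy : x ≠ y) : Disjoint (N.cell k x) (N.cell k y) := by
  rw [Set.disjoint_left]
  intro p hp hq
  rw [mem_cell] at hp hq
  obtain ⟨n, z, hz, hzx, hpz⟩ := hp
  obtain ⟨m, w, hw, hwy, hpw⟩ := hq
  rcases le_total n m with h | h
  · exact hxy (N.cell_disjoint_aux h hz hzx hpz hw hwy hpw)
  · exact hxy (N.cell_disjoint_aux h hw hwy hpw hz hzx hpz).symm

/-- The closed cell of the node `(k, x)`: closure of the set of all descendants. -/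
def ccell (k : ℕ) (x : X) : Set X :=
  closure {z | ∃ n : ℕ, z ∈ N.net (k + n) ∧ N.anc k n z = x}

lemma isClosed_ccell (k : ℕ) (x : X) : IsClosed (N.ccell k x) := isClosed_closure

lemma ccell_subset_closedBall (k : ℕ) (x : X) : N.ccell k x ⊆ closedBall x (2 * L ^ k) := by
  apply closure_minimal _ isClosed_closedBall
  rintro z ⟨n, -, hzx⟩
  rw [mem_closedBall, ← hzx]
  exact N.dist_anc_le' k n z

lemma ccell_subset [DecidableEq X] {k : ℕ} {x : X} (hx : x ∈ N.net k) :
    N.ccell k x ⊆ ⋃ y ∈ (N.net (k + 1)).filter (fun y => N.par k y = x), N.ccell (k + 1) y := by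
  apply closure_minimal
  · rintro z ⟨n, hz, hzx⟩
    simp only [mem_iUnion, Finset.mem_filter, exists_prop]
    cases n with
    | zero =>
      rw [anc_zero] at hzx
      subst hzx
      exact ⟨z, ⟨N.mono k hx, N.par_self hx⟩, subset_closure ⟨0, N.mono k hx, rfl⟩⟩
    | succ n =>
      rw [show k + (n + 1) = k + 1 + n by ring] at hz
      refine ⟨N.anc (k + 1) n z, ⟨N.anc_mem hz, ?_⟩, subset_closure ⟨n, hz, rfl⟩⟩
      rw [← anc_succ', hzx]
  · exact (Finset.finite_toSet _).isClosed_biUnion fun y _ => N.isClosed_ccell _ _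

lemma Lpow_tendsto : Tendsto (fun n : ℕ => L ^ n) atTop (𝓝 0) :=
  tendsto_pow_atTop_nhds_zero_of_lt_one L_pos.le L_lt_one

lemma ball_subset_ccell {k : ℕ} {x : X} (hx : x ∈ N.net k) :
    ball x (L ^ k / 4) ⊆ N.ccell k x := by
  intro p hp
  rw [mem_ball] at hp
  rw [ccell, Metric.mem_closure_iff]
  intro ε hε
  -- choose `n` with `L ^ n` small
  have hδ : 0 < min ε (L ^ k / 4 - dist p x) := lt_min hε (by linarith)
  obtain ⟨n, hn⟩ := ((tendsto_order.1 Lpow_tendsto).2 _ hδ).exists
  have hn' : L ^ (k + n) < min ε (L ^ k / 4 - dist p x) := by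
    refine lt_of_le_of_lt ?_ hn
    rw [pow_add]
    have h1 := Lpow_le_one k
    have h2 := Lpow_pos n
    nlinarith
  have h3 := N.par_lt (k + n) p
  refine ⟨N.par (k + n) p, ⟨n, N.par_mem _ _, ?_⟩, ?_⟩
  · apply N.anc_eq_of_dist_lt k n (N.par_mem _ _) hx
    have h4 := dist_triangle_left (N.par (k + n) p) x p
    have h5 := min_le_right ε (L ^ k / 4 - dist p x)
    linarith
  · have h5 := min_le_left ε (L ^ k / 4 - dist p x)
    linarith

end Nets

end Pool.Agent.CarpetMeasures
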