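import Pool.Agent.CarpetMeasures.Defs

/-!
# Exponents and product measures for self-affine carpets
-/

set_option autoImplicit false

open MeasureTheory Set Filter Topology

namespace Pool.Agent.CarpetMeasures

/-! ### Exponents -/

/-- Intermediate value theorem for `β ↦ ∑ c x * b x ^ β`. -/
lemma exists_exponent {I : Type*} (T : Finset I) (c b : I → ℝ) (_hc : ∀ x ∈ T, 0 ≤ c x)
    (hb0 : ∀ x ∈ T, 0 < b x) (hb1 : ∀ x ∈ T, b x < 1) (hsum : 1 ≤ ∑ x ∈ T, c x) :
    ∃ β : ℝ, 0 ≤ β ∧ ∑ x ∈ T, c x * b x ^ β = 1 := by
  have hcont : ContinuousOn (fun β : ℝ => ∑ x ∈ T, c x * b x ^ β) univ := by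
    apply continuousOn_finsetSum
    intro x hx
    apply Continuous.continuousOn
    exact continuous_const.mul (Real.continuous_const_rpow (hb0 x hx).ne')
  have hlim : Tendsto (fun β : ℝ => ∑ x ∈ T, c x * b x ^ β) atTop (𝓝 0) := by
    have h0 : (0 : ℝ) = ∑ x ∈ T, c x * 0 := by simp
    rw [h0]
    apply tendsto_finsetSum
    intro x hx
    apply Tendsto.const_mul
    exact tendsto_rpow_atTop_of_base_lt_one _ (by linarith [hb0 x hx]) (hb1 x hx)
  obtain ⟨B, hB0, hB⟩ := ((eventually_ge_atTop (0 : ℝ)).and
    (hlim.eventually_lt_const zero_lt_one)).exists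
  have h1 : (1 : ℝ) ∈ Icc (∑ x ∈ T, c x * b x ^ B) (∑ x ∈ T, c x * b x ^ (0 : ℝ)) := by
    refine ⟨hB.le, ?_⟩
    simpa using hsum
  obtain ⟨β, hβ, hβ1⟩ := intermediate_value_Icc' hB0 (hcont.mono (subset_univ _)) h1
  exact ⟨β, hβ.1, hβ1⟩

section Prod
variable {I J K : Type*} [Fintype I] [Nonempty I] [DecidableEq I] [DecidableEq J] [DecidableEq K]

omit [DecidableEq I] [DecidableEq J] in
/-- IVT twice: first s (for each row the sum of a^s over the row equals 1), then beta. -/
theorem exists_expo (S : Sys I J K) : Nonempty (Expo S) := by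
  have hrow : ∀ k : K, ∃ s : ℝ, 0 ≤ s ∧ ((∃ i, S.row i = k) →
      ∑ i' ∈ Finset.univ.filter (fun i' => S.row i' = k), S.a i' ^ s = 1) := by
    intro k
    by_cases hk : ∃ i, S.row i = k
    · obtain ⟨i, hi⟩ := hk
      obtain ⟨s, hs0, hs1⟩ := exists_exponent (Finset.univ.filter (fun i' => S.row i' = k))
        (fun _ => 1) S.a (fun _ _ => zero_le_one) (fun x _ => S.a_pos x) (fun x _ => S.a_lt x)
        (by
          rw [Finset.sum_const, nsmul_eq_mul, mul_one]
          have : 0 < (Finset.univ.filter (fun i' => S.row i' = k)).card :=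
            Finset.card_pos.2 ⟨i, by simp [hi]⟩
          exact_mod_cast this)
      refine ⟨s, hs0, fun _ => ?_⟩
      simpa using hs1
    · exact ⟨0, le_rfl, fun h => absurd h hk⟩
  choose σ hσ0 hσ1 using hrow
  have hsum_row : ∀ i, ∑ i' ∈ Finset.univ.filter (fun i' => S.row i' = S.row i),
      S.a i' ^ σ (S.row i') = 1 := by
    intro i
    rw [← hσ1 (S.row i) ⟨i, rfl⟩]
    apply Finset.sum_congr rfl
    intro x hx
    rw [(Finset.mem_filter.1 hx).2]
  obtain ⟨β, hβ0, hβ1⟩ := exists_exponent Finset.univ (fun x => S.a x ^ σ (S.row x)) S.b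
    (fun x _ => (Real.rpow_pos_of_pos (S.a_pos x) _).le) (fun x _ => S.b_pos x)
    (fun x _ => S.b_lt x) (by
      obtain ⟨i⟩ := ‹Nonempty I›
      rw [← hsum_row i]
      apply Finset.sum_le_sum_of_subset_of_nonneg (Finset.filter_subset _ _)
      intro x _ _
      exact (Real.rpow_pos_of_pos (S.a_pos x) _).le)
  exact ⟨{ s := fun i => σ (S.row i)
           β := β
           s_nonneg := fun i => hσ0 _
           β_nonneg := hβ0
           s_row := fun i i' h => by rw [h]
           sum_row := hsum_row
           sum_all := by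
            rw [← hβ1]
            apply Finset.sum_congr rfl
            intro x _
            ring }⟩

variable [MeasurableSpace I] [MeasurableSingletonClass I]

omit [Nonempty I] [DecidableEq I] in
/-- Product measures on sequences with prescribed weights. -/
lemma exists_product (w : ℕ → I → ℝ) (hw0 : ∀ m x, 0 ≤ w m x) (hw1 : ∀ m, ∑ x, w m x = 1) :
    ∃ ν : Measure (ℕ → I), IsProbabilityMeasure ν ∧ ∀ (N : ℕ) (E : ℕ → Finset I),
      ν {z | ∀ m < N, z m ∈ E m} = ENNReal.ofReal (∏ m ∈ Finset.range N, ∑ x ∈ E m, w m x) := by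
  classical
  set μ : ℕ → Measure I := fun m => ∑ x, ENNReal.ofReal (w m x) • Measure.dirac x with hμ
  have hmeas : ∀ (m : ℕ) (E : Finset I), μ m E = ENNReal.ofReal (∑ x ∈ E, w m x) := by
    intro m E
    rw [ENNReal.ofReal_sum_of_nonneg (fun x _ => hw0 m x)]
    simp only [hμ, Measure.coe_finsetSum, Measure.coe_smul, Finset.sum_apply, Pi.smul_apply,
      smul_eq_mul]
    rw [← Finset.sum_filter_add_sum_filter_not Finset.univ (fun x => x ∈ E)]
    have h1 : ∑ x ∈ Finset.univ.filter (fun x => x ∉ E),
        ENNReal.ofReal (w m x) * (Measure.dirac x) (E : Set I) = 0 := by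
      apply Finset.sum_eq_zero
      intro x hx
      have hx' := (Finset.mem_filter.1 hx).2
      rw [Measure.dirac_apply, Set.indicator_of_notMem (by simpa using hx'), mul_zero]
    rw [h1, add_zero]
    have h2 : Finset.univ.filter (fun x => x ∈ E) = E := by ext; simp
    rw [h2]
    apply Finset.sum_congr rfl
    intro x hx
    rw [Measure.dirac_apply, Set.indicator_of_mem (by simpa using hx)]
    simp
  have hprob : ∀ m, IsProbabilityMeasure (μ m) := by
    intro m
    constructor
    have := hmeas m Finset.univ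
    rw [Finset.coe_univ, hw1 m, ENNReal.ofReal_one] at this
    exact this
  refine ⟨Measure.infinitePi μ, inferInstance, ?_⟩
  intro N E
  have h1 : {z : ℕ → I | ∀ m < N, z m ∈ E m} =
      Set.pi (Finset.range N : Set ℕ) (fun m => (E m : Set I)) := by
    ext z
    simp [Set.mem_pi]
  rw [h1, Measure.infinitePi_pi μ (fun m _ => (E m).finite_toSet.measurableSet),
    ENNReal.ofReal_prod_of_nonneg (fun m _ => Finset.sum_nonneg (fun x _ => hw0 m x))]
  apply Finset.prod_congr rfl
  intro m _
  exact hmeas m (E m)

omit [Nonempty I] [DecidableEq I] [MeasurableSpace I] [MeasurableSingletonClass I] in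
lemma cls_eq (S : Sys I J K) (k l N : ℕ) (hk : k ≤ N) (hl : l ≤ N) (i : ℕ → I) :
    S.cls k l i = {z | ∀ m < N, z m ∈ Finset.univ.filter (fun x =>
      (m < k → S.col x = S.col (i m)) ∧ (m < l → S.row x = S.row (i m)))} := by
  ext z
  constructor
  · rintro ⟨h1, h2⟩ m _
    exact Finset.mem_filter.2 ⟨Finset.mem_univ _, h1 m, h2 m⟩
  · intro h
    refine ⟨fun m hm => ?_, fun m hm => ?_⟩
    · exact (Finset.mem_filter.1 (h m (hm.trans_le hk))).2.1 hm
    · exact (Finset.mem_filter.1 (h m (hm.trans_le hl))).2.2 hm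

omit [Fintype I] [Nonempty I] [DecidableEq I] [DecidableEq J] [DecidableEq K] [MeasurableSpace I]
  [MeasurableSingletonClass I] in
lemma prod_Ico_eq (f : ℕ → ℝ) {k k' N : ℕ} (hN : k' ≤ N) :
    ∏ m ∈ Finset.Ico k k', f m =
      ∏ m ∈ Finset.range N, if k ≤ m ∧ m < k' then f m else 1 := by
  rw [← Finset.prod_filter]
  apply Finset.prod_congr _ (fun _ _ => rfl)
  ext m
  simp only [Finset.mem_Ico, Finset.mem_filter, Finset.mem_range]
  omega

omit [Nonempty I] [MeasurableSpace I] [MeasurableSingletonClass I] [DecidableEq I]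
  [DecidableEq J] in
/-- row sums -/
lemma row_sum (S : Sys I J K) (e : Expo S) (y : I) :
    ∑ x ∈ Finset.univ.filter (fun x => S.row x = S.row y), S.b x ^ e.β * S.a x ^ e.s x =
      S.b y ^ e.β := by
  rw [← mul_one (S.b y ^ e.β), ← e.sum_row y, Finset.mul_sum]
  apply Finset.sum_congr rfl
  intro x hx
  rw [S.row_b x y (Finset.mem_filter.1 hx).2]

omit [Nonempty I] [MeasurableSpace I] [MeasurableSingletonClass I] in
/-- column sums -/
lemma col_sum_le (S : Sys I J K) (e : Expo S) (y : I) :
    ∑ x ∈ Finset.univ.filter (fun x => S.col x = S.col y), S.b x ^ e.β ≤ 1 := by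
  have h1 : ∑ x ∈ Finset.univ.filter (fun x => S.col x = S.col y), S.b x ^ e.β =
      ∑ x ∈ Finset.univ.filter (fun x => S.col x = S.col y),
        ∑ z ∈ Finset.univ.filter (fun z => S.row z = S.row x), S.b z ^ e.β * S.a z ^ e.s z := by
    apply Finset.sum_congr rfl
    intro x _
    rw [row_sum S e x]
  rw [h1, ← e.sum_all, ← Finset.sum_biUnion]
  · apply Finset.sum_le_sum_of_subset_of_nonneg (Finset.subset_univ _)
    intro z _ _
    exact mul_nonneg (Real.rpow_pos_of_pos (S.b_pos z) _).le
      (Real.rpow_pos_of_pos (S.a_pos z) _).le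
  · intro x hx x' hx' hne
    simp only [Function.onFun]
    rw [Finset.disjoint_left]
    intro z hz hz'
    apply hne
    apply S.inj
    · have h1 := (Finset.mem_filter.1 hx).2
      have h2 := (Finset.mem_filter.1 hx').2
      rw [h1, h2]
    · rw [← (Finset.mem_filter.1 hz).2, ← (Finset.mem_filter.1 hz').2]

/-- the finset of admissible letters at place `m` -/
def adm (S : Sys I J K) (k l : ℕ) (i : ℕ → I) (m : ℕ) : Finset I :=
  Finset.univ.filter (fun x => (m < k → S.col x = S.col (i m)) ∧ (m < l → S.row x = S.row (i m)))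

omit [Nonempty I] [DecidableEq I] [MeasurableSpace I] [MeasurableSingletonClass I] in
lemma adm_both (S : Sys I J K) {k l m : ℕ} (i : ℕ → I) (hk : m < k) (hl : m < l) :
    adm S k l i m = {i m} := by
  ext x
  simp only [adm, Finset.mem_filter, Finset.mem_univ, true_and, Finset.mem_singleton, hk, hl,
    true_imp_iff]
  constructor
  · rintro ⟨h1, h2⟩
    exact S.inj _ _ h1 h2
  · rintro rfl
    exact ⟨rfl, rfl⟩

omit [Nonempty I] [DecidableEq I] [MeasurableSpace I] [MeasurableSingletonClass I] in
lemma adm_row (S : Sys I J K) {k l m : ℕ} (i : ℕ → I) (hk : k ≤ m) (hl : m < l) :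
    adm S k l i m = Finset.univ.filter (fun x => S.row x = S.row (i m)) := by
  ext x
  simp [adm, hk.not_gt, hl]

omit [Nonempty I] [DecidableEq I] [MeasurableSpace I] [MeasurableSingletonClass I] in
lemma adm_col (S : Sys I J K) {k l m : ℕ} (i : ℕ → I) (hk : m < k) (hl : l ≤ m) :
    adm S k l i m = Finset.univ.filter (fun x => S.col x = S.col (i m)) := by
  ext x
  simp [adm, hk, hl.not_gt]

omit [Nonempty I] [DecidableEq I] [MeasurableSpace I] [MeasurableSingletonClass I] in
lemma adm_none (S : Sys I J K) {k l m : ℕ} (i : ℕ → I) (hk : k ≤ m) (hl : l ≤ m) :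
    adm S k l i m = Finset.univ := by
  ext x
  simp [adm, hk.not_gt, hl.not_gt]

/-- the weights of the class measure -/
noncomputable def wt (S : Sys I J K) (e : Expo S) (k l : ℕ) (i : ℕ → I) (m : ℕ) (x : I) : ℝ :=
  if m < l then
    if m < k then (if x = i m then 1 else 0)
    else (if S.row x = S.row (i m) then S.a x ^ e.s x else 0)
  else
    if m < k then (if S.col x = S.col (i m) then S.b x ^ e.β /
      ∑ y ∈ Finset.univ.filter (fun y => S.col y = S.col (i m)), S.b y ^ e.β else 0)
    else S.b x ^ e.β * S.a x ^ e.s x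

omit [Nonempty I] [DecidableEq I] [MeasurableSpace I] [MeasurableSingletonClass I] in
lemma col_sum_pos (S : Sys I J K) (e : Expo S) (y : I) :
    0 < ∑ x ∈ Finset.univ.filter (fun x => S.col x = S.col y), S.b x ^ e.β :=
  Finset.sum_pos (fun x _ => Real.rpow_pos_of_pos (S.b_pos x) _) ⟨y, by simp⟩

omit [Nonempty I] [MeasurableSpace I] [MeasurableSingletonClass I] in
lemma wt_nonneg (S : Sys I J K) (e : Expo S) (k l : ℕ) (i : ℕ → I) (m : ℕ) (x : I) :
    0 ≤ wt S e k l i m x := by
  have h1 := (Real.rpow_pos_of_pos (S.a_pos x) (e.s x)).le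
  have h2 := (Real.rpow_pos_of_pos (S.b_pos x) e.β).le
  have h3 := (col_sum_pos S e (i m)).le
  unfold wt
  split_ifs <;> positivity

omit [Nonempty I] [MeasurableSpace I] [MeasurableSingletonClass I] in
lemma wt_sum_adm (S : Sys I J K) (e : Expo S) (k l : ℕ) (i : ℕ → I) (m : ℕ) :
    ∑ x ∈ adm S k l i m, wt S e k l i m x = 1 := by
  rcases lt_or_ge m k with hk | hk <;> rcases lt_or_ge m l with hl | hl
  · rw [adm_both S i hk hl]
    simp [wt, hk, hl]
  · rw [adm_col S i hk hl]
    have h1 : ∀ x ∈ Finset.univ.filter (fun x => S.col x = S.col (i m)),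
        wt S e k l i m x = S.b x ^ e.β /
          ∑ y ∈ Finset.univ.filter (fun y => S.col y = S.col (i m)), S.b y ^ e.β := by
      intro x hx
      simp only [wt, hl.not_gt, hk, if_true, if_false, (Finset.mem_filter.1 hx).2]
    rw [Finset.sum_congr rfl h1, ← Finset.sum_div]
    exact div_self (col_sum_pos S e (i m)).ne'
  · rw [adm_row S i hk hl, ← e.sum_row (i m)]
    apply Finset.sum_congr rfl
    intro x hx
    simp only [wt, hk.not_gt, hl, if_true, if_false, (Finset.mem_filter.1 hx).2]
  · rw [adm_none S i hk hl, ← e.sum_all]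
    apply Finset.sum_congr rfl
    intro x _
    simp only [wt, hk.not_gt, hl.not_gt, if_false]

omit [Nonempty I] [MeasurableSpace I] [MeasurableSingletonClass I] in
lemma wt_eq_zero (S : Sys I J K) (e : Expo S) (k l : ℕ) (i : ℕ → I) (m : ℕ) (x : I)
    (hx : x ∉ adm S k l i m) : wt S e k l i m x = 0 := by
  rcases lt_or_ge m k with hk | hk <;> rcases lt_or_ge m l with hl | hl
  · rw [adm_both S i hk hl, Finset.mem_singleton] at hx
    simp [wt, hk, hl, hx]
  · rw [adm_col S i hk hl] at hx
    have hx' : ¬ S.col x = S.col (i m) := by simpa using hx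
    simp [wt, hk, hl.not_gt, hx']
  · rw [adm_row S i hk hl] at hx
    have hx' : ¬ S.row x = S.row (i m) := by simpa using hx
    simp [wt, hk.not_gt, hl, hx']
  · rw [adm_none S i hk hl] at hx
    exact absurd (Finset.mem_univ _) hx

omit [Nonempty I] [MeasurableSpace I] [MeasurableSingletonClass I] in
lemma wt_sum_univ (S : Sys I J K) (e : Expo S) (k l : ℕ) (i : ℕ → I) (m : ℕ) :
    ∑ x, wt S e k l i m x = 1 := by
  rw [← wt_sum_adm S e k l i m]
  symm
  apply Finset.sum_subset (Finset.subset_univ _)
  intro x _ hx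
  exact wt_eq_zero S e k l i m x hx

/-- The measure: see the module description. -/
theorem exists_class_measure (S : Sys I J K) (e : Expo S) (k l : ℕ) (i : ℕ → I) :
    ∃ ν : Measure (ℕ → I), IsProbabilityMeasure ν ∧ ν (S.cls k l i) = 1 ∧
      (∀ (k' l' : ℕ) (i' : ℕ → I), k ≤ k' → l ≤ l' → k' ≤ l' → i' ∈ S.cls k l i →
        ENNReal.ofReal ((∏ m ∈ Finset.Ico k k', S.a (i' m) ^ e.s (i' m)) *
          ∏ m ∈ Finset.Ico l l', S.b (i' m) ^ e.β) ≤ ν (S.cls k' l' i')) ∧
      (k ≤ l → ∀ (k' l' : ℕ) (i' : ℕ → I) (σ : ℝ), k ≤ k' → l ≤ l' → i' ∈ S.cls k l i →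
        0 ≤ σ → (∀ x, σ ≤ e.s x) →
        ν (S.cls k' l' i') ≤ ENNReal.ofReal
          ((∏ m ∈ Finset.Ico k k', if m < l' then S.a (i' m) ^ e.s (i' m) else S.a (i' m) ^ σ) *
            ∏ m ∈ Finset.Ico l l', S.b (i' m) ^ e.β)) := by
  obtain ⟨ν, hν, hν'⟩ := exists_product (wt S e k l i) (wt_nonneg S e k l i)
    (wt_sum_univ S e k l i)
  have hcls : ∀ (k' l' : ℕ) (i' : ℕ → I), ν (S.cls k' l' i') =
      ENNReal.ofReal (∏ m ∈ Finset.range (max k' l'),
        ∑ x ∈ adm S k' l' i' m, wt S e k l i m x) := by
    intro k' l' i'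
    rw [← hν' (max k' l') (adm S k' l' i'),
      cls_eq S k' l' (max k' l') (le_max_left _ _) (le_max_right _ _) i']
    rfl
  have hapos : ∀ x (y : ℝ), 0 < S.a x ^ y := fun x y => Real.rpow_pos_of_pos (S.a_pos x) y
  have hbpos : ∀ x, 0 < S.b x ^ e.β := fun x => Real.rpow_pos_of_pos (S.b_pos x) _
  refine ⟨ν, hν, ?_, ?_, ?_⟩
  · rw [hcls]
    simp only [wt_sum_adm, Finset.prod_const_one, ENNReal.ofReal_one]
  · intro k' l' i' hk hl hkl hi'
    rw [hcls, prod_Ico_eq _ (le_max_left k' l'), prod_Ico_eq _ (le_max_right k' l'),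
      ← Finset.prod_mul_distrib]
    apply ENNReal.ofReal_le_ofReal
    apply Finset.prod_le_prod
    · intro m _
      have h1 := (hapos (i' m) (e.s (i' m))).le
      have h2 := (hbpos (i' m)).le
      split_ifs <;> positivity
    · intro m _
      rcases lt_or_ge m k with hmk | hmk <;> rcases lt_or_ge m l with hml | hml
      · -- both
        have hmk' : m < k' := hmk.trans_le hk
        have hml' : m < l' := hml.trans_le hl
        have heq : i' m = i m := S.inj _ _ (hi'.1 m hmk) (hi'.2 m hml)
        rw [adm_both S i' hmk' hml', Finset.sum_singleton]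
        simp [wt, hmk, hml, heq, hmk.not_ge, hml.not_ge]
      · -- m < k, l ≤ m
        have hmk' : m < k' := hmk.trans_le hk
        have hml' : m < l' := hmk'.trans_le hkl
        rw [adm_both S i' hmk' hml', Finset.sum_singleton]
        simp only [wt, hmk.not_ge, hml.not_gt, hmk, hml, hml', false_and, if_false, if_true,
          and_true, one_mul, hi'.1 m hmk]
        rw [le_div_iff₀ (col_sum_pos S e (i m))]
        have h1 := col_sum_le S e (i m)
        have h2 := hbpos (i' m)
        nlinarith
      · -- k ≤ m < l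
        have hml' : m < l' := hml.trans_le hl
        rcases lt_or_ge m k' with hmk' | hmk'
        · rw [adm_both S i' hmk' hml', Finset.sum_singleton]
          simp only [wt, hmk, hmk.not_gt, hml, hmk', hml.not_ge, true_and, false_and, if_false,
            if_true, mul_one, hi'.2 m hml]
          exact le_rfl
        · rw [adm_row S i' hmk' hml']
          have h3 : ∑ x ∈ Finset.univ.filter (fun x => S.row x = S.row (i' m)),
              wt S e k l i m x = 1 := by
            rw [hi'.2 m hml, ← adm_row S i hmk hml]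
            exact wt_sum_adm S e k l i m
          rw [h3]
          simp only [hmk'.not_gt, hml.not_ge, and_false, false_and, if_false, mul_one, le_refl]
      · -- both later
        rcases lt_or_ge m k' with hmk' | hmk'
        · have hml' : m < l' := hmk'.trans_le hkl
          rw [adm_both S i' hmk' hml', Finset.sum_singleton]
          simp only [wt, hmk, hmk.not_gt, hml, hml.not_gt, hmk', hml', true_and, if_false,
            if_true]
          rw [mul_comm]
        · rcases lt_or_ge m l' with hml' | hml'
          · rw [adm_row S i' hmk' hml']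
            have h3 : ∑ x ∈ Finset.univ.filter (fun x => S.row x = S.row (i' m)),
                wt S e k l i m x = S.b (i' m) ^ e.β := by
              rw [← row_sum S e (i' m)]
              apply Finset.sum_congr rfl
              intro x _
              simp only [wt, hmk.not_gt, hml.not_gt, if_false]
            rw [h3]
            simp only [hmk'.not_gt, hml, hml', true_and, and_false, if_false, if_true, one_mul,
              le_refl]
          · rw [adm_none S i' hmk' hml', wt_sum_univ]
            simp only [hmk'.not_gt, hml'.not_gt, and_false, if_false, mul_one, le_refl]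
  · intro hkl0 k' l' i' σ hk hl hi' hσ0 hσ
    rw [hcls, prod_Ico_eq _ (le_max_left k' l'), prod_Ico_eq _ (le_max_right k' l'),
      ← Finset.prod_mul_distrib]
    apply ENNReal.ofReal_le_ofReal
    apply Finset.prod_le_prod
    · intro m _
      exact Finset.sum_nonneg (fun x _ => wt_nonneg S e k l i m x)
    · intro m _
      rcases lt_or_ge m k with hmk | hmk
      · have hml : m < l := hmk.trans_le hkl0
        have hmk' : m < k' := hmk.trans_le hk
        have hml' : m < l' := hml.trans_le hl
        have heq : i' m = i m := S.inj _ _ (hi'.1 m hmk) (hi'.2 m hml)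
        rw [adm_both S i' hmk' hml', Finset.sum_singleton]
        simp [wt, hmk, hml, heq, hmk.not_ge, hml.not_ge]
      rcases lt_or_ge m l with hml | hml
      · -- k ≤ m < l
        have hml' : m < l' := hml.trans_le hl
        rcases lt_or_ge m k' with hmk' | hmk'
        · rw [adm_both S i' hmk' hml', Finset.sum_singleton]
          simp only [wt, hmk, hmk.not_gt, hml, hmk', hml.not_ge, true_and, false_and, if_false,
            if_true, mul_one, hi'.2 m hml, hml']
          exact le_rfl
        · rw [adm_row S i' hmk' hml']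
          have h3 : ∑ x ∈ Finset.univ.filter (fun x => S.row x = S.row (i' m)),
              wt S e k l i m x = 1 := by
            rw [hi'.2 m hml, ← adm_row S i hmk hml]
            exact wt_sum_adm S e k l i m
          rw [h3]
          simp only [hmk'.not_gt, hml.not_ge, and_false, false_and, if_false, mul_one, le_refl]
      · rcases lt_or_ge m k' with hmk' | hmk'
        · rcases lt_or_ge m l' with hml' | hml'
          · rw [adm_both S i' hmk' hml', Finset.sum_singleton]
            simp only [wt, hmk, hmk.not_gt, hml, hml.not_gt, hmk', hml', true_and, if_false,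
              if_true]
            rw [mul_comm]
          · rw [adm_col S i' hmk' hml']
            simp only [hmk, hmk', hml'.not_gt, and_self, and_false, if_true, if_false, mul_one]
            calc ∑ x ∈ Finset.univ.filter (fun x => S.col x = S.col (i' m)), wt S e k l i m x
                ≤ ∑ x ∈ Finset.univ.filter (fun x => S.col x = S.col (i' m)),
                    S.a (i' m) ^ σ * S.b x ^ e.β := by
                  apply Finset.sum_le_sum
                  intro x hx
                  simp only [wt, hmk.not_gt, hml.not_gt, if_false]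
                  rw [mul_comm]
                  apply mul_le_mul_of_nonneg_right _ (hbpos x).le
                  rw [S.col_a x (i' m) (Finset.mem_filter.1 hx).2]
                  exact Real.rpow_le_rpow_of_exponent_ge (S.a_pos _) (S.a_lt _).le (hσ x)
              _ ≤ S.a (i' m) ^ σ * 1 := by
                  rw [← Finset.mul_sum]
                  exact mul_le_mul_of_nonneg_left (col_sum_le S e (i' m)) (hapos _ _).le
              _ = S.a (i' m) ^ σ := mul_one _
        · rcases lt_or_ge m l' with hml' | hml'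
          · rw [adm_row S i' hmk' hml']
            have h3 : ∑ x ∈ Finset.univ.filter (fun x => S.row x = S.row (i' m)),
                wt S e k l i m x = S.b (i' m) ^ e.β := by
              rw [← row_sum S e (i' m)]
              apply Finset.sum_congr rfl
              intro x _
              simp only [wt, hmk.not_gt, hml.not_gt, if_false]
            rw [h3]
            simp only [hmk'.not_gt, hml, hml', true_and, and_false, if_false, if_true, one_mul,
              le_refl]
          · rw [adm_none S i' hmk' hml', wt_sum_univ]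
            simp only [hmk'.not_gt, hml'.not_gt, and_false, if_false, mul_one, le_refl]

omit [DecidableEq J] [DecidableEq K] in
/-- Similarity case (all a = b): one exponent. Cylinders; Bernoulli measure p = a^δ. -/
theorem exists_sim_measure (S : Sys I J K) (_hS : ∀ x, S.a x = S.b x) :
    ∃ δ : ℝ, 0 ≤ δ ∧ ∀ (k : ℕ) (i : ℕ → I),
      ∃ ν : Measure (ℕ → I), IsProbabilityMeasure ν ∧ ν (S.cls k k i) = 1 ∧
      ∀ (k' : ℕ) (i' : ℕ → I), k ≤ k' → i' ∈ S.cls k k i →
        ν (S.cls k' k' i') = ENNReal.ofReal (∏ m ∈ Finset.Ico k k', S.a (i' m) ^ δ) := by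
  obtain ⟨δ, hδ0, hδ1⟩ := exists_exponent Finset.univ (fun _ : I => 1) S.a
    (fun _ _ => zero_le_one) (fun x _ => S.a_pos x) (fun x _ => S.a_lt x)
    (by
      rw [Finset.sum_const, nsmul_eq_mul, mul_one]
      have : 0 < (Finset.univ : Finset I).card := Finset.card_pos.2 Finset.univ_nonempty
      exact_mod_cast this)
  simp only [one_mul] at hδ1
  refine ⟨δ, hδ0, ?_⟩
  intro k i
  set w : ℕ → I → ℝ := fun m x =>
    if m < k then (if x = i m then 1 else 0) else S.a x ^ δ with hw
  have hapos : ∀ x, 0 < S.a x ^ δ := fun x => Real.rpow_pos_of_pos (S.a_pos x) δ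
  have hw0 : ∀ m x, 0 ≤ w m x := by
    intro m x
    have := (hapos x).le
    simp only [hw]
    split_ifs <;> positivity
  have hw1 : ∀ m, ∑ x, w m x = 1 := by
    intro m
    rcases lt_or_ge m k with h | h
    · simp [hw, h]
    · simp only [hw, h.not_gt, if_false]
      exact hδ1
  obtain ⟨ν, hν, hν'⟩ := exists_product w hw0 hw1
  have hcls : ∀ (k' : ℕ) (i' : ℕ → I), ν (S.cls k' k' i') =
      ENNReal.ofReal (∏ m ∈ Finset.range k', w m (i' m)) := by
    intro k' i'
    have h1 : S.cls k' k' i' = {z | ∀ m < k', z m ∈ ({i' m} : Finset I)} := by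
      ext z
      constructor
      · rintro ⟨h1, h2⟩ m hm
        exact Finset.mem_singleton.2 (S.inj _ _ (h1 m hm) (h2 m hm))
      · intro h
        refine ⟨fun m hm => ?_, fun m hm => ?_⟩ <;> rw [Finset.mem_singleton.1 (h m hm)]
    rw [h1, hν' k' (fun m => {i' m})]
    simp only [Finset.sum_singleton]
  refine ⟨ν, hν, ?_, ?_⟩
  · rw [hcls]
    have : ∏ m ∈ Finset.range k, w m (i m) = 1 := by
      apply Finset.prod_eq_one
      intro m hm
      simp [hw, Finset.mem_range.1 hm]
    rw [this, ENNReal.ofReal_one]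
  · intro k' i' hk hi'
    rw [hcls, prod_Ico_eq _ (le_refl k')]
    congr 1
    apply Finset.prod_congr rfl
    intro m hm
    have hmk' := Finset.mem_range.1 hm
    rcases lt_or_ge m k with h | h
    · have heq : i' m = i m := S.inj _ _ (hi'.1 m h) (hi'.2 m h)
      simp [hw, h, heq]
    · simp [hw, h, hmk']

end Prod
end Pool.Agent.CarpetMeasures
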