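import Mathlib

/-!
# Self-affine carpets, Assouad and lower dimension, doubling-type conditions

Literal definitions for the problem on sharp doubling-type measures on self-affine carpets.
-/

set_option autoImplicit false

open MeasureTheory Metric Set

namespace Pool.Agent.CarpetMeasures

/-- The Euclidean plane. -/
abbrev Plane : Type := EuclideanSpace ℝ (Fin 2)

/-- The closed unit square `[0,1]^2`. -/
def unitSquare : Set Plane := {p | ∀ k, p k ∈ Icc (0 : ℝ) 1}

/-- The affine map `(x, y) ↦ (a x + t, b y + u)`. -/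
noncomputable def diagMap (a b t u : ℝ) (p : Plane) : Plane := !₂[a * p 0 + t, b * p 1 + u]

/-- Projection of the plane to the `y`-axis. -/
def projY (p : Plane) : ℝ := p 1

/-- Exchange of the two coordinates. -/
noncomputable def swapPt (p : Plane) : Plane := !₂[p 1, p 0]

/-- `F` is the attractor of the iterated function system `f`: the nonempty compact set with
`F = ⋃ i, f i (F)`. -/
def IsAttractor {ι : Type} (f : ι → Plane → Plane) (F : Set Plane) : Prop :=
  IsCompact F ∧ F.Nonempty ∧ F = ⋃ i, f i '' F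

/-- Carpets of Lalley-Gatzouras type. -/
def IsLalleyGatzouras (F : Set Plane) : Prop :=
  F ⊆ unitSquare ∧ ∃ (n : ℕ) (a b t u : Fin n → ℝ), 2 ≤ n ∧
    (∀ i, 0 < a i ∧ a i ≤ b i ∧ b i < 1) ∧
    (∀ i j, i ≠ j →
      Disjoint (interior (diagMap (a i) (b i) (t i) (u i) '' unitSquare))
        (interior (diagMap (a j) (b j) (t j) (u j) '' unitSquare))) ∧
    (∀ i j,
      projY '' (diagMap (a i) (b i) (t i) (u i) '' unitSquare) =
        projY '' (diagMap (a j) (b j) (t j) (u j) '' unitSquare) ∨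
      Disjoint (interior (projY '' (diagMap (a i) (b i) (t i) (u i) '' unitSquare)))
        (interior (projY '' (diagMap (a j) (b j) (t j) (u j) '' unitSquare)))) ∧
    IsAttractor (fun i => diagMap (a i) (b i) (t i) (u i)) F

/-- Carpets of Baranski type: `[0,1]` is cut into `m ≥ 2` consecutive intervals of lengths `c i`
horizontally and `n ≥ 2` of lengths `d j` vertically, and `A` is the set of chosen grid
rectangles. -/
def IsBaranski (F : Set Plane) : Prop :=
  ∃ (m n : ℕ) (c : Fin m → ℝ) (d : Fin n → ℝ) (A : Finset (Fin m × Fin n)),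
    2 ≤ m ∧ 2 ≤ n ∧ (∀ i, 0 < c i) ∧ (∀ j, 0 < d j) ∧ ∑ i, c i = 1 ∧ ∑ j, d j = 1 ∧
    2 ≤ A.card ∧
    IsAttractor (fun p : A => diagMap (c p.1.1) (d p.1.2)
      (∑ i ∈ Finset.univ.filter (fun i => i < p.1.1), c i)
      (∑ j ∈ Finset.univ.filter (fun j => j < p.1.2), d j)) F

/-- Self-affine carpets: Lalley-Gatzouras type, the same with the coordinates exchanged, or
Baranski type. -/
def IsSelfAffineCarpet (F : Set Plane) : Prop :=
  IsLalleyGatzouras F ∨ IsLalleyGatzouras (swapPt '' F) ∨ IsBaranski F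

/-- `N_r(E)`: the least number of sets of diameter at most `r` needed to cover `E`. -/
noncomputable def coverNum (r : ℝ) (E : Set Plane) : ℕ :=
  sInf {n : ℕ | ∃ U : Fin n → Set Plane, (∀ i, Metric.ediam (U i) ≤ ENNReal.ofReal r) ∧
    E ⊆ ⋃ i, U i}

/-- The Assouad dimension. -/
noncomputable def assouadDim (F : Set Plane) : ℝ :=
  sInf {s : ℝ | 0 ≤ s ∧ ∃ C : ℝ, 0 < C ∧ ∀ x ∈ F, ∀ r R : ℝ, 0 < r → r < R →
    (coverNum r (closedBall x R ∩ F) : ℝ) ≤ C * (R / r) ^ s}

/-- The lower dimension. -/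
noncomputable def lowerDim (F : Set Plane) : ℝ :=
  sSup {s : ℝ | 0 ≤ s ∧ ∃ C : ℝ, 0 < C ∧ ∀ x ∈ F, ∀ r R : ℝ, 0 < r → r < R →
    R ≤ Metric.diam F → C * (R / r) ^ s ≤ (coverNum r (closedBall x R ∩ F) : ℝ)}

/-- Condition (U_s) for a measure `μ` on `F`. -/
def UpperCond (F : Set Plane) (s : ℝ) (μ : Measure Plane) : Prop :=
  ∃ c : ℝ, 0 < c ∧ ∀ ρ : ℝ, 0 < ρ → ρ < 1 → ∀ x ∈ F, ∀ r : ℝ, 0 < r →
    μ (closedBall x r) ≤ ENNReal.ofReal (c * ρ ^ (-s)) * μ (closedBall x (ρ * r))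

/-- Condition (L_s) for a measure `μ` on `F`. -/
def LowerCond (F : Set Plane) (s : ℝ) (μ : Measure Plane) : Prop :=
  ∃ d : ℝ, 0 < d ∧ ∀ ρ : ℝ, 0 < ρ → ρ < 1 → ∀ x ∈ F, ∀ r : ℝ, 0 < r → r ≤ Metric.diam F →
    ENNReal.ofReal (d * ρ ^ (-s)) * μ (closedBall x (ρ * r)) ≤ μ (closedBall x r)

end Pool.Agent.CarpetMeasures
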