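import Pool.Agent.CarpetMeasures.Geom
import Pool.Agent.CarpetMeasures.Prod
import Pool.Agent.CarpetMeasures.Statement
import Pool.Agent.CarpetMeasures.Lower

/-!
# The symbolic data which determine the dimensions and the measures
-/

set_option autoImplicit false

open MeasureTheory Set Metric

namespace Pool.Agent.CarpetMeasures

variable {I J K : Type*} [MeasurableSpace I]

/-- Measures on classes with lower bounds of exponent `D` on all subclasses. -/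
def SymLower (S : Sys I J K) (D : ℝ) : Prop :=
  ∃ c : ℝ, 0 < c ∧ ∀ (r : ℝ) (i : ℕ → I), 0 < r → r ≤ 1 →
    ∃ ν : Measure (ℕ → I), ν univ ≤ 1 ∧
      ∀ (r' : ℝ) (i' : ℕ → I), 0 < r' → r' ≤ r → i' ∈ S.Q r i →
        ENNReal.ofReal (c * (r' / r) ^ D) ≤ ν (S.Q r' i')

/-- Measures on classes with upper bounds of exponent `D'` on all subclasses. -/
def SymUpper (S : Sys I J K) (D' : ℝ) : Prop :=
  ∃ C : ℝ, 0 < C ∧ ∀ (r : ℝ) (i : ℕ → I), 0 < r → r ≤ 1 →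
    ∃ ν : Measure (ℕ → I), IsProbabilityMeasure ν ∧ ν (S.Q r i) = 1 ∧
      ∀ (r' : ℝ) (i' : ℕ → I), 0 < r' → r' ≤ r → i' ∈ S.Q r i →
        ν (S.Q r' i') ≤ ENNReal.ofReal (C * (r' / r) ^ D')

/-- Classes rich at relative scale `ε` (lower bound for the Assouad dimension). -/
def SymRich (S : Sys I J K) (D : ℝ) : Prop :=
  ∃ C : ℝ, 0 < C ∧ ∀ ε : ℝ, 0 < ε → ε < 1 → ∃ (r : ℝ) (i : ℕ → I), 0 < r ∧ r ≤ 1 ∧
    ∃ ν : Measure (ℕ → I), IsProbabilityMeasure ν ∧ ν (S.Q r i) = 1 ∧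
      ∀ i' ∈ S.Q r i, ν (S.Q (ε * r) i') ≤ ENNReal.ofReal (C * ε ^ D)

/-- Points around which the set is poor at relative scale `ε` (upper bound for the lower
dimension). -/
def SymPoor (S : Sys I J K) (D' : ℝ) : Prop :=
  ∃ C c0 : ℝ, 0 < C ∧ 0 < c0 ∧ ∀ ε : ℝ, 0 < ε → ε < 1 → ∃ (r : ℝ) (i : ℕ → I), 0 < r ∧ r ≤ 1 ∧
    ∃ ν : Measure (ℕ → I), IsProbabilityMeasure ν ∧
      ∀ i' : ℕ → I, |S.X i' - S.X i| < c0 * r → |S.Y i' - S.Y i| < c0 * r →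
        ENNReal.ofReal (ε ^ D' / C) ≤ ν (S.Q (ε * r) i')

end Pool.Agent.CarpetMeasures
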