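import Pool.Agent.CarpetMeasures.LimitMeasure

/-!
# Measures with a sharp upper doubling exponent on a compact metric space

If every ball of radius `R` carries a measure of mass at most one which gives mass at least
`c (r / R) ^ s` to every ball of radius `r` centred in it, then there is one measure with
`μ (B (x, R)) ≤ C (R / r) ^ s μ (B (x, r))`.
-/

set_option autoImplicit false

open MeasureTheory Metric Set Filter Topology
open scoped ENNReal

namespace Pool.Agent.CarpetMeasures

namespace Nets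

variable {X : Type*} [MetricSpace X] (N : Nets X)

section weights

variable [MeasurableSpace X]

/-- `ν` gives mass at least `L ^ (n s)` to the cells `n` generations below `(k, x)`. -/
def Adm (s : ℝ) (k : ℕ) (x : X) (ν : Measure X) : Prop :=
  ∀ (n : ℕ) (z : X), z ∈ N.net (k + n) → N.anc k n z = x →
    ENNReal.ofReal ((L ^ n) ^ s) ≤ ν (N.cell (k + n) z)

/-- The weight of the node `(k, x)`. -/
noncomputable def W (s : ℝ) (k : ℕ) (x : X) : ℝ≥0∞ :=
  ⨅ (ν : Measure X) (_ : N.Adm s k x ν), ν (N.cell k x)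

lemma one_le_W {s : ℝ} {k : ℕ} {x : X} (hx : x ∈ N.net k) : 1 ≤ N.W s k x := by
  refine le_iInf₂ fun ν hν => ?_
  have := hν 0 x hx rfl
  simpa using this

lemma Adm.child {s : ℝ} {k : ℕ} {x y : X} {ν : Measure X} (hν : N.Adm s k x ν)
    (hy : N.par k y = x) : N.Adm s (k + 1) y ((ENNReal.ofReal (L ^ s))⁻¹ • ν) := by
  intro n z hz hzy
  have h1 := hν (n + 1) z (by rwa [show k + (n + 1) = k + 1 + n by ring])
    (by rw [anc_succ', hzy, hy])
  rw [show k + (n + 1) = k + 1 + n by ring] at h1
  have hq : 0 < L ^ s := Real.rpow_pos_of_pos L_pos s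
  rw [Measure.smul_apply, smul_eq_mul]
  refine le_trans ?_ (mul_le_mul_right h1 _)
  rw [← ENNReal.ofReal_inv_of_pos hq, ← ENNReal.ofReal_mul (inv_nonneg.2 hq.le)]
  apply ENNReal.ofReal_le_ofReal
  rw [pow_succ, Real.mul_rpow (Lpow_pos n).le L_pos.le]
  field_simp
  exact le_rfl

lemma W_super [DecidableEq X] [BorelSpace X] (s : ℝ) (k : ℕ) (x : X) :
    ∑ y ∈ (N.net (k + 1)).filter (fun y => N.par k y = x), ENNReal.ofReal (L ^ s) * N.W s (k + 1) y
      ≤ N.W s k x := by
  refine le_iInf₂ fun ν hν => ?_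
  have hq : 0 < L ^ s := Real.rpow_pos_of_pos L_pos s
  have h1 : ∀ y ∈ (N.net (k + 1)).filter (fun y => N.par k y = x),
      ENNReal.ofReal (L ^ s) * N.W s (k + 1) y ≤ ν (N.cell (k + 1) y) := by
    intro y hy
    rw [Finset.mem_filter] at hy
    have h2 : N.W s (k + 1) y ≤ ((ENNReal.ofReal (L ^ s))⁻¹ • ν) (N.cell (k + 1) y) :=
      iInf₂_le _ (hν.child N hy.2)
    rw [Measure.smul_apply, smul_eq_mul] at h2
    calc ENNReal.ofReal (L ^ s) * N.W s (k + 1) y
        ≤ ENNReal.ofReal (L ^ s) * ((ENNReal.ofReal (L ^ s))⁻¹ * ν (N.cell (k + 1) y)) :=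
          mul_le_mul_right h2 _
      _ = ν (N.cell (k + 1) y) := by
          rw [← mul_assoc, ENNReal.mul_inv_cancel (by simpa using hq) ENNReal.ofReal_ne_top, one_mul]
  refine (Finset.sum_le_sum h1).trans ?_
  rw [← measure_biUnion_finset]
  · apply measure_mono
    intro p hp
    simp only [mem_iUnion, Finset.mem_filter, exists_prop] at hp
    obtain ⟨y, ⟨-, hy⟩, hp⟩ := hp
    rw [← hy]
    exact N.cell_subset hp
  · intro y _ z _ hyz
    exact N.cell_disjoint hyz
  · intro y _
    exact (N.isOpen_cell _ _).measurableSet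

/-- The hypothesis on local measures. -/
def LowerLocal (X : Type*) [MetricSpace X] [MeasurableSpace X] (s c : ℝ) : Prop :=
  ∀ (x : X) (R : ℝ), 0 < R → R ≤ 4 → ∃ ν : Measure X, ν univ ≤ 1 ∧
      ∀ y, dist y x ≤ R → ∀ r, 0 < r → r ≤ R →
        ENNReal.ofReal (c * (r / R) ^ s) ≤ ν (closedBall y r)

lemma W_le {s c : ℝ} (hc : 0 < c) (H : LowerLocal X s c) {k : ℕ} {x : X} :
    N.W s k x ≤ ENNReal.ofReal (40 ^ s / c) := by
  obtain ⟨ν, hν1, hν⟩ := H x (2 * L ^ k) (by have := Lpow_pos k; linarith)
    (by have := Lpow_le_one k; linarith)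
  have h40 : (0 : ℝ) < 40 ^ s / c := div_pos (Real.rpow_pos_of_pos (by norm_num) s) hc
  have hadm : N.Adm s k x (ENNReal.ofReal (40 ^ s / c) • ν) := by
    intro n z hz hzx
    have hk := Lpow_pos k
    have hn := Lpow_pos n
    have hkn := Lpow_pos (k + n)
    have hn1 := Lpow_le_one n
    have hd : dist z x ≤ 2 * L ^ k := by rw [← hzx]; exact N.dist_anc_le' k n z
    have hkn' : L ^ (k + n) = L ^ k * L ^ n := pow_add _ _ _
    have h1 := hν z hd (L ^ (k + n) / 20) (by positivity) (by rw [hkn']; nlinarith)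
    rw [Measure.smul_apply, smul_eq_mul]
    have h2 : closedBall z (L ^ (k + n) / 20) ⊆ N.cell (k + n) z :=
      (closedBall_subset_ball (by linarith)).trans (N.ball_subset_cell hz)
    refine le_trans ?_ (mul_le_mul_right (h1.trans (measure_mono h2)) _)
    rw [← ENNReal.ofReal_mul h40.le]
    apply ENNReal.ofReal_le_ofReal
    have h3 : L ^ (k + n) / 20 / (2 * L ^ k) = L ^ n / 40 := by
      rw [hkn']; field_simp; norm_num
    rw [h3, Real.div_rpow hn.le (by norm_num)]
    have h4 : (0 : ℝ) < 40 ^ s := Real.rpow_pos_of_pos (by norm_num) s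
    field_simp
    exact le_rfl
  calc N.W s k x ≤ (ENNReal.ofReal (40 ^ s / c) • ν) (N.cell k x) := iInf₂_le _ hadm
    _ ≤ ENNReal.ofReal (40 ^ s / c) * 1 := by
        rw [Measure.smul_apply, smul_eq_mul]
        exact mul_le_mul_right ((measure_mono (subset_univ _)).trans hν1) _
    _ = _ := mul_one _

end weights

section masses

variable [DecidableEq X]

/-- Normalised masses of the Volberg-Konyagin construction. -/
noncomputable def g (τ g0 : ℝ) (w : ℕ → X → ℝ) : ℕ → X → ℝ
  | 0, _ => g0
  | k + 1, y =>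
    if y ∈ N.net k then
      g τ g0 w k y *
        (w k y - ∑ z ∈ ((N.net (k + 1)).filter (fun z => N.par k z = y)).erase y, τ * w (k + 1) z) /
          w (k + 1) y
    else τ * g τ g0 w k (N.par k y)

variable {N} {τ g0 C : ℝ} {w : ℕ → X → ℝ}

/-- Properties of the weights. -/
structure Wt (N : Nets X) (τ C : ℝ) (w : ℕ → X → ℝ) : Prop where
  τ_pos : 0 < τ
  τ_le : τ ≤ 1
  one_le : ∀ k, ∀ x ∈ N.net k, 1 ≤ w k x
  le_C : ∀ k, ∀ x ∈ N.net k, w k x ≤ C
  super : ∀ k, ∀ x ∈ N.net k,
    ∑ y ∈ (N.net (k + 1)).filter (fun y => N.par k y = x), τ * w (k + 1) y ≤ w k x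

lemma g_noncentral {k : ℕ} {y : X} (hy : y ∉ N.net k) :
    N.g τ g0 w (k + 1) y = τ * N.g τ g0 w k (N.par k y) := by
  rw [g, if_neg hy]

lemma mem_children {k : ℕ} {y : X} (hy : y ∈ N.net k) :
    y ∈ (N.net (k + 1)).filter (fun z => N.par k z = y) :=
  Finset.mem_filter.2 ⟨N.mono k hy, N.par_self hy⟩

lemma Wt.bracket (hw : Wt N τ C w) {k : ℕ} {y : X} (hy : y ∈ N.net k) :
    τ * w (k + 1) y ≤ w k y -
      ∑ z ∈ ((N.net (k + 1)).filter (fun z => N.par k z = y)).erase y, τ * w (k + 1) z := by
  have h1 := hw.super k y hy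
  rw [← Finset.add_sum_erase _ _ (mem_children hy)] at h1
  linarith

lemma g_pos (hw : Wt N τ C w) (hg0 : 0 < g0) (k : ℕ) :
    ∀ x ∈ N.net k, 0 < N.g τ g0 w k x := by
  induction k with
  | zero => intro x _; exact hg0
  | succ k ih =>
    intro y hy
    by_cases hyk : y ∈ N.net k
    · rw [g, if_pos hyk]
      have h1 := hw.bracket hyk
      have h2 := hw.one_le (k + 1) y hy
      have h3 := hw.τ_pos
      have h4 : 0 < τ * w (k + 1) y := by positivity
      exact div_pos (mul_pos (ih y hyk) (by linarith)) (by linarith)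
    · rw [g_noncentral hyk]
      exact mul_pos hw.τ_pos (ih _ (N.par_mem _ _))

lemma le_g_succ (hw : Wt N τ C w) (hg0 : 0 < g0) {k : ℕ} {y : X} (hy : y ∈ N.net (k + 1)) :
    τ * N.g τ g0 w k (N.par k y) ≤ N.g τ g0 w (k + 1) y := by
  by_cases hyk : y ∈ N.net k
  · rw [g, if_pos hyk, N.par_self hyk]
    have h1 := hw.bracket hyk
    have h2 := hw.one_le (k + 1) y hy
    have h3 := g_pos hw hg0 k y hyk
    rw [le_div_iff₀ (by linarith)]
    nlinarith
  · rw [g_noncentral hyk]

lemma g_central_le (hw : Wt N τ C w) (hg0 : 0 < g0) {k : ℕ} {y : X} (hyk : y ∈ N.net k) :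
    N.g τ g0 w (k + 1) y ≤ C * N.g τ g0 w k y := by
  have hy := N.mono k hyk
  rw [g, if_pos hyk]
  have h2 := hw.one_le (k + 1) y hy
  have h3 := g_pos hw hg0 k y hyk
  have h4 : 0 ≤ ∑ z ∈ ((N.net (k + 1)).filter (fun z => N.par k z = y)).erase y,
      τ * w (k + 1) z := by
    apply Finset.sum_nonneg
    intro z hz
    have := hw.one_le (k + 1) z (Finset.mem_filter.1 (Finset.mem_of_mem_erase hz)).1
    have := hw.τ_pos
    positivity
  have h5 := hw.le_C k y hyk
  have h7 := hw.bracket hyk
  have h8 := hw.τ_pos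
  have h9 : 0 < τ * w (k + 1) y := by positivity
  rw [div_le_iff₀ (by linarith)]
  have h6 : N.g τ g0 w k y * (w k y - ∑ z ∈ ((N.net (k + 1)).filter
      (fun z => N.par k z = y)).erase y, τ * w (k + 1) z) ≤ N.g τ g0 w k y * C := by
    apply mul_le_mul_of_nonneg_left _ h3.le
    linarith
  have h10 : N.g τ g0 w k y * C ≤ C * N.g τ g0 w k y * w (k + 1) y := by
    have hC : 0 < C := by linarith
    nlinarith [mul_pos h3 hC]
  linarith

/-- Neighbours have comparable normalised masses. -/
lemma g_neighbour (hw : Wt N τ C w) (hg0 : 0 < g0) (hC : 1 ≤ C) (k : ℕ) :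
    ∀ x ∈ N.net k, ∀ y ∈ N.net k, dist x y ≤ 8 * L ^ k →
      N.g τ g0 w k x ≤ C / τ * N.g τ g0 w k y := by
  have hτ := hw.τ_pos
  have hΛ : 1 ≤ C / τ := by
    rw [le_div_iff₀ hτ, one_mul]
    exact hw.τ_le.trans hC
  induction k with
  | zero =>
    intro x _ y _ _
    change g0 ≤ C / τ * g0
    nlinarith
  | succ k ih =>
    intro x hx y hy hxy
    have hLk := Lpow_pos k
    have hgx := g_pos hw hg0 _ x hx
    have hgy := g_pos hw hg0 _ y hy
    rw [Lpow_succ] at hxy
    by_cases hxk : x ∈ N.net k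
    · by_cases hyk : y ∈ N.net k
      · have : x = y := by
          by_contra hne
          have := N.sep k x hxk y hyk hne
          linarith
        subst this
        nlinarith
      · have hp : N.par k y = x := by
          apply N.par_eq_of_dist_lt hxk
          rw [dist_comm]
          linarith
        have h1 := g_central_le hw hg0 hxk
        rw [g_noncentral hyk, hp]
        calc N.g τ g0 w (k + 1) x ≤ C * N.g τ g0 w k x := h1
          _ = C / τ * (τ * N.g τ g0 w k x) := by field_simp
    · by_cases hyk : y ∈ N.net k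
      · have hp : N.par k x = y := by
          apply N.par_eq_of_dist_lt hyk
          linarith
        have h1 := le_g_succ hw hg0 hy
        rw [N.par_self hyk] at h1
        rw [g_noncentral hxk, hp]
        nlinarith
      · rw [g_noncentral hxk, g_noncentral hyk]
        have h1 := ih _ (N.par_mem k x) _ (N.par_mem k y) (by
          have h2 := dist_triangle4_left (N.par k x) x y (N.par k y)
          have h3 := N.par_lt k x
          have h4 := N.par_lt k y
          have h5 := dist_triangle (N.par k x) x (N.par k y)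
          have h6 := dist_triangle x y (N.par k y)
          rw [dist_comm (N.par k x) x] at h5
          linarith)
        calc τ * N.g τ g0 w k (N.par k x) ≤ τ * (C / τ * N.g τ g0 w k (N.par k y)) :=
              mul_le_mul_of_nonneg_left h1 hτ.le
          _ = _ := by ring

lemma g_consistent (hw : Wt N τ C w) :
    N.Consistent (fun k x => N.g τ g0 w k x * w k x) := by
  intro k x hx
  have hx1 := N.mono k hx
  rw [← Finset.add_sum_erase _ _ (mem_children hx)]
  have h1 : ∀ z ∈ ((N.net (k + 1)).filter (fun z => N.par k z = x)).erase x,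
      N.g τ g0 w (k + 1) z * w (k + 1) z = N.g τ g0 w k x * (τ * w (k + 1) z) := by
    intro z hz
    rw [Finset.mem_erase, Finset.mem_filter] at hz
    have hzk : z ∉ N.net k := by
      intro hzk
      exact hz.1 (by rw [← hz.2.2, N.par_self hzk])
    rw [g_noncentral hzk, hz.2.2]
    ring
  rw [Finset.sum_congr rfl h1, ← Finset.mul_sum]
  have h0 : N.g τ g0 w (k + 1) x = N.g τ g0 w k x *
        (w k x - ∑ z ∈ ((N.net (k + 1)).filter (fun z => N.par k z = x)).erase x,
          τ * w (k + 1) z) / w (k + 1) x := by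
    rw [g, if_pos hx]
  beta_reduce
  rw [h0]
  have h2 := hw.one_le (k + 1) x hx1
  have h3 : w (k + 1) x ≠ 0 := by linarith
  rw [div_mul_cancel₀ _ h3]
  ring

lemma g_anc (hw : Wt N τ C w) (hg0 : 0 < g0) (k n : ℕ) {z : X} (hz : z ∈ N.net (k + n)) :
    τ ^ n * N.g τ g0 w k (N.anc k n z) ≤ N.g τ g0 w (k + n) z := by
  induction n generalizing z with
  | zero => simp
  | succ n ih =>
    have h1 := ih (N.par_mem (k + n) z)
    have h2 := le_g_succ hw hg0 hz
    rw [anc_succ, pow_succ]
    calc τ ^ n * τ * N.g τ g0 w k (N.anc k n (N.par (k + n) z))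
        = τ * (τ ^ n * N.g τ g0 w k (N.anc k n (N.par (k + n) z))) := by ring
      _ ≤ τ * N.g τ g0 w (k + n) (N.par (k + n) z) := mul_le_mul_of_nonneg_left h1 hw.τ_pos.le
      _ ≤ _ := h2

end masses

section final

variable {N}

lemma exists_pow_scale {r : ℝ} (hr : 0 < r) (hr1 : r ≤ 1) : ∃ k : ℕ, L ^ (k + 1) < r ∧ r ≤ L ^ k := by
  classical
  have hex : ∃ k : ℕ, L ^ k < r := exists_pow_lt_of_lt_one hr L_lt_one
  have hspec := Nat.find_spec hex
  have h0 : Nat.find hex ≠ 0 := by
    intro h
    rw [h, pow_zero] at hspec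
    linarith
  obtain ⟨k, hk⟩ := Nat.exists_eq_succ_of_ne_zero h0
  refine ⟨k, by rw [← Nat.succ_eq_add_one, ← hk]; exact hspec, ?_⟩
  have := Nat.find_min hex (m := k) (by omega)
  exact not_lt.1 this

variable [MeasurableSpace X] [BorelSpace X]

/-- Number of net points in a ball. -/
lemma card_near {s c : ℝ} (hc : 0 < c) (H : LowerLocal X s c) (k : ℕ) (x : X) :
    (((N.net k).filter (fun y => dist y x ≤ 4 * L ^ k)).card : ℝ) ≤ 12 ^ s / c := by
  have hk := Lpow_pos k
  obtain ⟨ν, hν1, hν⟩ := H x (4 * L ^ k) (by positivity) (by have := Lpow_le_one k; linarith)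
  set T := (N.net k).filter (fun y => dist y x ≤ 4 * L ^ k) with hT
  have h1 : ∀ y ∈ T, ENNReal.ofReal (c / 12 ^ s) ≤ ν (closedBall y (L ^ k / 3)) := by
    intro y hy
    rw [hT, Finset.mem_filter] at hy
    have h2 := hν y hy.2 (L ^ k / 3) (by positivity) (by linarith)
    have h3 : L ^ k / 3 / (4 * L ^ k) = 1 / 12 := by field_simp; norm_num
    rw [h3, Real.div_rpow (by norm_num) (by norm_num), Real.one_rpow] at h2
    rwa [mul_one_div] at h2
  have h4 : ∑ y ∈ T, ν (closedBall y (L ^ k / 3)) ≤ 1 := by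
    rw [← measure_biUnion_finset]
    · exact (measure_mono (subset_univ _)).trans hν1
    · intro y hy z hz hyz
      have hy' := (Finset.mem_filter.1 hy).1
      have hz' := (Finset.mem_filter.1 hz).1
      have hd := N.sep k y hy' z hz' hyz
      exact closedBall_disjoint_closedBall (by linarith)
    · intro y _
      exact isClosed_closedBall.measurableSet
  have h5 : ∑ _y ∈ T, ENNReal.ofReal (c / 12 ^ s) ≤ 1 := (Finset.sum_le_sum h1).trans h4
  have h12 : (0 : ℝ) < 12 ^ s := Real.rpow_pos_of_pos (by norm_num) s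
  rw [Finset.sum_const, nsmul_eq_mul] at h5
  have h6 : ENNReal.ofReal ((T.card : ℝ) * (c / 12 ^ s)) ≤ ENNReal.ofReal 1 := by
    rw [ENNReal.ofReal_mul (by positivity), ENNReal.ofReal_natCast, ENNReal.ofReal_one]
    exact h5
  rw [ENNReal.ofReal_le_ofReal_iff (by norm_num)] at h6
  rw [le_div_iff₀ hc]
  have h7 : (T.card : ℝ) * (c / 12 ^ s) = T.card * c / 12 ^ s := by ring
  rw [h7, div_le_iff₀ h12] at h6
  linarith

theorem exists_measure_upper [CompactSpace X] [Nonempty X] {s c : ℝ} (hs : 0 ≤ s) (hc : 0 < c)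
    (H : LowerLocal X s c) :
    ∃ μ : Measure X, IsProbabilityMeasure μ ∧ ∃ C : ℝ, 0 < C ∧ ∀ (x : X) (r R : ℝ), 0 < r → r ≤ R →
      μ (closedBall x R) ≤ ENNReal.ofReal (C * (R / r) ^ s) * μ (closedBall x r) := by
  classical
  obtain ⟨N⟩ := exists_nets X
  -- the weights
  let CW : ℝ := 40 ^ s / c
  have hCW0 : 0 < CW := div_pos (Real.rpow_pos_of_pos (by norm_num) s) hc
  let w : ℕ → X → ℝ := fun k x => (N.W s k x).toReal
  have hWtop : ∀ k x, N.W s k x ≠ ⊤ := fun k x =>
    ne_top_of_le_ne_top ENNReal.ofReal_ne_top (N.W_le hc H)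
  set τ : ℝ := L ^ s with hτ
  have hτ0 : 0 < τ := Real.rpow_pos_of_pos L_pos s
  have hw : Wt N τ CW w := by
    refine ⟨hτ0, Real.rpow_le_one L_pos.le L_lt_one.le hs, ?_, ?_, ?_⟩
    · intro k x hx
      have h1 := N.one_le_W (s := s) hx
      have := ENNReal.toReal_mono (hWtop k x) h1
      simpa using this
    · intro k x hx
      exact ENNReal.toReal_le_of_le_ofReal hCW0.le (N.W_le hc H)
    · intro k x hx
      have h1 := N.W_super s k x
      have h2 := ENNReal.toReal_mono (hWtop k x) h1
      rw [ENNReal.toReal_sum] at h2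
      · have hL : (ENNReal.ofReal (L ^ s)).toReal = τ := by
          rw [ENNReal.toReal_ofReal (Real.rpow_nonneg L_pos.le s), hτ]
        simpa only [w, ENNReal.toReal_mul, hL] using h2
      · intro y _
        exact ENNReal.mul_ne_top ENNReal.ofReal_ne_top (hWtop _ _)
  have hCW1 : 1 ≤ CW := by
    obtain ⟨x⟩ := (inferInstance : Nonempty X)
    have h1 := hw.one_le 0 _ (N.par_mem 0 x)
    have h2 := hw.le_C 0 _ (N.par_mem 0 x)
    linarith
  -- the initial mass
  let Sg : ℝ := ∑ x ∈ N.net 0, w 0 x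
  have hSg : 0 < Sg := by
    obtain ⟨x⟩ := (inferInstance : Nonempty X)
    apply Finset.sum_pos
    · intro y hy
      have := hw.one_le 0 y hy
      linarith
    · exact ⟨_, N.par_mem 0 x⟩
  let g0 : ℝ := 1 / Sg
  have hg0 : 0 < g0 := by positivity
  let M : ℕ → X → ℝ := fun k x => N.g τ g0 w k x * w k x
  have hMpos : ∀ k, ∀ x ∈ N.net k, 0 ≤ M k x := by
    intro k x hx
    have h1 := g_pos hw hg0 k x hx
    have h2 := hw.one_le k x hx
    positivity
  have hM0 : ∑ x ∈ N.net 0, M 0 x = 1 := by
    have : ∀ x ∈ N.net 0, M 0 x = g0 * w 0 x := fun x _ => rfl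
    rw [Finset.sum_congr rfl this, ← Finset.mul_sum]
    change 1 / Sg * Sg = 1
    field_simp
  obtain ⟨μ, hμ, hlow, hup⟩ := N.exists_limit_measure hMpos hM0 (g_consistent hw)
  refine ⟨μ, hμ, ?_⟩
  -- lower bound for small balls
  have hsmall : ∀ (x : X) (k n : ℕ) (r : ℝ), 3 * L ^ (k + n) ≤ r →
      ENNReal.ofReal (τ ^ n * N.g τ g0 w k (N.anc k n (N.par (k + n) x))) ≤ μ (closedBall x r) := by
    intro x k n r hr
    have h1 := hlow (k + n) {N.par (k + n) x} (closedBall x r)
      (Finset.singleton_subset_iff.2 (N.par_mem _ _)) isClosed_closedBall (by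
        intro y hy
        rw [Finset.mem_singleton] at hy
        subst hy
        apply closedBall_subset_closedBall'
        have := N.par_lt (k + n) x
        rw [dist_comm] at this
        linarith)
    rw [Finset.sum_singleton] at h1
    refine le_trans (ENNReal.ofReal_le_ofReal ?_) h1
    have h2 := g_anc hw hg0 k n (N.par_mem (k + n) x)
    have h3 := hw.one_le _ _ (N.par_mem (k + n) x)
    have h4 := g_pos hw hg0 _ _ (N.par_mem (k + n) x)
    change _ ≤ N.g τ g0 w (k + n) (N.par (k + n) x) * w (k + n) (N.par (k + n) x)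
    nlinarith
  -- upper bound for balls of radius `L ^ k`
  have hlarge : ∀ (x : X) (k n : ℕ) (R : ℝ), R ≤ L ^ k →
      μ (closedBall x R) ≤ ENNReal.ofReal (12 ^ s / c * (CW / τ) * CW *
        N.g τ g0 w k (N.anc k n (N.par (k + n) x))) := by
    intro x k n R hR
    have hk := Lpow_pos k
    set T := (N.net k).filter (fun y => dist y x ≤ 4 * L ^ k) with hT
    have h1 := hup k T (ball x (2 * L ^ k)) (Finset.filter_subset _ _) isOpen_ball (by
      intro y hy hne
      obtain ⟨p, hp1, hp2⟩ := hne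
      rw [mem_closedBall] at hp1
      rw [mem_ball] at hp2
      rw [hT, Finset.mem_filter]
      refine ⟨hy, ?_⟩
      have := dist_triangle_left y x p
      linarith)
    have h2 : closedBall x R ⊆ ball x (2 * L ^ k) := closedBall_subset_ball (by linarith)
    refine (measure_mono h2).trans (h1.trans (ENNReal.ofReal_le_ofReal ?_))
    have hanc := N.anc_mem (N.par_mem (k + n) x)
    have hG := g_pos hw hg0 k _ hanc
    set G := N.g τ g0 w k (N.anc k n (N.par (k + n) x)) with hGdef
    have h3 : ∀ y ∈ T, M k y ≤ CW / τ * G * CW := by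
      intro y hy
      rw [hT, Finset.mem_filter] at hy
      have h4 := g_neighbour hw hg0 hCW1 k y hy.1 _ hanc (by
        have h5 := dist_triangle4 y x (N.par (k + n) x) (N.anc k n (N.par (k + n) x))
        have h6 := N.par_lt (k + n) x
        have h7 := N.dist_anc_le' k n (N.par (k + n) x)
        have h8 : L ^ (k + n) ≤ L ^ k := by
          rw [pow_add]
          have := Lpow_le_one n
          nlinarith
        linarith)
      have h9 := hw.le_C k y hy.1
      have h10 := hw.one_le k y hy.1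
      have h11 := g_pos hw hg0 k y hy.1
      change N.g τ g0 w k y * w k y ≤ _
      have h12 : 0 ≤ CW / τ * G := by positivity
      calc N.g τ g0 w k y * w k y ≤ (CW / τ * G) * w k y :=
            mul_le_mul_of_nonneg_right h4 (by linarith)
        _ ≤ (CW / τ * G) * CW := mul_le_mul_of_nonneg_left h9 h12
    have h4 := Finset.sum_le_sum h3
    rw [Finset.sum_const, nsmul_eq_mul] at h4
    refine h4.trans ?_
    have h5 := card_near (N := N) hc H k x
    rw [← hT] at h5
    have h6 : 0 ≤ CW / τ * G * CW := by positivity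
    calc (T.card : ℝ) * (CW / τ * G * CW) ≤ 12 ^ s / c * (CW / τ * G * CW) :=
          mul_le_mul_of_nonneg_right h5 h6
      _ = _ := by ring
  -- the constants
  let C1 : ℝ := 12 ^ s / c * (CW / τ) * CW * 1200 ^ s
  let C2 : ℝ := 60 ^ s / g0
  have h12 : (0 : ℝ) < 12 ^ s := Real.rpow_pos_of_pos (by norm_num) s
  have h60 : (0 : ℝ) < 60 ^ s := Real.rpow_pos_of_pos (by norm_num) s
  have h1200 : (0 : ℝ) < 1200 ^ s := Real.rpow_pos_of_pos (by norm_num) s
  have hC1 : 0 < C1 := by positivity
  have hC2 : 0 < C2 := by positivity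
  refine ⟨C1 + C2, by positivity, ?_⟩
  intro x r R hr hrR
  have hR : 0 < R := hr.trans_le hrR
  have hmono : ∀ {A B : ℝ}, A ≤ B → ∀ {m : ℝ≥0∞}, ENNReal.ofReal A * m ≤ ENNReal.ofReal B * m :=
    fun hAB _ => mul_le_mul_left (ENNReal.ofReal_le_ofReal hAB) _
  have hpowτ : ∀ n : ℕ, τ ^ n = (L ^ n) ^ s := by
    intro n
    rw [hτ, ← Real.rpow_natCast, ← Real.rpow_mul L_pos.le, mul_comm s, Real.rpow_mul L_pos.le,
      Real.rpow_natCast]
  rcases le_or_gt R 1 with hR1 | hR1
  · obtain ⟨k, hk1, hk2⟩ := exists_pow_scale hR hR1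
    obtain ⟨j, hj1, hj2⟩ := exists_pow_scale (r := r / 3) (by positivity) (by linarith)
    have hkj : k ≤ j + 1 := by
      by_contra hlt
      push Not at hlt
      have h1 : L ^ k ≤ L ^ (j + 1) := pow_le_pow_of_le_one L_pos.le L_lt_one.le hlt.le
      linarith
    obtain ⟨n, hn⟩ := Nat.exists_eq_add_of_le hkj
    rw [hn] at hj1
    have hlo := hsmall x k n r (by linarith)
    have hhi := hlarge x k n R hk2
    set G := N.g τ g0 w k (N.anc k n (N.par (k + n) x)) with hG
    have hGpos : 0 < G := g_pos hw hg0 k _ (N.anc_mem (N.par_mem (k + n) x))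
    have hτn : 0 < τ ^ n := pow_pos hτ0 n
    -- `(1200 R / r) ^ s ≥ 1 / τ ^ n`
    have hratio : 1 ≤ τ ^ n * (1200 ^ s * (R / r) ^ s) := by
      rw [hpowτ, ← Real.mul_rpow (by norm_num) (by positivity),
        ← Real.mul_rpow (Lpow_pos n).le (by positivity)]
      apply Real.one_le_rpow _ hs
      have h1 : L ^ j = 20 * (L ^ k * L ^ n) := by
        rw [← pow_add, ← hn, Lpow_succ]
        ring
      have h2 := Lpow_succ k
      have h3 := Lpow_pos n
      have h4 := Lpow_pos k
      rw [show L ^ n * (1200 * (R / r)) = L ^ n * (1200 * R) / r by ring, le_div_iff₀ hr, one_mul]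
      rw [h1] at hj2
      have h5 : L ^ k < 20 * R := by linarith
      nlinarith
    calc μ (closedBall x R) ≤ ENNReal.ofReal (12 ^ s / c * (CW / τ) * CW * G) := hhi
      _ ≤ ENNReal.ofReal ((C1 + C2) * (R / r) ^ s * (τ ^ n * G)) := by
          apply ENNReal.ofReal_le_ofReal
          have hA : 0 < 12 ^ s / c * (CW / τ) * CW * G := by positivity
          have hrs : 0 < (R / r) ^ s := Real.rpow_pos_of_pos (by positivity) s
          calc 12 ^ s / c * (CW / τ) * CW * G
              ≤ (12 ^ s / c * (CW / τ) * CW * G) * (τ ^ n * (1200 ^ s * (R / r) ^ s)) :=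
                le_mul_of_one_le_right hA.le hratio
            _ = C1 * (R / r) ^ s * (τ ^ n * G) := by simp only [C1]; ring
            _ ≤ (C1 + C2) * (R / r) ^ s * (τ ^ n * G) := by
                apply mul_le_mul_of_nonneg_right _ (by positivity)
                apply mul_le_mul_of_nonneg_right _ hrs.le
                linarith
      _ = ENNReal.ofReal ((C1 + C2) * (R / r) ^ s) * ENNReal.ofReal (τ ^ n * G) := by
          rw [ENNReal.ofReal_mul (by positivity)]
      _ ≤ _ := mul_le_mul_right hlo _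
  · -- large radii
    set r' : ℝ := min r 1 with hr'
    have hr'0 : 0 < r' := lt_min hr one_pos
    obtain ⟨j, hj1, hj2⟩ := exists_pow_scale (r := r' / 3) (by positivity)
      (by have := min_le_right r 1; linarith)
    have hlo := hsmall x 0 (j + 1) r' (by rw [zero_add]; linarith)
    have hG : N.g τ g0 w 0 (N.anc 0 (j + 1) (N.par (0 + (j + 1)) x)) = g0 := rfl
    rw [hG] at hlo
    have hlo' := hlo.trans (measure_mono (closedBall_subset_closedBall (min_le_left r 1)) :
      μ (closedBall x r') ≤ μ (closedBall x r))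
    have hratio : 1 ≤ τ ^ (j + 1) * (60 ^ s * (R / r) ^ s) := by
      rw [hpowτ, ← Real.mul_rpow (by norm_num) (by positivity),
        ← Real.mul_rpow (Lpow_pos _).le (by positivity)]
      apply Real.one_le_rpow _ hs
      have h1 : L ^ j = 20 * L ^ (j + 1) := by rw [Lpow_succ]; ring
      have h2 : r ≤ r' * R := by
        rcases le_total r 1 with h | h
        · rw [hr', min_eq_left h]
          nlinarith
        · rw [hr', min_eq_right h]
          linarith
      rw [show L ^ (j + 1) * (60 * (R / r)) = L ^ (j + 1) * (60 * R) / r by ring, le_div_iff₀ hr,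
        one_mul]
      have h3 : r' ≤ 60 * L ^ (j + 1) := by linarith
      calc r ≤ r' * R := h2
        _ ≤ (60 * L ^ (j + 1)) * R := mul_le_mul_of_nonneg_right h3 hR.le
        _ = _ := by ring
    calc μ (closedBall x R) ≤ 1 := by
          have := prob_le_one (μ := μ) (s := closedBall x R)
          exact this
      _ = ENNReal.ofReal 1 := by simp
      _ ≤ ENNReal.ofReal ((C1 + C2) * (R / r) ^ s * (τ ^ (j + 1) * g0)) := by
          apply ENNReal.ofReal_le_ofReal
          have hrs : 0 < (R / r) ^ s := Real.rpow_pos_of_pos (by positivity) s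
          have hτn : 0 < τ ^ (j + 1) := pow_pos hτ0 _
          calc (1 : ℝ) ≤ τ ^ (j + 1) * (60 ^ s * (R / r) ^ s) := hratio
            _ = C2 * (R / r) ^ s * (τ ^ (j + 1) * g0) := by
                simp only [C2]
                field_simp
            _ ≤ (C1 + C2) * (R / r) ^ s * (τ ^ (j + 1) * g0) := by
                apply mul_le_mul_of_nonneg_right _ (by positivity)
                apply mul_le_mul_of_nonneg_right _ hrs.le
                linarith
      _ = ENNReal.ofReal ((C1 + C2) * (R / r) ^ s) * ENNReal.ofReal (τ ^ (j + 1) * g0) := by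
          rw [ENNReal.ofReal_mul (by positivity)]
      _ ≤ _ := mul_le_mul_right hlo' _

end final

end Nets

end Pool.Agent.CarpetMeasures
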